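import Pool.Agent.MX.Stmts

set_option autoImplicit false
set_option linter.unusedSectionVars false

/-! Equality of alternating sums. -/

namespace Pool.Agent.MX

open Equiv
open Pool.Agent.MAL (alt IsMalcev alt_add alt_sub alt_neg alt_smul alt_precomp map_alt alt_comp)

/-- equality of the alternating sums of two functions -/
def AE {M G : Type} [AddCommGroup G] (K : ℕ) (f g : (Fin K → M) → G) : Prop :=
  ∀ x, alt K f x = alt K g x

namespace AE

variable {F M G G' : Type} [Field F] [CharZero F] [AddCommGroup G] [Module F G] [AddCommGroup G']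
  [Module F G'] {K : ℕ} {f g h f' g' : (Fin K → M) → G}

theorem refl (f : (Fin K → M) → G) : AE K f f := fun _ => rfl

theorem symm (h : AE K f g) : AE K g f := fun x => (h x).symm

theorem trans (h1 : AE K f g) (h2 : AE K g h) : AE K f h := fun x => (h1 x).trans (h2 x)

theorem add (h1 : AE K f g) (h2 : AE K f' g') : AE K (fun z => f z + f' z) (fun z => g z + g' z) := by
  intro x
  rw [alt_add, alt_add, h1 x, h2 x]

theorem sub (h1 : AE K f g) (h2 : AE K f' g') : AE K (fun z => f z - f' z) (fun z => g z - g' z) := by
  intro x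
  rw [alt_sub, alt_sub, h1 x, h2 x]

theorem neg (h1 : AE K f g) : AE K (fun z => - f z) (fun z => - g z) := by
  intro x
  rw [alt_neg, alt_neg, h1 x]

theorem smul (c : F) (h1 : AE K f g) : AE K (fun z => c • f z) (fun z => c • g z) := by
  intro x
  rw [alt_smul, alt_smul, h1 x]

theorem of_eq (h : ∀ z, f z = g z) : AE K f g := by
  have : f = g := funext h
  rw [this]; exact refl _

theorem of_zero (h : ∀ x, alt K (fun z => f z - g z) x = 0) : AE K f g := by
  intro x
  have := h x
  rw [alt_sub, sub_eq_zero] at this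
  exact this

/-- renaming of the letters -/
theorem perm (τ : Perm (Fin K)) (s : ℤ) (hs : (Perm.sign τ : ℤ) = s)
    (h : ∀ z, g z = f (fun i => z (τ i))) : AE K g (fun z => s • f z) := by
  intro x
  have : g = fun z => f (fun i => z (τ i)) := funext h
  rw [this, alt_precomp, hs, Pool.Agent.MAL.alt_zsmul]

theorem even (τ : Perm (Fin K)) (hs : (Perm.sign τ : ℤ) = 1)
    (h : ∀ z, g z = f (fun i => z (τ i))) : AE K g f := by
  intro x
  rw [perm τ 1 hs h x, Pool.Agent.MAL.alt_zsmul, one_smul]

theorem odd (τ : Perm (Fin K)) (hs : (Perm.sign τ : ℤ) = -1)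
    (h : ∀ z, g z = f (fun i => z (τ i))) : AE K g (fun z => - f z) := by
  intro x
  rw [perm τ (-1) hs h x, Pool.Agent.MAL.alt_zsmul, alt_neg, neg_one_smul]

/-- a function which is symmetric under an odd renaming -/
theorem zero_of_symm (F : Type) [Field F] [CharZero F] [Module F G] (τ : Perm (Fin K))
    (hs : (Perm.sign τ : ℤ) = -1) (h : ∀ z, f (fun i => z (τ i)) = f z) : AE K f (fun _ => 0) := by
  intro x
  have h1 : AE K f (fun z => - f z) := odd (f := f) (g := f) τ hs (fun z => (h z).symm)
  have h2 := h1 x
  rw [alt_neg] at h2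
  rw [Pool.Agent.MAL.alt_zero]
  have h3 : (2 : F) • alt K f x = 0 := by
    rw [two_smul]
    nth_rewrite 2 [h2]
    exact add_neg_cancel _
  exact (smul_eq_zero.mp h3).resolve_left two_ne_zero

/-- alternating sums inside a context -/
theorem lift (hAB : Stmt_AltBlock) (F : Type) [Field F] [CharZero F] [Module F G'] {k m : ℕ}
    {f g : (Fin m → M) → G} (C : (Fin k → M) → G →+ G') (h : AE m f g) :
    AE (k + m) (fun w => C (fun i => w (Fin.castAdd m i)) (f (fun i => w (Fin.natAdd k i))))
      (fun w => C (fun i => w (Fin.castAdd m i)) (g (fun i => w (Fin.natAdd k i)))) := by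
  apply of_zero
  intro x
  apply hAB F M G' k m
  intro y z
  have h1 : (fun z : Fin m → M => (C fun i => (Fin.append y z : Fin (k + m) → M) (Fin.castAdd m i))
        (f fun i => (Fin.append y z : Fin (k + m) → M) (Fin.natAdd k i)) -
      (C fun i => (Fin.append y z : Fin (k + m) → M) (Fin.castAdd m i))
        (g fun i => (Fin.append y z : Fin (k + m) → M) (Fin.natAdd k i))) =
      fun z => C y (f z) - C y (g z) := by
    funext z
    simp only [Fin.append_left, Fin.append_right]
  rw [h1, alt_sub, ← map_alt (C y) f, ← map_alt (C y) g, h z, sub_self]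

end AE

end Pool.Agent.MX
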