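import Pool.Agent.MX.Stmts

set_option autoImplicit false

/-! Module AltBlock: alternating sums over a block of letters. -/

namespace Pool.Agent.MX

open Equiv
open Pool.Agent.MAL (alt IsMalcev)

namespace AltBlock

/-- the permutation of the last `m` letters -/
def blk (k m : ℕ) (τ : Perm (Fin m)) : Perm (Fin (k + m)) :=
  (finSumFinEquiv (m := k) (n := m)).permCongr (Perm.sumCongr 1 τ)

theorem blk_left {k m : ℕ} (τ : Perm (Fin m)) (i : Fin k) :
    blk k m τ (Fin.castAdd m i) = Fin.castAdd m i := by
  simp [blk, Equiv.permCongr_apply]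

theorem blk_right {k m : ℕ} (τ : Perm (Fin m)) (j : Fin m) :
    blk k m τ (Fin.natAdd k j) = Fin.natAdd k (τ j) := by
  simp [blk, Equiv.permCongr_apply]

theorem blk_sign {k m : ℕ} (τ : Perm (Fin m)) : Perm.sign (blk k m τ) = Perm.sign τ := by
  simp [blk, Perm.sign_permCongr, Perm.sign_sumCongr]

theorem app {k m : ℕ} {M : Type} (w : Fin (k + m) → M) (τ : Perm (Fin m)) :
    (fun i => w (blk k m τ i)) =
      Fin.append (fun i => w (Fin.castAdd m i)) (fun j => w (Fin.natAdd k (τ j))) := by
  funext i
  refine Fin.addCases (fun i => ?_) (fun j => ?_) i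
  · rw [blk_left, Fin.append_left]
  · rw [blk_right, Fin.append_right]

end AltBlock

theorem altBlock_proof : Stmt_AltBlock := by
  intro F M G _ _ _ _ k m f hf x
  have key : ∑ _τ : Perm (Fin m), alt (k + m) f x = 0 := by
    have h1 : ∀ τ : Perm (Fin m), alt (k + m) f x =
        ∑ σ : Perm (Fin (k + m)), (Perm.sign σ : ℤ) • ((Perm.sign τ : ℤ) •
          f (Fin.append (fun i => x (σ (Fin.castAdd m i)))
            (fun j => x (σ (Fin.natAdd k (τ j)))))) := by
      intro τ
      unfold alt
      rw [← Equiv.sum_comp (Equiv.mulRight (AltBlock.blk k m τ))]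
      refine Finset.sum_congr rfl fun σ _ => ?_
      rw [Equiv.coe_mulRight, Perm.sign_mul, AltBlock.blk_sign, Units.val_mul, mul_smul]
      have h2 : (fun i => x ((σ * AltBlock.blk k m τ) i)) =
          Fin.append (fun i => x (σ (Fin.castAdd m i)))
            (fun j => x (σ (Fin.natAdd k (τ j)))) :=
        AltBlock.app (fun i => x (σ i)) τ
      rw [h2]
    rw [Finset.sum_congr rfl fun τ _ => h1 τ, Finset.sum_comm]
    refine Finset.sum_eq_zero fun σ _ => ?_
    rw [← Finset.smul_sum]
    have h3 := hf (fun i => x (σ (Fin.castAdd m i))) (fun j => x (σ (Fin.natAdd k j)))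
    unfold alt at h3
    rw [h3, smul_zero]
  rw [Finset.sum_const, Finset.card_univ] at key
  have h4 : ((Fintype.card (Perm (Fin m)) : ℕ) : F) • alt (k + m) f x = 0 := by
    rw [Nat.cast_smul_eq_nsmul]
    exact key
  rcases smul_eq_zero.1 h4 with h5 | h5
  · exact absurd h5 (Nat.cast_ne_zero.2 Fintype.card_ne_zero)
  · exact h5

end Pool.Agent.MX
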