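import Pool.Agent.MX.AE

set_option autoImplicit false
set_option linter.unusedSectionVars false

/-! The fully alternating identities. -/

namespace Pool.Agent.MX

open Equiv
open Pool.Agent.MAL (alt IsMalcev alt_add alt_sub alt_neg alt_smul alt_precomp map_alt alt_comp)

namespace DD

variable {F B J : Type} [Field F] [CharZero F] [NonUnitalNonAssocRing B] [Module F B]
    [IsScalarTower F B B] [SMulCommClass F B B] [AddCommGroup J] [Module F J]
    (D : JData F B J)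

/-- `J(x,x,x)` as an element of the ambient space -/
def W3 (z : Fin 3 → B) : (B → J) × J := (0, D.jc (z 0) (z 1) (z 2))

def P4 (z : Fin 4 → B) : (B → J) × J := (fun v => D.fm (D.jc (z 0) (z 1) (z 2)) (z 3) v, 0)

def K4 (z : Fin 4 → B) : (B → J) × J := (0, D.act (D.jc (z 0) (z 1) (z 2)) (z 3))

def V5 (z : Fin 5 → B) : (B → J) × J := (0, D.fm (D.jc (z 0) (z 1) (z 2)) (z 3) (z 4))

def V6 (z : Fin 6 → B) : (B → J) × J := (0, D.fm (D.jc (z 0) (z 1) (z 2)) (z 3) (z 4 * z 5))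

variable {D}

/-- from `J` to the ambient space -/
theorem ae_snd {K : ℕ} {f g : (Fin K → B) → J} (h : AE K f g) :
    AE K (fun z => ((0, f z) : (B → J) × J)) (fun z => (0, g z)) := by
  intro x
  have h1 := map_alt (AddMonoidHom.inr (B → J) J) f x
  have h2 := map_alt (AddMonoidHom.inr (B → J) J) g x
  have h3 : (fun z => ((0, f z) : (B → J) × J)) = fun z => AddMonoidHom.inr (B → J) J (f z) := rfl
  have h4 : (fun z => ((0, g z) : (B → J) × J)) = fun z => AddMonoidHom.inr (B → J) J (g z) := rfl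
  rw [h3, h4, ← h1, ← h2, h x]

theorem alt_prod {K : ℕ} (f : (Fin K → B) → (B → J)) (g : (Fin K → B) → J) (x : Fin K → B) :
    alt K (fun z => ((f z, g z) : (B → J) × J)) x = (alt K f x, alt K g x) := by
  refine Prod.ext ?_ ?_
  · exact map_alt (AddMonoidHom.fst (B → J) J) (fun z => ((f z, g z) : (B → J) × J)) x
  · exact map_alt (AddMonoidHom.snd (B → J) J) (fun z => ((f z, g z) : (B → J) × J)) x

theorem ae_prod {K : ℕ} {f f' : (Fin K → B) → (B → J)} {g g' : (Fin K → B) → J} (h : AE K f f')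
    (h' : AE K g g') :
    AE K (fun z => ((f z, g z) : (B → J) × J)) (fun z => (f' z, g' z)) := by
  intro x
  rw [alt_prod, alt_prod, h x, h' x]

theorem ae_fun {K : ℕ} {f g : (Fin K → B) → (B → J)}
    (h : ∀ v, AE K (fun z => f z v) (fun z => g z v)) : AE K f g := by
  intro x
  funext v
  have h1 := map_alt (Pi.evalAddMonoidHom (fun _ : B => J) v) f x
  have h2 := map_alt (Pi.evalAddMonoidHom (fun _ : B => J) v) g x
  exact h1.trans ((h v x).trans h2.symm)

variable (h : D.IsJCP) (h1 : D.Facts1) (h2 : D.Facts2) (h3 : D.Facts3) (h4 : D.Facts4)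
  (hs : D.SupId)

include hs in
theorem ae_i5 : AE 4 (fun z => D.jc (z 0) (z 1) (z 2 * z 3))
    (fun z => (2/3 : F) • D.act (D.jc (z 0) (z 1) (z 2)) (z 3)) := by
  intro x
  have := hs.i5 x
  rw [alt_sub, alt_smul, alt_smul, sub_eq_zero] at this
  rw [alt_smul]
  have h5 : ((1/3 : F)) • ((3 : F) • alt 4 (fun z => D.jc (z 0) (z 1) (z 2 * z 3)) x) =
    alt 4 (fun z => D.jc (z 0) (z 1) (z 2 * z 3)) x := by
    rw [smul_smul]; norm_num
  rw [← h5, this, smul_smul]; norm_num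

include hs in
theorem ae_i3 : AE 5 (fun z => D.act (D.act (D.jc (z 0) (z 1) (z 2)) (z 3)) (z 4))
    (fun z => -((3 : F) • D.fm (D.jc (z 0) (z 1) (z 2)) (z 3) (z 4))) := by
  intro x
  have := hs.i3 x
  rw [alt_add] at this
  rw [alt_neg]
  exact eq_neg_of_add_eq_zero_left this

include hs in
theorem ae_i6 : AE 5 (fun z => D.jc (z 0) (z 1) (z 2 * (z 3 * z 4)))
    (fun z => (2 : F) • D.fm (D.jc (z 0) (z 1) (z 2)) (z 3) (z 4)) := by
  intro x
  have := hs.i6 x
  rw [alt_sub] at this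
  exact sub_eq_zero.mp this

include hs in
theorem ae_i8 : AE 6 (fun z => D.jc (z 0) (z 1) (D.ι (D.act (D.jc (z 2) (z 3) (z 4)) (z 5))))
    (fun z => -((9 : F) • D.fm (D.jc (z 0) (z 1) (z 2)) (z 3) (z 4 * z 5))) := by
  intro x
  have := hs.i8 x
  rw [alt_add] at this
  rw [alt_neg]
  exact eq_neg_of_add_eq_zero_left this

/-- `L_x (0,J(x,x,x))` -/
theorem L1 : AE 4 (fun z => D.La (z 0) (0, D.jc (z 1) (z 2) (z 3))) (fun z => P4 D z + K4 D z) := by
  have e1 : AE 4 (fun z => D.La (z 0) (0, D.jc (z 1) (z 2) (z 3)))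
      (fun z => - (fun z : Fin 4 → B => D.La (z 3) (0, D.jc (z 0) (z 1) (z 2))) z) := by
    apply AE.odd (f := fun z : Fin 4 → B => D.La (z 3) (0, D.jc (z 0) (z 1) (z 2))) (finRotate 4)
    · rw [sign_finRotate]; norm_num
    · intro z; rfl
  refine e1.trans (AE.of_eq fun z => ?_)
  simp only [JData.La_apply, P4, K4]
  ext v
  · simp
  · simp


theorem rot_even {G : Type} [AddCommGroup G] {K : ℕ} (f g : (Fin (K + 1) → B) → G)
    (hK : Even K) (h : ∀ z, g z = f (fun i => z (finRotate (K + 1) i))) : AE (K + 1) g f := by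
  apply AE.even (finRotate (K + 1)) _ h
  rw [sign_finRotate]
  simp [hK]

theorem rot_odd {G : Type} [AddCommGroup G] {K : ℕ} (f g : (Fin (K + 1) → B) → G)
    (hK : Odd K) (h : ∀ z, g z = f (fun i => z (finRotate (K + 1) i))) :
    AE (K + 1) g (fun z => - f z) := by
  apply AE.odd (finRotate (K + 1)) _ h
  rw [sign_finRotate]
  simp [hK.neg_one_pow]

include hs in
theorem L2 : AE 4 (fun z => ((0, D.jc (z 0) (z 1) (z 2 * z 3)) : (B → J) × J))
    (fun z => (2/3 : F) • K4 D z) := by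
  refine (ae_snd (ae_i5 hs)).trans (AE.of_eq fun z => ?_)
  simp [K4]

include h h1 in
theorem L3 : AE 5 (fun z => D.La (z 0) (P4 D ![z 1, z 2, z 3, z 4])) (V5 D) := by
  refine AE.trans (AE.of_eq (g := fun z => (0, D.fm (D.jc (z 1) (z 2) (z 3)) (z 4) (z 0))) fun z => ?_)
    (rot_even (V5 D) _ (by decide) fun z => rfl)
  ext v
  · simp [P4, JData.La_apply]
  · simp [P4, JData.La_apply]

include h h1 hs in
theorem L4 : AE 5 (fun z => D.La (z 0) (K4 D ![z 1, z 2, z 3, z 4])) (fun z => (3 : F) • V5 D z) := by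
  have e1 : AE 5 (fun z => D.La (z 0) (K4 D ![z 1, z 2, z 3, z 4]))
      (fun z => ((fun v => -(D.fm (D.jc (z 0) (z 1) (z 2)) (z 3 * z 4) v),
        -(D.act (D.act (D.jc (z 0) (z 1) (z 2)) (z 3)) (z 4))) : (B → J) × J)) := by
    apply rot_even _ _ (by decide)
    intro z
    ext v
    · simp only [K4, JData.La_apply, Matrix.cons_val]
      rw [h.fm_act]
      rfl
    · simp only [K4, JData.La_apply, Matrix.cons_val, Pi.zero_apply, zero_sub]
      rfl
  refine e1.trans ?_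
  have e2 := ae_prod (f := fun z : Fin 5 → B => fun v => -(D.fm (D.jc (z 0) (z 1) (z 2)) (z 3 * z 4) v))
    (f' := fun _ => 0)
    (g := fun z : Fin 5 → B => -(D.act (D.act (D.jc (z 0) (z 1) (z 2)) (z 3)) (z 4)))
    (g' := fun z : Fin 5 → B => - -((3 : F) • D.fm (D.jc (z 0) (z 1) (z 2)) (z 3) (z 4)))
    (ae_fun fun v => ?_) (ae_i3 hs).neg
  · refine e2.trans (AE.of_eq fun z => ?_)
    ext v
    · simp [V5]
    · simp [V5]
  · intro x
    have := hs.i4 x v
    rw [alt_neg, this]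
    simp [alt]

include hs in
theorem L5 : AE 5 (fun z => ((0, D.jc (z 0) (z 1) (z 2 * (z 3 * z 4))) : (B → J) × J))
    (fun z => (2 : F) • V5 D z) := by
  refine (ae_snd (ae_i6 hs)).trans (AE.of_eq fun z => ?_)
  simp [V5]

include h h1 h2 in
theorem L6 : AE 6 (fun z => D.La (z 0) (V5 D ![z 1, z 2, z 3, z 4, z 5])) (V6 D) := by
  have e1 : AE 6 (fun z => D.La (z 0) (V5 D ![z 1, z 2, z 3, z 4, z 5]))
      (fun z => - ((fun v => -(D.q (z 4) (z 5) (D.fm (D.jc (z 0) (z 1) (z 2)) (z 3) v)),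
        -(D.fm (D.jc (z 0) (z 1) (z 2)) (z 3) (z 4 * z 5))) : (B → J) × J)) := by
    apply rot_odd (fun z => ((fun v => -(D.q (z 4) (z 5) (D.fm (D.jc (z 0) (z 1) (z 2)) (z 3) v)),
        -(D.fm (D.jc (z 0) (z 1) (z 2)) (z 3) (z 4 * z 5))) : (B → J) × J)) _ (by decide)
    intro z
    ext v
    · simp only [V5, JData.La_apply, Matrix.cons_val]
      rw [h2.p5]
      rfl
    · simp only [V5, JData.La_apply, Matrix.cons_val, Pi.zero_apply, zero_sub]
      rw [← h.fm_mul]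
      rfl
  refine e1.trans ?_
  have e2 := ae_prod
    (f := fun z : Fin 6 → B => fun v => (D.q (z 4) (z 5) (D.fm (D.jc (z 0) (z 1) (z 2)) (z 3) v)))
    (f' := fun _ => 0)
    (g := fun z : Fin 6 → B => (D.fm (D.jc (z 0) (z 1) (z 2)) (z 3) (z 4 * z 5)))
    (g' := fun z : Fin 6 → B => (D.fm (D.jc (z 0) (z 1) (z 2)) (z 3) (z 4 * z 5)))
    (ae_fun fun v => ?_) (AE.refl _)
  · refine (AE.of_eq fun z => ?_).trans (e2.trans (AE.of_eq fun z => ?_))
    · ext v
      · simp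
      · simp
    · ext v
      · simp [V6]
      · simp [V6]
  · apply AE.zero_of_symm F (swap 4 5)
    · rw [Perm.sign_swap (by decide)]; rfl
    · intro z
      change D.q (z 5) (z 4) (D.fm (D.jc (z 0) (z 1) (z 2)) (z 3) v) = _
      rw [h.q_symm]

include hs in
theorem L7 : AE 6 (fun z => ((0, D.jc (z 0) (z 1) (D.ι (D.act (D.jc (z 2) (z 3) (z 4)) (z 5)))) :
      (B → J) × J)) (fun z => (-9 : F) • V6 D z) := by
  refine (ae_snd (ae_i8 hs)).trans (AE.of_eq fun z => ?_)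
  simp [V6]

theorem zs_fm (j : J) (a : B) : (fun v => D.fm j a v) ∈ D.ZS := Submodule.subset_span ⟨(j, a), rfl⟩

include h h1 h2 h3 hs in
theorem L9 : AE 7 (fun z => ((0, D.jc (z 0) (z 1) (D.ι (D.fm (D.jc (z 2) (z 3) (z 4)) (z 5) (z 6)))) :
      (B → J) × J)) (fun _ => 0) := by
  have e0 : AE 7 (fun z => D.fm (D.jc (z 0) (z 1) (z 2)) (z 3) ((z 4 * z 5) * z 6)) (fun _ => 0) := by
    intro x
    rw [hs.i11 x]; simp [alt]
  have e1 : AE 7 (fun z => D.fm (D.jc (z 2) (z 3) (z 4)) (z 5) ((z 0 * z 1) * z 6)) (fun _ => 0) := by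
    refine AE.trans ?_ e0
    apply AE.even (f := fun z : Fin 7 → B =>
      D.fm (D.jc (z 0) (z 1) (z 2)) (z 3) ((z 4 * z 5) * z 6))
      ((swap 0 2 * swap 2 4 * swap 1 3 * swap 3 5))
    · simp [Perm.sign_swap']
    · intro z; rfl
  have e2 : AE 7 (fun z => D.fm (D.jc (z 2) (z 3) (z 4)) (z 5) ((z 1 * z 6) * z 0)) (fun _ => 0) := by
    refine AE.trans ?_ e0
    apply AE.even (f := fun z : Fin 7 → B =>
      D.fm (D.jc (z 0) (z 1) (z 2)) (z 3) ((z 4 * z 5) * z 6))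
      ((swap 0 2 * swap 2 4 * swap 4 1 * swap 1 3 * swap 3 5 * swap 5 6))
    · simp [Perm.sign_swap']
    · intro z; rfl
  have e3 : AE 7 (fun z => D.fm (D.jc (z 2) (z 3) (z 4)) (z 5) ((z 6 * z 0) * z 1)) (fun _ => 0) := by
    refine AE.trans ?_ e0
    apply AE.even (f := fun z : Fin 7 → B =>
      D.fm (D.jc (z 0) (z 1) (z 2)) (z 3) ((z 4 * z 5) * z 6))
      ((swap 0 2 * swap 2 4 * swap 4 6 * swap 6 1 * swap 1 3 * swap 3 5))
    · simp [Perm.sign_swap']
    · intro z; rfl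
  have e4 := ae_snd ((e1.add e2).add e3)
  refine (AE.of_eq fun z => ?_).trans (e4.trans (AE.of_eq fun z => ?_))
  · have := h3.z_jc _ (zs_fm (D := D) (D.jc (z 2) (z 3) (z 4)) (z 5)) (z 0) (z 1) (z 6)
    rw [this]
    simp only [jac, map_add]
  · ext v
    · simp
    · simp


/-! octonion words -/

theorem kX_u (a b : B) : JData.kX F a b (JData.uX : JData.OX B J) = 0 := rfl

theorem kX_b (a b c : B) : JData.kX F a b (D.bX c) = (0, D.jc a b c) := rfl

theorem kX_q (a b c d : B) (o : JData.OX B J) :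
    JData.kX F a b (D.qX c d o) = (0, D.q c d (o.2.2.2 a b)) := rfl

include h4 in
/-- the word of length two -/
theorem A2 (a b : B) : D.AX a (D.AX b JData.uX) = - D.qX a b JData.uX + D.bX (a * b) := by
  rw [h4.AX_uX, h4.AX_bX]

include h4 in
theorem A3 (a b c : B) : D.AX a (D.AX b (D.AX c JData.uX)) =
    - D.qX b c (D.bX a) + (- D.qX a (b * c) JData.uX + D.bX (a * (b * c))) := by
  rw [A2 h4, map_add, map_neg, h4.AX_qX, h4.AX_uX, h4.AX_bX]

include h4 in
theorem c1 (a b c : B) : JData.kX F a b (D.AX c JData.uX) = (0, D.jc a b c) := by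
  rw [h4.AX_uX]; rfl

include h4 in
theorem c2 (a b c d : B) : JData.kX F a b (D.AX c (D.AX d JData.uX)) = (0, D.jc a b (c * d)) := by
  rw [A2 h4, map_add, map_neg, kX_q, kX_b]
  ext v <;> simp [JData.uX]

include h4 in
theorem c3 (a b c d e : B) : JData.kX F a b (D.AX c (D.AX d (D.AX e JData.uX))) =
    (0, - D.q d e (D.jc a b c) + D.jc a b (c * (d * e))) := by
  rw [A3 h4, map_add, map_neg, map_add, map_neg, kX_q, kX_q, kX_b]
  ext v <;> simp [JData.uX, JData.bX]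

include h h4 hs in
/-- `K_{x,x}(x x x . one)` -/
theorem C3 : AE 5 (fun z => JData.kX F (z 0) (z 1) (D.AX (z 2) (D.AX (z 3) (D.AX (z 4) JData.uX))))
    (fun z => (2 : F) • V5 D z) := by
  have e1 : AE 5 (fun z => - D.q (z 3) (z 4) (D.jc (z 0) (z 1) (z 2))) (fun _ => (0 : J)) := by
    apply AE.zero_of_symm F (swap 3 4)
    · rw [Perm.sign_swap (by decide)]; rfl
    · intro z
      change - D.q (z 4) (z 3) (D.jc (z 0) (z 1) (z 2)) = _
      rw [h.q_symm]
  refine (AE.of_eq fun z => c3 h4 _ _ _ _ _).trans ?_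
  refine (ae_snd (e1.add (ae_i6 hs))).trans (AE.of_eq fun z => ?_)
  simp [V5]


section A4

variable {G : Type} [AddCommGroup G] [Module F G]

include h1 in
/-- `jac x x x = -3 x (x x)` -/
theorem ae_jac (T : B → B →+ G) : AE 4 (fun z => T (z 0) (jac (z 1) (z 2) (z 3)))
    (fun z => (-3 : F) • T (z 0) (z 1 * (z 2 * z 3))) := by
  have e1 : AE 4 (fun z => T (z 0) (z 3 * (z 1 * z 2))) (fun z => T (z 0) (z 1 * (z 2 * z 3))) := by
    apply AE.even ((swap 1 3 * swap 3 2))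
    · simp [Perm.sign_swap']
    · intro z; rfl
  have e2 : AE 4 (fun z => T (z 0) (z 2 * (z 3 * z 1))) (fun z => T (z 0) (z 1 * (z 2 * z 3))) := by
    apply AE.even ((swap 1 2 * swap 2 3))
    · simp [Perm.sign_swap']
    · intro z; rfl
  have e3 := ((e1.add (AE.refl (fun z : Fin 4 → B => T (z 0) (z 1 * (z 2 * z 3))))).add e2).neg
  refine (AE.of_eq fun z => ?_).trans (e3.trans (AE.of_eq fun z => ?_))
  · rw [← map_add, ← map_add, ← map_neg]
    congr 1
    unfold jac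
    rw [h1.anti (z 1 * z 2), h1.anti (z 2 * z 3), h1.anti (z 3 * z 1)]
    abel
  · module

end A4

/-- multiplication by `⟨a,b⟩` of the unit, additive in `b` -/
def qU (D : JData F B J) (a : B) : B →+ JData.OX B J where
  toFun b := D.qX a b JData.uX
  map_zero' := by
    refine Prod.ext ?_ (Prod.ext ?_ (Prod.ext ?_ ?_)) <;> ext <;>
      simp [JData.qX, JData.uX, JData.q_apply]
  map_add' b c := by
    refine Prod.ext ?_ (Prod.ext ?_ (Prod.ext ?_ ?_)) <;> ext <;>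
      simp only [JData.qX, JData.uX, JData.q_apply, map_add, LinearMap.coe_mk, AddHom.coe_mk,
        Prod.fst_add, Prod.snd_add, Pi.add_apply, Pi.zero_apply, map_zero, LinearMap.add_apply,
        smul_add] <;> abel

include h4 in
/-- `b ↦ a b` -/
theorem exists_bM : ∃ T : B → B →+ JData.OX B J, ∀ a b, T a b = D.bX (a * b) :=
  ⟨fun a =>
    { toFun := fun b => D.bX (a * b)
      map_zero' := by
        have := h4.bX_smul (0 : F) 0
        simp only [zero_smul] at this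
        rw [mul_zero, this]
      map_add' := fun b c => by rw [mul_add, h4.bX_add] }, fun _ _ => rfl⟩

/-- the ambient form of `w4` -/
def W4 (D : JData F B J) (z : Fin 4 → B) : (B → J) × J := P4 D z + (4/3 : F) • K4 D z

theorem W4_eq (z : Fin 4 → B) : (D.w4 z : (B → J) × J) = W4 D z := by
  ext v
  · simp [JData.w4, W4, P4, K4]
  · simp [JData.w4, W4, P4, K4]

/-- `β(J(x,x,x) x)` -/
def KB (D : JData F B J) (z : Fin 4 → B) : JData.OX B J :=
  D.bX (D.ι (D.act (D.jc (z 0) (z 1) (z 2)) (z 3)))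

include h h1 h4 in
theorem ae_b4 : AE 4 (fun z => D.bX (z 0 * (z 1 * (z 2 * z 3)))) (fun z => (-(1/3) : F) • KB D z) := by
  obtain ⟨T, hT⟩ := exists_bM h4
  have e1 := ae_jac h1 T
  have e2 : AE 4 (fun z => T (z 0) (jac (z 1) (z 2) (z 3))) (fun z => - - KB D z) := by
    have e3 : AE 4 (fun z => - T (z 0) (jac (z 1) (z 2) (z 3))) (fun z => - KB D z) := by
      apply rot_odd (KB D) _ (by decide)
      intro z
      rw [hT, h1.anti, ← h.ι_jc, ← h.ι_act]
      have h5 : ∀ b : B, D.bX (-b) = - D.bX b := by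
        intro b
        have := h4.bX_smul (-1 : F) b
        rwa [neg_one_smul, neg_one_smul] at this
      rw [h5, neg_neg]
      rfl
    refine (AE.of_eq fun z => ?_).trans e3.neg
    rw [neg_neg]
  intro x
  have e4 := (e1 x).symm.trans (e2 x)
  rw [alt_smul] at e4
  rw [alt_smul]
  have e5 : alt 4 (fun z => D.bX (z 0 * (z 1 * (z 2 * z 3)))) x =
      alt 4 (fun z => T (z 0) (z 1 * (z 2 * z 3))) x := by
    simp only [hT]
  have e6 : alt 4 (fun z => - - KB D z) x = alt 4 (KB D) x := by simp only [neg_neg]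
  rw [e6] at e4
  have e7 : alt 4 (fun z => KB D z) x = alt 4 (KB D) x := rfl
  rw [e5, e7, ← e4, smul_smul]
  norm_num

include h in
theorem qX_symm (a b : B) : D.qX a b = D.qX b a := by
  refine LinearMap.ext fun o => ?_
  simp only [JData.qX, LinearMap.coe_mk, AddHom.coe_mk, h.q_symm a b]

include h h1 h4 hs in
/-- `⟨x,xx⟩ β(x) = 1/9 β(J(x,x,x) x)` -/
theorem ae_X : AE 4 (fun z => D.qX (z 1) (z 2 * z 3) (D.bX (z 0))) (fun z => (1/9 : F) • KB D z) := by
  have hb : ∀ c : F, ∀ b : B, D.bX (c • b) = c • D.bX b := h4.bX_smul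
  have e1 : AE 4 (fun z => D.qX (z 0) (z 2 * z 3) (D.bX (z 1)))
      (fun z => - (fun z : Fin 4 → B => D.qX (z 1) (z 2 * z 3) (D.bX (z 0))) z) := by
    apply AE.odd (f := fun z : Fin 4 → B => D.qX (z 1) (z 2 * z 3) (D.bX (z 0))) (swap 0 1)
    · rw [Perm.sign_swap (by decide)]; rfl
    · intro z; rfl
  have e2 : AE 4 (fun z => D.qX (z 0) (z 1) (D.bX (z 2 * z 3))) (fun _ => 0) := by
    apply AE.zero_of_symm F (swap 0 1)
    · rw [Perm.sign_swap (by decide)]; rfl
    · intro z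
      change D.qX (z 1) (z 0) (D.bX (z 2 * z 3)) = _
      rw [qX_symm h]
  have e3 : AE 4 (fun z => D.bX (jac (z 0) (z 1) (z 2 * z 3))) (fun z => (2/3 : F) • KB D z) := by
    intro x
    obtain ⟨T, hT⟩ : ∃ T : J →+ JData.OX B J, ∀ j, T j = D.bX (D.ι j) :=
      ⟨{ toFun := fun j => D.bX (D.ι j)
         map_zero' := by
            have := h4.bX_smul (0 : F) 0
            simp only [zero_smul] at this
            rw [map_zero, this]
         map_add' := fun b c => by rw [map_add, h4.bX_add] }, fun _ => rfl⟩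
    have e4 := congrArg T (ae_i5 hs x)
    rw [map_alt, map_alt] at e4
    have e5 : (fun z : Fin 4 → B => T (D.jc (z 0) (z 1) (z 2 * z 3))) =
        fun z => D.bX (jac (z 0) (z 1) (z 2 * z 3)) := by
      funext z; rw [hT, h.ι_jc]
    have e6 : (fun z : Fin 4 → B => T ((2/3 : F) • D.act (D.jc (z 0) (z 1) (z 2)) (z 3))) =
        fun z => (2/3 : F) • KB D z := by
      funext z; rw [hT, map_smul, hb]; rfl
    rw [e5, e6] at e4
    exact e4
  have e7 := (ae_b4 h h1 h4)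
  have e8 := (e1.sub e2).sub (e3.smul (1/3 : F))
  intro x
  have e9 := e7 x
  have e10 := e8 x
  have e11 : (fun z : Fin 4 → B => D.bX (z 0 * (z 1 * (z 2 * z 3)))) = fun z =>
      D.qX (z 0) (z 2 * z 3) (D.bX (z 1)) - D.qX (z 0) (z 1) (D.bX (z 2 * z 3))
        - (1/3 : F) • D.bX (jac (z 0) (z 1) (z 2 * z 3)) := by
    funext z
    rw [h4.bX_g]
  rw [e11, e10] at e9
  simp only [sub_zero] at e9
  rw [alt_sub, alt_neg, alt_smul, alt_smul, alt_smul] at e9
  rw [alt_smul]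
  have e12 : alt 4 (fun z => D.qX (z 1) (z 2 * z 3) (D.bX (z 0))) x =
      (1/3 : F) • alt 4 (fun z => KB D z) x - (1/3 : F) • (2/3 : F) • alt 4 (fun z => KB D z) x := by
    have := congrArg (fun t => - t - (1/3 : F) • (2/3 : F) • alt 4 (fun z => KB D z) x) e9
    simp only [neg_sub, sub_neg_eq_add] at this
    linear_combination (norm := module) this
  rw [e12]
  module

include h h1 h2 h4 hs in
/-- four operators on the unit -/
theorem A4 : AE 4 (fun z => D.AX (z 0) (D.AX (z 1) (D.AX (z 2) (D.AX (z 3) JData.uX))))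
    (fun z => (-(1/3) : F) • D.eX (W4 D z)) := by
  have e1 : AE 4 (fun z => D.qX (z 2) (z 3) (D.AX (z 0) (D.bX (z 1)))) (fun _ => 0) := by
    apply AE.zero_of_symm F (swap 2 3)
    · rw [Perm.sign_swap (by decide)]; rfl
    · intro z
      change D.qX (z 3) (z 2) (D.AX (z 0) (D.bX (z 1))) = _
      rw [qX_symm h]
  have e2 : AE 4 (fun z => qU D (z 0) (z 1 * (z 2 * z 3)))
      (fun z => (1/3 : F) • D.qX (z 3) (jac (z 0) (z 1) (z 2)) JData.uX) := by
    have e3 := ae_jac h1 (qU D)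
    have e4 : AE 4 (fun z => qU D (z 0) (jac (z 1) (z 2) (z 3)))
        (fun z => - D.qX (z 3) (jac (z 0) (z 1) (z 2)) JData.uX) := by
      apply rot_odd _ _ (by decide)
      intro z; rfl
    intro x
    have e5 := (e3 x).symm.trans (e4 x)
    rw [alt_smul, alt_neg] at e5
    rw [alt_smul]
    have e6 := congrArg (fun t => (-(1/3) : F) • t) e5
    simp only [smul_smul, smul_neg] at e6
    have e7 : (-(1/3) * -3 : F) = 1 := by norm_num
    rw [e7, one_smul] at e6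
    rw [e6]
    module
  have e3 : ∀ z : Fin 4 → B, D.AX (z 0) (D.AX (z 1) (D.AX (z 2) (D.AX (z 3) JData.uX))) =
      - D.qX (z 2) (z 3) (D.AX (z 0) (D.bX (z 1))) - D.qX (z 1) (z 2 * z 3) (D.bX (z 0))
        - qU D (z 0) (z 1 * (z 2 * z 3)) + D.bX (z 0 * (z 1 * (z 2 * z 3))) := by
    intro z
    rw [A3 h4, map_add, map_neg, h4.AX_qX, map_add, map_neg, h4.AX_qX, h4.AX_uX,
      h4.AX_bX (z 0) (z 1 * (z 2 * z 3))]
    change _ = _ - D.qX (z 0) (z 1 * (z 2 * z 3)) JData.uX + _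
    abel
  have e4 := (((e1.neg).sub (ae_X h h1 h4 hs)).sub e2).add (ae_b4 h h1 h4)
  refine (AE.of_eq e3).trans (e4.trans (AE.of_eq fun z => ?_))
  have e5 : D.eX (P4 D z) = D.qX (z 3) (jac (z 0) (z 1) (z 2)) JData.uX := by
    refine Prod.ext ?_ (Prod.ext ?_ (Prod.ext ?_ ?_))
    · funext k
      change D.fm (D.jc (z 0) (z 1) (z 2)) (z 3) (D.ι k) = D.q (z 3) (jac (z 0) (z 1) (z 2)) k
      rw [h2.q_fm, h.ι_jc, h.q_symm]
    · funext k
      simp [JData.eX, P4, JData.qX, JData.uX]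
    · funext k v
      simp [JData.eX, P4, JData.qX, JData.uX]
    · funext k v
      simp [JData.eX, P4, JData.qX, JData.uX]
  have e6 : D.eX (K4 D z) = KB D z := by
    refine Prod.ext ?_ rfl
    funext k
    simp [JData.eX, K4, KB, JData.bX]
  rw [W4, map_add, map_smul, e5, e6]
  module


variable (hAB : Stmt_AltBlock)

/-- additive form of `La` -/
def LaH (D : JData F B J) (b : B) : ((B → J) × J) →+ ((B → J) × J) := (D.La b).toAddMonoidHom

def kXH (F : Type) [Field F] {B J : Type} [NonUnitalNonAssocRing B] [Module F B]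
    [AddCommGroup J] [Module F J] (a b : B) : JData.OX B J →+ ((B → J) × J) :=
  (JData.kX F a b : JData.OX B J →ₗ[F] ((B → J) × J)).toAddMonoidHom

include h h1 h2 h4 hs hAB in
/-- `K_{x,x}(x x x x . one)` -/
theorem C4 : AE 6 (fun z => JData.kX F (z 0) (z 1)
      (D.AX (z 2) (D.AX (z 3) (D.AX (z 4) (D.AX (z 5) JData.uX)))))
    (fun z => (4 : F) • V6 D z) := by
  have e1 := AE.lift hAB F (k := 2) (fun y : Fin 2 → B => kXH F (J := J) (y 0) (y 1))
    (A4 h h1 h2 h4 hs)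
  refine AE.trans (AE.of_eq fun z => rfl) (e1.trans ?_)
  have e2 := (L7 hs).smul (-(4/9) : F)
  refine AE.trans (AE.of_eq fun z => ?_) (e2.trans (AE.of_eq fun z => ?_))
  · change JData.kX F (z 0) (z 1) ((-(1/3) : F) • D.eX (W4 D (fun i => z (Fin.natAdd 2 i)))) = _
    rw [map_smul, W4, map_add, map_smul]
    have e5 : JData.kX F (z 0) (z 1) (D.eX (P4 D (fun i => z (Fin.natAdd 2 i)))) = 0 := by
      ext v <;> simp [JData.kX, JData.eX, P4]
    rw [map_add, map_smul, e5, zero_add, smul_smul]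
    have e6 : JData.kX F (z 0) (z 1) (D.eX (K4 D (fun i => z (Fin.natAdd 2 i)))) =
      (0, D.jc (z 0) (z 1) (D.ι (D.act (D.jc (z 2) (z 3) (z 4)) (z 5)))) := rfl
    rw [e6]
    norm_num
  · rw [smul_smul]; norm_num


/-- `p ↦ (0, J(a,b,p))` -/
def jH (D : JData F B J) (a b : B) : ((B → J) × J) →+ ((B → J) × J) where
  toFun p := (0, D.jc a b (D.ι p.2))
  map_zero' := by simp
  map_add' p p' := by simp

include h h1 hs in
/-- `L_x w4` -/
theorem LW : AE 5 (fun z => D.La (z 0) (W4 D ![z 1, z 2, z 3, z 4])) (fun z => (5 : F) • V5 D z) := by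
  refine AE.trans (AE.of_eq fun z => ?_) (((L3 h h1).add ((L4 h h1 hs).smul (4/3 : F))).trans
    (AE.of_eq fun z => ?_))
  · rw [W4, map_add, map_smul]
  · module

include h h1 h2 h3 h4 hs hAB in
/-- `K_{x,x}(x x x x x . one)` -/
theorem C5 : AE 7 (fun z => JData.kX F (z 0) (z 1)
      (D.AX (z 2) (D.AX (z 3) (D.AX (z 4) (D.AX (z 5) (D.AX (z 6) JData.uX))))))
    (fun _ => 0) := by
  have e1 := AE.lift hAB F (k := 3) (fun y : Fin 3 → B =>
    (kXH F (J := J) (y 0) (y 1)).comp (D.AX (y 2)).toAddMonoidHom)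
    (A4 h h1 h2 h4 hs)
  refine AE.trans (AE.of_eq fun z => rfl) (e1.trans ?_)
  have e2 := AE.lift hAB F (k := 2) (fun y : Fin 2 → B => jH D (y 0) (y 1)) (LW h h1 hs)
  have e3 := e2.smul (-(1/3) : F)
  have e4 := (L9 h h1 h2 h3 hs).smul (-(5/3) : F)
  refine AE.trans (AE.of_eq fun z => ?_) (e3.trans ((AE.of_eq fun z => ?_).trans
    (e4.trans (AE.of_eq fun z => ?_))))
  · change JData.kX F (z 0) (z 1) (D.AX (z 2)
      ((-(1/3) : F) • D.eX (W4 D (fun i => z (Fin.natAdd 3 i))))) =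
      (-(1/3) : F) • (0, D.jc (z 0) (z 1) (D.ι (D.La (z 2) (W4 D ![z 3, z 4, z 5, z 6])).2))
    have e5 : (fun i => z (Fin.natAdd 3 i)) = ![z 3, z 4, z 5, z 6] := by
      funext i; fin_cases i <;> rfl
    rw [map_smul, map_smul, e5, ← h4.eX_La]
    · rfl
    · rw [← W4_eq]; exact (D.w4 _).2
  · change (-(1/3) : F) • jH D (z 0) (z 1) ((5 : F) • V5 D (fun i => z (Fin.natAdd 2 i))) = _
    have e6 : jH D (z 0) (z 1) ((5 : F) • V5 D (fun i => z (Fin.natAdd 2 i))) =
      (5 : F) • (0, D.jc (z 0) (z 1) (D.ι (D.fm (D.jc (z 2) (z 3) (z 4)) (z 5) (z 6)))) := by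
      ext v
      · simp [jH]
      · change D.jc (z 0) (z 1) (D.ι ((5 : F) • (V5 D (fun i => z (Fin.natAdd 2 i))).2)) = _
        rw [map_smul, map_smul]
        rfl
    rw [e6, smul_smul]
    norm_num
  · rw [smul_zero]

/-- reduction of the expression in `XSys.D` -/
theorem red {K : ℕ} (o : (Fin K → B) → JData.OX B J) (i0 i1 i2 i3 : Fin K)
    (τ1 τ2 τ3 : Perm (Fin K)) (s1 : (Perm.sign τ1 : ℤ) = 1) (s2 : (Perm.sign τ2 : ℤ) = -1)
    (s3 : (Perm.sign τ3 : ℤ) = -1)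
    (h1 : τ1 i0 = i0 ∧ τ1 i1 = i3 ∧ τ1 i2 = i1 ∧ τ1 i3 = i2)
    (h2 : τ2 i0 = i3 ∧ τ2 i1 = i1 ∧ τ2 i2 = i2 ∧ τ2 i3 = i0)
    (h3 : τ3 i0 = i1 ∧ τ3 i1 = i2 ∧ τ3 i2 = i3 ∧ τ3 i3 = i0)
    (o1 : ∀ z : Fin K → B, o (fun i => z (τ1 i)) = o z)
    (o2 : ∀ z : Fin K → B, o (fun i => z (τ2 i)) = o z)
    (o3 : ∀ z : Fin K → B, o (fun i => z (τ3 i)) = o z) :
    AE K (fun y => D.La (y i0) (D.La (y i3) (JData.kX F (y i1) (y i2) (o y))
          + JData.kX F (y i1) (y i2) (D.AX (y i3) (o y)))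
        - (D.La (y i3) (JData.kX F (y i1) (y i2) (D.AX (y i0) (o y)))
          + JData.kX F (y i1) (y i2) (D.AX (y i3) (D.AX (y i0) (o y)))))
      (fun y => D.La (y i0) (D.La (y i1) (JData.kX F (y i2) (y i3) (o y)))
        + (2 : F) • D.La (y i0) (JData.kX F (y i1) (y i2) (D.AX (y i3) (o y)))
        + JData.kX F (y i0) (y i1) (D.AX (y i2) (D.AX (y i3) (o y)))) := by
  have e1 : AE K (fun y => D.La (y i0) (D.La (y i3) (JData.kX F (y i1) (y i2) (o y))))
      (fun y => D.La (y i0) (D.La (y i1) (JData.kX F (y i2) (y i3) (o y)))) := by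
    apply AE.even τ1 s1
    intro z
    obtain ⟨a, b, c, d⟩ := h1
    simp only [a, b, c, d, o1 z]
  have e2 : AE K (fun y => D.La (y i3) (JData.kX F (y i1) (y i2) (D.AX (y i0) (o y))))
      (fun y => - D.La (y i0) (JData.kX F (y i1) (y i2) (D.AX (y i3) (o y)))) := by
    apply AE.odd (f := fun y => D.La (y i0) (JData.kX F (y i1) (y i2) (D.AX (y i3) (o y)))) τ2 s2
    intro z
    obtain ⟨a, b, c, d⟩ := h2
    simp only [a, b, c, d, o2 z]
  have e3 : AE K (fun y => JData.kX F (y i1) (y i2) (D.AX (y i3) (D.AX (y i0) (o y))))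
      (fun y => - JData.kX F (y i0) (y i1) (D.AX (y i2) (D.AX (y i3) (o y)))) := by
    apply AE.odd (f := fun y => JData.kX F (y i0) (y i1) (D.AX (y i2) (D.AX (y i3) (o y)))) τ3 s3
    intro z
    obtain ⟨a, b, c, d⟩ := h3
    simp only [a, b, c, d, o3 z]
  have e4 := (e1.add (AE.refl (fun y => D.La (y i0) (JData.kX F (y i1) (y i2)
    (D.AX (y i3) (o y)))))).sub (e2.add e3)
  refine AE.trans (AE.of_eq fun z => ?_) (e4.trans (AE.of_eq fun z => ?_))
  · rw [map_add]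
  · module

theorem alt_alt {M G : Type} [AddCommGroup G] {K : ℕ} (f : (Fin K → M) → G) (x : Fin K → M) :
    alt K (fun z => alt K f z) x = (K.factorial : ℤ) • alt K f x := by
  have h1 : ∀ σ : Perm (Fin K), (Perm.sign σ : ℤ) • alt K f (fun i => x (σ i)) = alt K f x := by
    intro σ
    rw [alt_comp, smul_smul]
    rcases Int.units_eq_one_or (Perm.sign σ) with h | h <;> rw [h] <;> simp
  change ∑ σ : Perm (Fin K), (Perm.sign σ : ℤ) • alt K f (fun i => x (σ i)) = _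
  rw [Finset.sum_congr rfl fun σ _ => h1 σ, Finset.sum_const, Finset.card_univ, Fintype.card_perm,
    Fintype.card_fin]
  exact (natCast_zsmul _ _).symm

/-- `j4` and `w4` -/
theorem ae_j4 : AE 4 (fun z => (D.j4 z : (B → J) × J)) (fun z => (-(1/3) : F) • W4 D z) := by
  intro x
  have e1 : ∀ z : Fin 4 → B, (D.j4 z : (B → J) × J) = (-(1/72) : F) • alt 4 (W4 D) z := by
    intro z
    have e2 := map_alt (D.NS.subtype.toAddMonoidHom) D.w4 z
    have e3 : (fun z => D.NS.subtype.toAddMonoidHom (D.w4 z)) = W4 D := by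
      funext z; exact W4_eq z
    rw [e3] at e2
    rw [← e2]
    rfl
  simp only [e1]
  rw [alt_smul, alt_alt, alt_smul, ← Int.cast_smul_eq_zsmul F, smul_smul]
  norm_num [Nat.factorial]


section final

include hAB in
/-- one more `L` in front -/
theorem lift1 {m : ℕ} {f g : (Fin m → B) → (B → J) × J} (e : AE m f g) :
    AE (1 + m) (fun w => D.La (w (Fin.castAdd m 0)) (f (fun i => w (Fin.natAdd 1 i))))
      (fun w => D.La (w (Fin.castAdd m 0)) (g (fun i => w (Fin.natAdd 1 i)))) :=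
  AE.lift hAB F (k := 1) (fun y : Fin 1 → B => LaH D (y 0)) e

include h h1 hs hAB in
/-- `L L (0,J(x,x,x))` -/
theorem LL1 : AE 5 (fun z => D.La (z 0) (D.La (z 1) (0, D.jc (z 2) (z 3) (z 4))))
    (fun z => (4 : F) • V5 D z) := by
  have e1 : AE 5 (fun z => D.La (z 0) (D.La (z 1) (0, D.jc (z 2) (z 3) (z 4))))
      (fun z => D.La (z 0) (P4 D ![z 1, z 2, z 3, z 4] + K4 D ![z 1, z 2, z 3, z 4])) := by
    refine AE.trans (AE.of_eq fun z => ?_) ((lift1 hAB (D := D) (L1 (D := D))).trans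
      (AE.of_eq fun z => ?_))
    · rfl
    · rfl
  refine e1.trans (AE.trans (AE.of_eq fun z => ?_) (((L3 h h1).add (L4 h h1 hs)).trans
    (AE.of_eq fun z => ?_)))
  · rw [map_add]
  · module

include h h1 hs hAB in
/-- `L (0,J(x,x,xx))` -/
theorem LL2 : AE 5 (fun z => D.La (z 0) (0, D.jc (z 1) (z 2) (z 3 * z 4)))
    (fun z => (2 : F) • V5 D z) := by
  refine AE.trans (AE.of_eq fun z => ?_) ((lift1 hAB (D := D) (L2 hs)).trans
    (AE.trans (AE.of_eq fun z => ?_) (((L4 h h1 hs).smul (2/3 : F)).trans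
    (AE.of_eq fun z => ?_))))
  · rfl
  · change D.La (z 0) ((2/3 : F) • K4 D ![z 1, z 2, z 3, z 4]) = _
    rw [map_smul]
  · module

include h h1 hs hAB in
/-- `L j4` -/
theorem LJ1 : AE 5 (fun z => D.La (z 0) (D.j4 ![z 1, z 2, z 3, z 4]))
    (fun z => (-(5/3) : F) • V5 D z) := by
  refine AE.trans (AE.of_eq fun z => ?_) ((lift1 hAB (D := D) (ae_j4 (D := D))).trans
    (AE.trans (AE.of_eq fun z => ?_) (((LW h h1 hs).smul (-(1/3) : F)).trans
    (AE.of_eq fun z => ?_))))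
  · change D.La (z 0) (D.j4 ![z 1, z 2, z 3, z 4]) = D.La (z 0) (D.j4 (fun i => z (Fin.natAdd 1 i)))
    congr 3
  · change D.La (z 0) ((-(1/3) : F) • W4 D ![z 1, z 2, z 3, z 4]) = _
    rw [map_smul]
  · module

include h h1 h2 hs hAB in
/-- `L L j4` -/
theorem LJ2 : AE 6 (fun z => D.La (z 0) (D.La (z 1) (D.j4 ![z 2, z 3, z 4, z 5])))
    (fun z => (-(5/3) : F) • V6 D z) := by
  refine AE.trans (AE.of_eq fun z => ?_) ((lift1 hAB (D := D) (LJ1 h h1 hs hAB)).trans
    (AE.trans (AE.of_eq fun z => ?_) (((L6 h h1 h2).smul (-(5/3) : F)))))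
  · rfl
  · change D.La (z 0) ((-(5/3) : F) • V5 D ![z 1, z 2, z 3, z 4, z 5]) = _
    rw [map_smul]

include h h1 h2 hs hAB in
/-- `L L L j4` -/
theorem LJ3 : AE 7 (fun z => D.La (z 0) (D.La (z 1) (D.La (z 2) (D.j4 ![z 3, z 4, z 5, z 6]))))
    (fun z => (-(5/3) : F) • D.La (z 0) (V6 D ![z 1, z 2, z 3, z 4, z 5, z 6])) := by
  refine AE.trans (AE.of_eq fun z => ?_) ((lift1 hAB (D := D) (LJ2 h h1 h2 hs hAB)).trans
    (AE.of_eq fun z => ?_))
  · rfl
  · change D.La (z 0) ((-(5/3) : F) • V6 D ![z 1, z 2, z 3, z 4, z 5, z 6]) = _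
    rw [map_smul]

include h h1 h4 hs in
theorem D0 : AE 4 (fun y =>
        D.La (y 0) (D.La (y 3) (JData.kX F (y 1) (y 2) JData.uX)
          + JData.kX F (y 1) (y 2) (D.AX (y 3) JData.uX))
        - (D.La (y 3) (JData.kX F (y 1) (y 2) (D.AX (y 0) JData.uX))
          + JData.kX F (y 1) (y 2) (D.AX (y 3) (D.AX (y 0) JData.uX))))
      (fun y => (-6 : F) • (D.j4 y : (B → J) × J)) := by
  refine AE.trans (red (D := D) (K := 4) (fun _ => JData.uX) 0 1 2 3
    (swap 1 3 * swap 3 2) (swap 0 3) (finRotate 4)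
    (by simp [Perm.sign_swap']) (by rw [Perm.sign_swap (by decide)]; rfl) (by rw [sign_finRotate]; norm_num)
    (by decide) (by decide) (by decide) (fun _ => rfl) (fun _ => rfl) (fun _ => rfl)) ?_
  have e1 := (L1 (D := D)).smul (2 : F)
  have e2 := e1.add (L2 hs)
  refine AE.trans (AE.of_eq fun z => ?_) (e2.trans (AE.trans (AE.of_eq fun z => ?_)
    ((ae_j4 (D := D)).smul (-6 : F)).symm))
  · rw [kX_u, map_zero, map_zero, zero_add, c1 h4, c2 h4]
  · rw [W4]; module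

include h h1 h4 hs hAB in
theorem D1 : AE 5 (fun y =>
        D.La (y 0) (D.La (y 3) (JData.kX F (y 1) (y 2) (D.AX (y 4) JData.uX))
          + JData.kX F (y 1) (y 2) (D.AX (y 3) (D.AX (y 4) JData.uX)))
        - (D.La (y 3) (JData.kX F (y 1) (y 2) (D.AX (y 0) (D.AX (y 4) JData.uX)))
          + JData.kX F (y 1) (y 2) (D.AX (y 3) (D.AX (y 0) (D.AX (y 4) JData.uX)))))
      (fun y => (-6 : F) • D.La (y 0) (D.j4 ![y 1, y 2, y 3, y 4])) := by
  refine AE.trans (red (D := D) (K := 5) (fun z => D.AX (z 4) JData.uX) 0 1 2 3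
    (swap 1 3 * swap 3 2) (swap 0 3)
    (swap 0 1 * swap 1 2 * swap 2 3)
    (by simp [Perm.sign_swap']) (by rw [Perm.sign_swap (by decide)]; rfl) (by simp [Perm.sign_swap'])
    (by decide) (by decide) (by decide) (fun z => by simp only [(by decide : (swap 1 3 * swap 3 2 : Perm (Fin 5)) 4 = 4)]) (fun z => by simp only [(by decide : (swap 0 3 : Perm (Fin 5)) 4 = 4)]) (fun z => by simp only [(by decide : (swap 0 1 * swap 1 2 * swap 2 3 : Perm (Fin 5)) 4 = 4)])) ?_
  have e2 := ((LL1 h h1 hs hAB).add ((LL2 h h1 hs hAB).smul (2 : F))).add (C3 h h4 hs)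
  refine AE.trans (AE.of_eq fun z => ?_) (e2.trans (AE.trans (AE.of_eq fun z => ?_)
    ((LJ1 h h1 hs hAB).smul (-6 : F)).symm))
  · rw [c1 h4, c2 h4]
  · module

include h h1 h2 h4 hs hAB in
theorem D2 : AE 6 (fun y =>
        D.La (y 0) (D.La (y 3) (JData.kX F (y 1) (y 2) (D.AX (y 4) (D.AX (y 5) JData.uX)))
          + JData.kX F (y 1) (y 2) (D.AX (y 3) (D.AX (y 4) (D.AX (y 5) JData.uX))))
        - (D.La (y 3) (JData.kX F (y 1) (y 2) (D.AX (y 0) (D.AX (y 4) (D.AX (y 5) JData.uX))))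
          + JData.kX F (y 1) (y 2) (D.AX (y 3) (D.AX (y 0) (D.AX (y 4) (D.AX (y 5) JData.uX))))))
      (fun y => (-6 : F) • D.La (y 0) (D.La (y 1) (D.j4 ![y 2, y 3, y 4, y 5]))) := by
  refine AE.trans (red (D := D) (K := 6) (fun z => D.AX (z 4) (D.AX (z 5) JData.uX)) 0 1 2 3
    (swap 1 3 * swap 3 2) (swap 0 3)
    (swap 0 1 * swap 1 2 * swap 2 3)
    (by simp [Perm.sign_swap']) (by rw [Perm.sign_swap (by decide)]; rfl) (by simp [Perm.sign_swap'])
    (by decide) (by decide) (by decide) (fun z => by simp only [(by decide : (swap 1 3 * swap 3 2 : Perm (Fin 6)) 4 = 4), (by decide : (swap 1 3 * swap 3 2 : Perm (Fin 6)) 5 = 5)]) (fun z => by simp only [(by decide : (swap 0 3 : Perm (Fin 6)) 4 = 4), (by decide : (swap 0 3 : Perm (Fin 6)) 5 = 5)]) (fun z => by simp only [(by decide : (swap 0 1 * swap 1 2 * swap 2 3 : Perm (Fin 6)) 4 = 4), (by decide : (swap 0 1 * swap 1 2 * swap 2 3 : Perm (Fin 6)) 5 = 5)])) ?_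
  have e1 : AE 6 (fun z => D.La (z 0) (D.La (z 1) (0, D.jc (z 2) (z 3) (z 4 * z 5))))
      (fun z => (2 : F) • V6 D z) := by
    refine AE.trans (AE.of_eq fun z => ?_) ((lift1 hAB (D := D) (LL2 h h1 hs hAB)).trans
      (AE.trans (AE.of_eq fun z => ?_) ((L6 h h1 h2).smul (2 : F))))
    · rfl
    · change D.La (z 0) ((2 : F) • V5 D ![z 1, z 2, z 3, z 4, z 5]) = _
      rw [map_smul]
  have e2 : AE 6 (fun z => D.La (z 0) (JData.kX F (z 1) (z 2)
        (D.AX (z 3) (D.AX (z 4) (D.AX (z 5) JData.uX)))))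
      (fun z => (2 : F) • V6 D z) := by
    refine AE.trans (AE.of_eq fun z => ?_) ((lift1 hAB (D := D) (C3 h h4 hs)).trans
      (AE.trans (AE.of_eq fun z => ?_) ((L6 h h1 h2).smul (2 : F))))
    · rfl
    · change D.La (z 0) ((2 : F) • V5 D ![z 1, z 2, z 3, z 4, z 5]) = _
      rw [map_smul]
  have e3 := (e1.add (e2.smul (2 : F))).add (C4 h h1 h2 h4 hs hAB)
  refine AE.trans (AE.of_eq fun z => ?_) (e3.trans (AE.trans (AE.of_eq fun z => ?_)
    ((LJ2 h h1 h2 hs hAB).smul (-6 : F)).symm))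
  · rw [c2 h4]
  · module

include h h1 h2 h3 h4 hs hAB in
theorem D3 : AE 7 (fun y =>
        D.La (y 0) (D.La (y 3) (JData.kX F (y 1) (y 2) (D.AX (y 4) (D.AX (y 5) (D.AX (y 6) JData.uX))))
          + JData.kX F (y 1) (y 2) (D.AX (y 3) (D.AX (y 4) (D.AX (y 5) (D.AX (y 6) JData.uX)))))
        - (D.La (y 3) (JData.kX F (y 1) (y 2) (D.AX (y 0) (D.AX (y 4) (D.AX (y 5) (D.AX (y 6) JData.uX)))))
          + JData.kX F (y 1) (y 2)
              (D.AX (y 3) (D.AX (y 0) (D.AX (y 4) (D.AX (y 5) (D.AX (y 6) JData.uX)))))))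
      (fun y => (-6 : F) • D.La (y 0) (D.La (y 1) (D.La (y 2) (D.j4 ![y 3, y 4, y 5, y 6])))) := by
  refine AE.trans (red (D := D) (K := 7) (fun z => D.AX (z 4) (D.AX (z 5) (D.AX (z 6) JData.uX)))
    0 1 2 3
    (swap 1 3 * swap 3 2) (swap 0 3)
    (swap 0 1 * swap 1 2 * swap 2 3)
    (by simp [Perm.sign_swap']) (by rw [Perm.sign_swap (by decide)]; rfl) (by simp [Perm.sign_swap'])
    (by decide) (by decide) (by decide) (fun z => by simp only [(by decide : (swap 1 3 * swap 3 2 : Perm (Fin 7)) 4 = 4), (by decide : (swap 1 3 * swap 3 2 : Perm (Fin 7)) 5 = 5), (by decide : (swap 1 3 * swap 3 2 : Perm (Fin 7)) 6 = 6)]) (fun z => by simp only [(by decide : (swap 0 3 : Perm (Fin 7)) 4 = 4), (by decide : (swap 0 3 : Perm (Fin 7)) 5 = 5), (by decide : (swap 0 3 : Perm (Fin 7)) 6 = 6)]) (fun z => by simp only [(by decide : (swap 0 1 * swap 1 2 * swap 2 3 : Perm (Fin 7)) 4 = 4), (by decide : (swap 0 1 * swap 1 2 * swap 2 3 : Perm (Fin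 7)) 5 = 5), (by decide : (swap 0 1 * swap 1 2 * swap 2 3 : Perm (Fin 7)) 6 = 6)])) ?_
  have e0 : AE 6 (fun z => D.La (z 0) (JData.kX F (z 1) (z 2)
        (D.AX (z 3) (D.AX (z 4) (D.AX (z 5) JData.uX)))))
      (fun z => (2 : F) • V6 D z) := by
    refine AE.trans (AE.of_eq fun z => ?_) ((lift1 hAB (D := D) (C3 h h4 hs)).trans
      (AE.trans (AE.of_eq fun z => ?_) ((L6 h h1 h2).smul (2 : F))))
    · rfl
    · change D.La (z 0) ((2 : F) • V5 D ![z 1, z 2, z 3, z 4, z 5]) = _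
      rw [map_smul]
  have e1 : AE 7 (fun z => D.La (z 0) (D.La (z 1) (JData.kX F (z 2) (z 3)
        (D.AX (z 4) (D.AX (z 5) (D.AX (z 6) JData.uX))))))
      (fun z => (2 : F) • D.La (z 0) (V6 D ![z 1, z 2, z 3, z 4, z 5, z 6])) := by
    refine AE.trans (AE.of_eq fun z => ?_) ((lift1 hAB (D := D) e0).trans
      (AE.of_eq fun z => ?_))
    · rfl
    · change D.La (z 0) ((2 : F) • V6 D ![z 1, z 2, z 3, z 4, z 5, z 6]) = _
      rw [map_smul]
  have e2 : AE 7 (fun z => D.La (z 0) (JData.kX F (z 1) (z 2)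
        (D.AX (z 3) (D.AX (z 4) (D.AX (z 5) (D.AX (z 6) JData.uX))))))
      (fun z => (4 : F) • D.La (z 0) (V6 D ![z 1, z 2, z 3, z 4, z 5, z 6])) := by
    refine AE.trans (AE.of_eq fun z => ?_) ((lift1 hAB (D := D) (C4 h h1 h2 h4 hs hAB)).trans
      (AE.of_eq fun z => ?_))
    · rfl
    · change D.La (z 0) ((4 : F) • V6 D ![z 1, z 2, z 3, z 4, z 5, z 6]) = _
      rw [map_smul]
  have e3 := (e1.add (e2.smul (2 : F))).add (C5 h h1 h2 h3 h4 hs hAB)
  refine e3.trans (AE.trans (AE.of_eq fun z => ?_)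
    ((LJ3 h h1 h2 hs hAB).smul (-6 : F)).symm)
  module

theorem alt_smulP {K : ℕ} (c : F) (f : (Fin K → B) → (B → J) × J) (x : Fin K → B) :
    alt K (fun z => c • f z) x = c • alt K f x := alt_smul c f x

theorem fin_eq {K : ℕ} {c : F} {f g : (Fin K → B) → (B → J) × J}
    (e : AE K f (fun z => c • g z)) (x : Fin K → B) : alt K f x = c • alt K g x :=
  (e x).trans (alt_smulP c g x)

end final

end DD

open DD

theorem d_proof (hAB : Stmt_AltBlock) : Stmt_D := by
  intro F B J _ _ _ _ _ _ _ _ D h h1 h2 h3 h4 hs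
  exact ⟨fin_eq (D0 h h1 h4 hs), fin_eq (D1 h h1 h4 hs hAB), fin_eq (D2 h h1 h2 h4 hs hAB),
    fin_eq (D3 h h1 h2 h3 h4 hs hAB)⟩

end Pool.Agent.MX
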