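import Pool.Agent.MAL.Alt
import Pool.Agent.MAL.TStar

set_option autoImplicit false

/-! Theorem X (extension theorem for identities of squares of Malcev algebras): definitions. -/

namespace Pool.Agent.MX

open Equiv
open Pool.Agent.MAL (alt IsMalcev)

/-- the Jacobian -/
def jac {B : Type} [NonUnitalNonAssocRing B] (a b c : B) : B :=
  (a * b) * c + (b * c) * a + (c * a) * b

/-- the operations of a `J`-cp algebra -/
structure JData (F B J : Type) [Field F] [NonUnitalNonAssocRing B] [Module F B]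
    [AddCommGroup J] [Module F J] where
  /-- the embedding of the ideal -/
  ι : J →ₗ[F] B
  /-- `j * b` -/
  act : J →ₗ[F] B →ₗ[F] J
  /-- `J(a,b,c)` -/
  jc : B →ₗ[F] B →ₗ[F] B →ₗ[F] J
  /-- `⟨j,a⟩ v` -/
  fm : J →ₗ[F] B →ₗ[F] B →ₗ[F] J

namespace JData

variable {F B J : Type} [Field F] [NonUnitalNonAssocRing B] [Module F B]
    [AddCommGroup J] [Module F J] (D : JData F B J)

/-- `⟨a,b⟩ j` -/
def q (a b : B) : J →ₗ[F] J where
  toFun j := D.fm j a b - D.act (D.act j b) a + (1/3 : F) • D.jc a (D.ι j) b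
  map_add' x y := by
    simp only [map_add, LinearMap.add_apply, smul_add]; abel
  map_smul' c x := by
    simp only [map_smul, LinearMap.smul_apply, RingHom.id_apply, smul_add, smul_sub]
    rw [smul_comm (1/3 : F) c]

theorem q_apply (a b : B) (j : J) :
    D.q a b j = D.fm j a b - D.act (D.act j b) a + (1/3 : F) • D.jc a (D.ι j) b := rfl

/-- the summand of the degree five polynomial `216 ⟨J(x0,x1,x2),x3⟩ v` -/
def t5 (v : B) (x : Fin 4 → B) : J :=
  (5 : F) • D.act (D.act (D.jc (x 0) (x 1) (x 2)) v) (x 3)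
    + (9 : F) • D.jc (x 0 * x 1) (x 2) (v * x 3)
    + (3 : F) • D.jc ((v * x 0) * x 1) (x 2) (x 3)

/-- the axioms of a `J`-cp algebra -/
structure IsJCP (D : JData F B J) : Prop where
  mal : IsMalcev B
  ι_inj : Function.Injective D.ι
  ι_act : ∀ j b, D.ι (D.act j b) = D.ι j * b
  ι_jc : ∀ a b c, D.ι (D.jc a b c) = jac a b c
  span_jc : ∀ P : Submodule F J, (∀ a b c, D.jc a b c ∈ P) → P = ⊤
  fm_mul : ∀ j a b c, D.fm j a (b * c) = D.act (D.fm j a b) c
  fm_act : ∀ j a b, D.fm (D.act j a) b = D.fm j (a * b)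
  fm_jc : ∀ (x : Fin 4 → B) v,
    (216 : F) • D.fm (D.jc (x 0) (x 1) (x 2)) (x 3) v = alt 4 (D.t5 v) x
  q_symm : ∀ a b, D.q a b = D.q b a
  q_act : ∀ a b j c, D.q a b (D.act j c) = D.act (D.q a b j) c
  g3 : ∀ a b c u v, D.jc (a * (b * c)) u v - D.q a c (D.jc b u v) + D.q a b (D.jc c u v)
    + (1/3 : F) • D.jc (jac a b c) u v = 0

/-- identities in one odd variable -/
structure SupId (D : JData F B J) : Prop where
  i5 : ∀ x : Fin 4 → B, alt 4 (fun x => (3 : F) • D.jc (x 0) (x 1) (x 2 * x 3)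
    - (2 : F) • D.act (D.jc (x 0) (x 1) (x 2)) (x 3)) x = 0
  i3 : ∀ x : Fin 5 → B, alt 5 (fun x => D.act (D.act (D.jc (x 0) (x 1) (x 2)) (x 3)) (x 4)
    + (3 : F) • D.fm (D.jc (x 0) (x 1) (x 2)) (x 3) (x 4)) x = 0
  i6 : ∀ x : Fin 5 → B, alt 5 (fun x => D.jc (x 0) (x 1) (x 2 * (x 3 * x 4))
    - (2 : F) • D.fm (D.jc (x 0) (x 1) (x 2)) (x 3) (x 4)) x = 0
  i4 : ∀ (x : Fin 5 → B) v,
    alt 5 (fun x => D.fm (D.jc (x 0) (x 1) (x 2)) (x 3 * x 4) v) x = 0
  i8 : ∀ x : Fin 6 → B,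
    alt 6 (fun x => D.jc (x 0) (x 1) (D.ι (D.act (D.jc (x 2) (x 3) (x 4)) (x 5)))
    + (9 : F) • D.fm (D.jc (x 0) (x 1) (x 2)) (x 3) (x 4 * x 5)) x = 0
  i11 : ∀ x : Fin 7 → B,
    alt 7 (fun x => D.fm (D.jc (x 0) (x 1) (x 2)) (x 3) ((x 4 * x 5) * x 6)) x = 0
  r6 : ∀ (x : Fin 5 → B) v, alt 5 (fun x =>
    (3 : F) • D.act (D.fm (D.jc (x 0) (x 1) (x 2)) (x 3) (x 4)) v
    + (2 : F) • D.fm (D.jc v (x 0) (x 1)) (x 2) (x 3 * x 4)
    + D.fm (D.jc (x 0) (x 1) (x 2)) (x 3) (v * x 4)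
    - (4 : F) • D.act (D.q v (x 0) (D.jc (x 1) (x 2) (x 3))) (x 4)) x = 0

/-- functions `B → J` of the form `v ↦ ∑ ⟨j,a⟩ v` -/
def ZS : Submodule F (B → J) :=
  Submodule.span F (Set.range fun p : J × B => fun v => D.fm p.1 p.2 v)

/-- the module `Z × J` -/
def NS : Submodule F ((B → J) × J) := D.ZS.prod ⊤

/-- the operators `L_b` -/
def La (b : B) : ((B → J) × J) →ₗ[F] ((B → J) × J) where
  toFun p := (fun v => -(D.fm p.2 b v), p.1 b - D.act p.2 b)
  map_add' p p' := by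
    ext v
    · simp only [Prod.fst_add, Prod.snd_add, map_add, LinearMap.add_apply, Pi.add_apply]; abel
    · simp only [Prod.fst_add, Prod.snd_add, map_add, LinearMap.add_apply, Pi.add_apply]; abel
  map_smul' c p := by
    ext v
    · simp
    · simp [smul_sub]

theorem La_apply (b : B) (s : B → J) (j : J) :
    D.La b (s, j) = (fun v => -(D.fm j b v), s b - D.act j b) := rfl

theorem La_mem (b : B) (p : (B → J) × J) : D.La b p ∈ D.NS := by
  refine ⟨?_, trivial⟩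
  exact D.ZS.neg_mem (Submodule.subset_span ⟨(p.2, b), rfl⟩)

/-- the operators `L_b` on `Z × J` -/
def L (b : B) : D.NS →ₗ[F] D.NS := ((D.La b).comp D.NS.subtype).codRestrict D.NS fun _ => D.La_mem b _

/-- the summand of `j4` -/
def w4 (x : Fin 4 → B) : D.NS :=
  ⟨(fun v => D.fm (D.jc (x 0) (x 1) (x 2)) (x 3) v, (4/3 : F) • D.act (D.jc (x 0) (x 1) (x 2)) (x 3)),
    ⟨Submodule.subset_span ⟨(D.jc (x 0) (x 1) (x 2), x 3), rfl⟩, trivial⟩⟩

/-- the alternating map `j4` -/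
def j4 (x : Fin 4 → B) : D.NS := (-(1/72) : F) • alt 4 D.w4 x

variable (F B J) in
/-- the space of data `(r,m,f,κ)` of an octonion `o`:
`r j = Re(o) j`, `m j = j Im(o)`, `f j v = ⟨j,o⟩ v`, `κ a b = J(a,b,o)` -/
abbrev OX : Type := (J → J) × (J → J) × (J → B → J) × (B → B → J)

/-- left multiplication by `x` -/
def AX (x : B) : OX B J →ₗ[F] OX B J where
  toFun o := (fun j => -(o.2.2.1 j x - o.2.1 (D.act j x) + (1/3 : F) • o.2.2.2 (D.ι j) x),
    fun j => o.1 (D.act j x) + o.2.1 (D.act j x) - D.act (o.2.1 j) x - o.2.2.2 (D.ι j) x,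
    fun j v => o.1 (D.fm j x v) + o.2.2.1 (D.act j x) v,
    fun a b => o.1 (D.jc a b x) + (1/3 : F) • (D.act (o.2.2.2 a b) x - o.2.1 (D.jc a b x)
      - (2 : F) • D.act (o.2.2.2 b x) a + (2 : F) • D.act (o.2.2.2 a x) b))
  map_add' o o' := by
    refine Prod.ext ?_ (Prod.ext ?_ (Prod.ext ?_ ?_)) <;> ext <;>
      simp only [Prod.fst_add, Prod.snd_add, map_add, LinearMap.add_apply, Pi.add_apply] <;> module
  map_smul' c o := by
    refine Prod.ext ?_ (Prod.ext ?_ (Prod.ext ?_ ?_)) <;> ext <;>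
      simp only [Prod.smul_fst, Prod.smul_snd, map_smul, LinearMap.smul_apply, Pi.smul_apply,
        RingHom.id_apply] <;> module

/-- multiplication by `⟨a,b⟩` -/
def qX (a b : B) : OX B J →ₗ[F] OX B J where
  toFun o := (fun j => D.q a b (o.1 j), fun j => D.q a b (o.2.1 j),
    fun j v => D.q a b (o.2.2.1 j v), fun u v => D.q a b (o.2.2.2 u v))
  map_add' o o' := by
    refine Prod.ext ?_ (Prod.ext ?_ (Prod.ext ?_ ?_)) <;> ext <;>
      simp only [Prod.fst_add, Prod.snd_add, map_add, Pi.add_apply]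
  map_smul' c o := by
    refine Prod.ext ?_ (Prod.ext ?_ (Prod.ext ?_ ?_)) <;> ext <;>
      simp only [Prod.smul_fst, Prod.smul_snd, map_smul, Pi.smul_apply, RingHom.id_apply]

/-- the unit -/
def uX : OX B J := (fun j => j, 0, 0, 0)

/-- the element `b` -/
def bX (b : B) : OX B J :=
  (0, fun j => D.act j b, fun j v => D.fm j b v, fun u v => D.jc u v b)

variable (F) in
/-- the lift of `J(a,b,o)` to `Z × J` -/
def kX (a b : B) : OX B J →ₗ[F] ((B → J) × J) where
  toFun o := (0, o.2.2.2 a b)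
  map_add' o o' := by simp
  map_smul' c o := by simp

variable (F) in
/-- the lift of `j ∘ o` to `Z × J` -/
def mX (j : J) : OX B J →ₗ[F] ((B → J) × J) where
  toFun o := (-(o.2.2.1 j), o.1 j + o.2.1 j)
  map_add' o o' := by
    refine Prod.ext ?_ ?_
    · simp only [Prod.fst_add, Prod.snd_add, Pi.add_apply, neg_add]
    · simp only [Prod.fst_add, Prod.snd_add, Pi.add_apply]; abel
  map_smul' c o := by
    refine Prod.ext ?_ ?_
    · simp only [Prod.smul_fst, Prod.smul_snd, Pi.smul_apply, RingHom.id_apply, smul_neg]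
    · simp only [Prod.smul_fst, Prod.smul_snd, Pi.smul_apply, RingHom.id_apply, smul_add]

/-- the space of octonions -/
def OS : Submodule F (OX B J) :=
  sInf {P | (uX : OX B J) ∈ P ∧ (∀ b, D.bX b ∈ P) ∧ ∀ a b o, o ∈ P → D.qX a b o ∈ P}

/-- the map from `Z × J` to the octonions -/
def eX : ((B → J) × J) →ₗ[F] OX B J where
  toFun p := (fun j => p.1 (D.ι j), fun j => D.act j (D.ι p.2), fun j v => D.fm j (D.ι p.2) v,
    fun a b => D.jc a b (D.ι p.2))
  map_add' o o' := by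
    refine Prod.ext ?_ (Prod.ext ?_ (Prod.ext ?_ ?_)) <;> ext <;>
      simp only [Prod.fst_add, Prod.snd_add, map_add, LinearMap.add_apply, Pi.add_apply]
  map_smul' c o := by
    refine Prod.ext ?_ (Prod.ext ?_ (Prod.ext ?_ ?_)) <;> ext <;>
      simp only [Prod.smul_fst, Prod.smul_snd, map_smul, LinearMap.smul_apply, Pi.smul_apply,
        RingHom.id_apply]

end JData

end Pool.Agent.MX
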