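import Pool.Agent.MX.Defs

set_option autoImplicit false

/-! Theorem X: lists of facts about `J`-cp algebras (statements only). -/

namespace Pool.Agent.MX

namespace JData

variable {F B J : Type} [Field F] [NonUnitalNonAssocRing B] [Module F B]
    [AddCommGroup J] [Module F J]

/-- elementary facts -/
structure Facts1 (D : JData F B J) : Prop where
  anti : ∀ a b : B, a * b = -(b * a)
  jc_swap : ∀ a b c, D.jc a b c = - D.jc b a c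
  jc_cyc : ∀ a b c, D.jc a b c = D.jc b c a
  act_ι : ∀ j k, D.act j (D.ι k) = - D.act k (D.ι j)
  jc_ι : ∀ j a b, D.jc (D.ι j) a b = D.act (D.act j a) b - D.act j (a * b) - D.act (D.act j b) a
  m4a : ∀ w x y z, (3 : F) • D.jc (w * x) y z = D.act (D.jc x y z) w - D.act (D.jc y z w) x
    - (2 : F) • D.act (D.jc z w x) y + (2 : F) • D.act (D.jc w x y) z
  m4b : ∀ x y z a, (-2 : F) • D.act (D.jc x y z) a
    = D.jc a x (y * z) + D.jc a y (z * x) + D.jc a z (x * y)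
  fm_alt : ∀ a b c d, D.fm (D.jc a b c) d = - D.fm (D.jc a b d) c
  fm_sub : ∀ j a b, D.fm j a b - D.fm j b a = D.act (D.act j b) a - D.act (D.act j a) b
    - (2/3 : F) • D.jc a (D.ι j) b
  fm_eq : ∀ j a b, D.fm j a b = D.q a b j + D.act (D.act j b) a - (1/3 : F) • D.jc a (D.ι j) b

/-- the main formal consequences of the axioms -/
structure Facts2 (D : JData F B J) : Prop where
  fm_sym : ∀ j k, D.fm j (D.ι k) = D.fm k (D.ι j)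
  q_fm : ∀ j a k, D.fm j a (D.ι k) = D.q (D.ι j) a k
  q_jcι : ∀ a b j u v, D.jc u v (D.ι (D.q a b j)) = D.q a b (D.jc u v (D.ι j))
  g1 : ∀ j a b c, D.act j (a * (b * c)) - D.q a c (D.act j b) + D.q a b (D.act j c)
    + (1/3 : F) • D.act j (jac a b c) = 0
  sg : ∀ j d a b c, D.fm j d (a * (b * c)) - D.q a c (D.fm j d b) + D.q a b (D.fm j d c)
    + (1/3 : F) • D.fm j d (jac a b c) = 0
  fg : ∀ j v a b c, D.fm j (a * (b * c)) v - D.q a c (D.fm j b v) + D.q a b (D.fm j c v)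
    + (1/3 : F) • D.fm j (jac a b c) v = 0
  p5 : ∀ j a b c v, D.fm (D.fm j a b) c v = D.q b c (D.fm j a v)
  qform : ∀ a b j c v, D.fm (D.q a b j) c v = D.q a b (D.fm j c v)
  q_comm : ∀ a b c d j, D.q a b (D.q c d j) = D.q c d (D.q a b j)
  q_mul : ∀ a b c, D.q (a * b) c = D.q a (b * c)

/-- facts about `Z` -/
structure Facts3 (D : JData F B J) : Prop where
  z_add : ∀ s ∈ D.ZS, ∀ a b, s (a + b) = s a + s b
  z_smul : ∀ s ∈ D.ZS, ∀ (c : F) a, s (c • a) = c • s a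
  z_mul : ∀ s ∈ D.ZS, ∀ a b, s (a * b) = D.act (s a) b
  z_q : ∀ s ∈ D.ZS, ∀ a b, (fun v => D.q a b (s v)) ∈ D.ZS
  z_p5 : ∀ s ∈ D.ZS, ∀ b c v, D.fm (s b) c v = D.q b c (s v)
  z_comm : ∀ s ∈ D.ZS, ∀ t ∈ D.ZS, ∀ b, s (D.ι (t b)) = t (D.ι (s b))
  z_jc : ∀ s ∈ D.ZS, ∀ a b c, D.jc a b (D.ι (s c)) = s (jac a b c)
  z_act : ∀ s ∈ D.ZS, ∀ j b, D.act j (D.ι (s b)) = D.act (s (D.ι j)) b
  z_fm : ∀ s ∈ D.ZS, ∀ j b v, D.fm j (D.ι (s b)) v = s (D.ι (D.fm j b v))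
  z_u : ∀ s ∈ D.ZS, ((fun j => s (D.ι j), 0, 0, 0) : OX B J) ∈ D.OS

/-- facts about the space of octonions -/
structure Facts4 (D : JData F B J) : Prop where
  ind : ∀ P : Submodule F (OX B J), (uX : OX B J) ∈ P → (∀ b, D.bX b ∈ P) →
    (∀ a b o, o ∈ P → D.qX a b o ∈ P) → D.OS ≤ P
  uX_mem : (uX : OX B J) ∈ D.OS
  bX_mem : ∀ b, D.bX b ∈ D.OS
  qX_mem : ∀ a b o, o ∈ D.OS → D.qX a b o ∈ D.OS
  bX_add : ∀ a b, D.bX (a + b) = D.bX a + D.bX b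
  bX_smul : ∀ (c : F) a, D.bX (c • a) = c • D.bX a
  AX_uX : ∀ a, D.AX a uX = D.bX a
  AX_bX : ∀ a b, D.AX a (D.bX b) = - D.qX a b uX + D.bX (a * b)
  AX_qX : ∀ x a b o, D.AX x (D.qX a b o) = D.qX a b (D.AX x o)
  qX_comm : ∀ a b c d o, D.qX a b (D.qX c d o) = D.qX c d (D.qX a b o)
  bX_g : ∀ a b c, D.bX (a * (b * c)) = D.qX a c (D.bX b) - D.qX a b (D.bX c)
    - (1/3 : F) • D.bX (jac a b c)
  bX_qι : ∀ a b j, D.bX (D.ι (D.q a b j)) = D.qX a b (D.bX (D.ι j))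
  AX_mem : ∀ x o, o ∈ D.OS → D.AX x o ∈ D.OS
  AX_add : ∀ a b o, o ∈ D.OS → D.AX (a + b) o = D.AX a o + D.AX b o
  AX_smul : ∀ (c : F) a o, o ∈ D.OS → D.AX (c • a) o = c • D.AX a o
  AX_clif : ∀ a b o, o ∈ D.OS → D.AX a (D.AX b o) + D.AX b (D.AX a o) = (-2 : F) • D.qX a b o
  AX_mul : ∀ a b o, o ∈ D.OS → D.AX (a * b) o =
    (1/2 : F) • (D.AX a (D.AX b o) - D.AX b (D.AX a o)) + (2/3 : F) • D.bX (D.ι (o.2.2.2 a b))
  κ_add : ∀ a b c o, o ∈ D.OS → o.2.2.2 (a + b) c = o.2.2.2 a c + o.2.2.2 b c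
  κ_smul : ∀ (c : F) a b o, o ∈ D.OS → o.2.2.2 (c • a) b = c • o.2.2.2 a b
  κ_self : ∀ a o, o ∈ D.OS → o.2.2.2 a a = 0
  κ_A : ∀ a b o, o ∈ D.OS → (D.AX b o).2.2.2 a b = D.act (o.2.2.2 a b) b
  fm_κ : ∀ a b o, o ∈ D.OS → D.fm (o.2.2.2 a b) b = 0
  rm_add : ∀ j k o, o ∈ D.OS → o.1 (j + k) = o.1 j + o.1 k ∧ o.2.1 (j + k) = o.2.1 j + o.2.1 k ∧
    o.2.2.1 (j + k) = o.2.2.1 j + o.2.2.1 k
  rm_smul : ∀ (c : F) j o, o ∈ D.OS → o.1 (c • j) = c • o.1 j ∧ o.2.1 (c • j) = c • o.2.1 j ∧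
    o.2.2.1 (c • j) = c • o.2.2.1 j
  f_mem : ∀ j o, o ∈ D.OS → o.2.2.1 j ∈ D.ZS
  eX_mem : ∀ p, p ∈ D.NS → D.eX p ∈ D.OS
  eX_La : ∀ b p, p ∈ D.NS → D.eX (D.La b p) = D.AX b (D.eX p)

/-- the remaining facts which are needed for `XSys` -/
structure Facts5 (D : JData F B J) : Prop where
  La_clif : ∀ a b p, p ∈ D.NS → D.La a (D.La b p) + D.La b (D.La a p) =
    (-2 : F) • (fun v => D.q a b (p.1 v), D.q a b p.2)
  La_q : ∀ a b c (p : (B → J) × J),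
    ((fun v => D.q a b ((D.La c p).1 v), D.q a b (D.La c p).2) : (B → J) × J) =
    D.La c (fun v => D.q a b (p.1 v), D.q a b p.2)
  r1 : ∀ a b p, p ∈ D.NS → D.La (a * b) p =
    (1/2 : F) • (D.La a (D.La b p) - D.La b (D.La a p)) + (2/3 : F) • kX F a b (D.eX p)
  eX_kX : ∀ a b (o : OX B J), o ∈ D.OS → D.eX (kX F a b o) = D.bX (D.ι (o.2.2.2 a b))
  r3 : ∀ a b c o, o ∈ D.OS → D.La a (kX F b c o) - kX F b c (D.AX a o)
    + (2 : F) • kX F a (b * c) o + mX F (D.jc a b c) o = 0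
  r4 : ∀ j o, o ∈ D.OS → D.eX (mX F j o) = D.AX (D.ι j) o
  r4' : ∀ j p, p ∈ D.NS → mX F j (D.eX p) = D.La (D.ι j) p
  r5 : ∀ j b o, o ∈ D.OS → mX F (D.act j b) o =
    (1/2 : F) • (mX F j (D.AX b o) - D.La b (mX F j o)) + (2/3 : F) • kX F (D.ι j) b o
  kX_bX : ∀ a b c, kX F a b (D.bX c) = (0, (D.bX a).2.2.2 b c)

end JData

end Pool.Agent.MX
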