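import Pool.Agent.MX.Stmts

set_option autoImplicit false

/-! Theorem X: the elementary facts about `J`-cp algebras. -/

namespace Pool.Agent.MX

open Equiv
open Pool.Agent.MAL (alt IsMalcev alt_comp)

namespace F1

variable {F M : Type} [Field F] [CharZero F] [NonUnitalNonAssocRing M] [Module F M]

theorem m4aM [IsScalarTower F M M] [SMulCommClass F M M] (h : IsMalcev M) (w x y z : M) :
    (3 : F) • jac (w * x) y z = jac x y z * w - jac y z w * x
      - (2 : F) • (jac z w x * y) + (2 : F) • (jac w x y * z) := by
  have e1 := h.sagle F w x z y
  have e2 := h.sagle F w y x z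
  have e3 := h.sagle F w y z x
  have e4 := h.sagle F w z x y
  unfold jac
  simp only [add_mul, h.anti (y * z) (w * x), h.anti z (w * x), h.anti z x, h.anti z w, h.anti y w,
    h.anti z y, h.anti y x, h.anti x w, neg_mul, mul_neg] at e1 e2 e3 e4 ⊢
  linear_combination (norm := module) e1 - e2 + e3 + (2 : F) • e4

theorem m4bM [IsScalarTower F M M] [SMulCommClass F M M] (h : IsMalcev M) (x y z a : M) :
    (-2 : F) • (jac x y z * a) = jac a x (y * z) + jac a y (z * x) + jac a z (x * y) := by
  have e1 := h.sagle F x y z a
  have e2 := h.sagle F x y a z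
  have e3 := h.sagle F x a y z
  unfold jac
  simp only [add_mul, h.anti z x, h.anti x (y * z), h.anti y (x * z), h.anti z (x * y),
    h.anti y a, h.anti (x * z) (a * y), h.anti z a, h.anti x a, h.anti (x * y) (a * z),
    neg_mul, mul_neg, neg_neg] at e1 e2 e3 ⊢
  linear_combination (norm := module) e1 + e2 + e3

end F1

theorem facts1_proof : Stmt_Facts1 := by
  intro F B J _ _ _ _ _ _ _ _ D h
  have anti := fun a b => h.mal.anti a b
  have jsw : ∀ a b c, D.jc a b c = - D.jc b a c := by
    intro a b c
    apply h.ι_inj
    rw [map_neg, h.ι_jc, h.ι_jc]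
    unfold jac
    simp only [anti b a, anti b c, anti a c, neg_mul]
    abel
  have jcy : ∀ a b c, D.jc a b c = D.jc b c a := by
    intro a b c
    apply h.ι_inj
    rw [h.ι_jc, h.ι_jc]
    unfold jac
    abel
  exact
    { anti := anti
      jc_swap := jsw
      jc_cyc := jcy
      act_ι := by
        intro j k
        apply h.ι_inj
        rw [map_neg, h.ι_act, h.ι_act, anti]
      jc_ι := by
        intro j a b
        apply h.ι_inj
        simp only [map_sub, h.ι_act, h.ι_jc]
        unfold jac
        simp only [anti (a * b) (D.ι j), anti b (D.ι j), neg_mul]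
        abel
      m4a := by
        intro w x y z
        apply h.ι_inj
        simp only [map_sub, map_add, map_smul, h.ι_act, h.ι_jc]
        exact F1.m4aM h.mal w x y z
      m4b := by
        intro x y z a
        apply h.ι_inj
        simp only [map_add, map_smul, h.ι_act, h.ι_jc]
        exact F1.m4bM h.mal x y z a
      fm_alt := by
        intro a b c d
        ext v
        have h1 := h.fm_jc ![a, b, c, d] v
        have h2 := h.fm_jc ![a, b, d, c] v
        have h3 : (fun i => (![a, b, c, d] : Fin 4 → B) ((Equiv.swap (2 : Fin 4) 3) i))
            = ![a, b, d, c] := by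
          ext i
          fin_cases i <;> rfl
        have h4 := alt_comp (D.t5 v) ![a, b, c, d] (Equiv.swap (2 : Fin 4) 3)
        rw [h3, Perm.sign_swap (by decide), ← h1] at h4
        rw [h4] at h2
        have h5 : (216 : F) • (D.fm (D.jc a b c) d v + D.fm (D.jc a b d) c v) = 0 := by
          have h6 : (216 : F) • D.fm (D.jc a b d) c v
              = ((-1 : ℤˣ) : ℤ) • ((216 : F) • D.fm (D.jc a b c) d v) := h2
          rw [smul_add, h6]
          simp
        have h7 := (smul_eq_zero.mp h5).resolve_left (by norm_num)
        rw [LinearMap.neg_apply]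
        exact eq_neg_of_add_eq_zero_left h7
      fm_sub := by
        intro j a b
        have h1 := LinearMap.congr_fun (h.q_symm a b) j
        rw [JData.q_apply, JData.q_apply] at h1
        have h2 : D.jc b (D.ι j) a = - D.jc a (D.ι j) b := by
          rw [jcy b (D.ι j) a, jsw (D.ι j) a b]
        rw [h2] at h1
        linear_combination (norm := module) h1
      fm_eq := by
        intro j a b
        rw [JData.q_apply]
        module }

end Pool.Agent.MX
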