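import Pool.Agent.MX.Stmts

set_option autoImplicit false

/-! Theorem X: the main formal consequences of the axioms of a `J`-cp algebra. -/

namespace Pool.Agent.MX

open Equiv
open Pool.Agent.MAL (alt IsMalcev alt_comp)

namespace F2

variable {F B J : Type} [Field F] [CharZero F] [NonUnitalNonAssocRing B] [Module F B]
    [IsScalarTower F B B] [SMulCommClass F B B] [AddCommGroup J] [Module F J]
    {D : JData F B J}

/-- the combination `G` of a function -/
def G (D : JData F B J) (a b c : B) (T : B → J) : J :=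
  T (a * (b * c)) - D.q a c (T b) + D.q a b (T c) + (1/3 : F) • T (jac a b c)

theorem G_add (a b c : B) (T S : B → J) :
    G D a b c (fun v => T v + S v) = G D a b c T + G D a b c S := by
  unfold G
  simp only [map_add]
  module

theorem G_sub (a b c : B) (T S : B → J) :
    G D a b c (fun v => T v - S v) = G D a b c T - G D a b c S := by
  unfold G
  simp only [map_sub]
  module

theorem G_neg (a b c : B) (T : B → J) :
    G D a b c (fun v => - T v) = - G D a b c T := by
  unfold G
  simp only [map_neg]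
  module

theorem G_smul (a b c : B) (r : F) (T : B → J) :
    G D a b c (fun v => r • T v) = r • G D a b c T := by
  unfold G
  simp only [map_smul]
  module

theorem G_zsmul (a b c : B) (r : ℤ) (T : B → J) :
    G D a b c (fun v => r • T v) = r • G D a b c T := by
  unfold G
  simp only [map_zsmul]
  module

theorem G_sum (a b c : B) {ι : Type} (s : Finset ι) (T : ι → B → J) :
    G D a b c (fun v => ∑ i ∈ s, T i v) = ∑ i ∈ s, G D a b c (T i) := by
  classical
  induction s using Finset.induction_on with
  | empty => unfold G; simp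
  | insert i s hi ih =>
    rw [Finset.sum_insert hi, ← ih, ← G_add]
    congr 1
    funext v
    rw [Finset.sum_insert hi]

theorem G_act (h : D.IsJCP) (a b c : B) (T : B → J) (d : B) :
    G D a b c (fun v => D.act (T v) d) = D.act (G D a b c T) d := by
  unfold G
  simp only [h.q_act, map_add, map_sub, map_smul, LinearMap.add_apply, LinearMap.sub_apply,
    LinearMap.smul_apply]

theorem G_jc (h : D.IsJCP) (a b c u v : B) : G D a b c (fun w => D.jc w u v) = 0 :=
  h.g3 a b c u v

theorem fm_sym (h : D.IsJCP) (h1 : D.Facts1) (j k : J) : D.fm j (D.ι k) = D.fm k (D.ι j) := by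
  let P : Submodule F J :=
    { carrier := {k | D.fm j (D.ι k) = D.fm k (D.ι j)}
      add_mem' := by
        intro a b ha hb
        simp only [Set.mem_ofPred_eq] at ha hb ⊢
        simp only [map_add, LinearMap.add_apply, ha, hb]
      zero_mem' := by simp
      smul_mem' := by
        intro c x hx
        simp only [Set.mem_ofPred_eq] at hx ⊢
        simp only [map_smul, LinearMap.smul_apply, hx] }
  have hP : P = ⊤ := by
    apply h.span_jc
    intro x y z
    show D.fm j (D.ι (D.jc x y z)) = D.fm (D.jc x y z) (D.ι j)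
    rw [h1.fm_alt, h1.jc_cyc x y (D.ι j), h1.jc_cyc y (D.ι j) x, h1.jc_ι, h.ι_jc]
    unfold jac
    simp only [map_add, map_sub, LinearMap.sub_apply, h.fm_act]
    rw [h1.anti x (y * z), h1.anti x z, mul_neg, h1.anti y (z * x)]
    simp only [map_neg]
    abel
  have : k ∈ P := by rw [hP]; trivial
  exact this

theorem q_fm (h : D.IsJCP) (h1 : D.Facts1) (j : J) (a : B) (k : J) :
    D.fm j a (D.ι k) = D.q (D.ι j) a k := by
  have e1 := h1.fm_sub j a (D.ι k)
  have e2 : D.fm k (D.ι j) a = D.fm j (D.ι k) a := by rw [fm_sym h h1 k j]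
  have e3 := h1.jc_ι j (D.ι k) a
  rw [← h.ι_act, h1.act_ι j (D.act k a)] at e3
  have e4 := h1.jc_cyc a (D.ι j) (D.ι k)
  rw [JData.q_apply, e2]
  rw [e4, e3] at e1
  rw [e3]
  linear_combination (norm := module) e1

theorem q_jcι (h : D.IsJCP) (h1 : D.Facts1) (a b : B) (j : J) (u v : B) :
    D.jc u v (D.ι (D.q a b j)) = D.q a b (D.jc u v (D.ι j)) := by
  rw [h1.jc_cyc u v, h1.jc_cyc v, h1.jc_ι, h1.jc_cyc u v, h1.jc_cyc v, h1.jc_ι]
  simp only [map_sub, h.q_act]

theorem g1 (h : D.IsJCP) (h1 : D.Facts1) (j : J) (a b c : B) :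
    G D a b c (fun v => D.act j v) = 0 := by
  let P : Submodule F J :=
    { carrier := {j | G D a b c (fun v => D.act j v) = 0}
      add_mem' := by
        intro x y hx hy
        simp only [Set.mem_ofPred_eq] at hx hy ⊢
        have : (fun v => D.act (x + y) v) = fun v => D.act x v + D.act y v := by
          funext v; simp
        rw [this, G_add, hx, hy, add_zero]
      zero_mem' := by
        simp only [Set.mem_ofPred_eq]
        unfold G
        simp
      smul_mem' := by
        intro r x hx
        simp only [Set.mem_ofPred_eq] at hx ⊢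
        have : (fun v => D.act (r • x) v) = fun v => r • D.act x v := by
          funext v; simp
        rw [this, G_smul, hx, smul_zero] }
  have hP : P = ⊤ := by
    apply h.span_jc
    intro x y z
    show G D a b c (fun v => D.act (D.jc x y z) v) = 0
    have e : (fun v => (-2 : F) • D.act (D.jc x y z) v)
        = fun v => D.jc v x (y * z) + D.jc v y (z * x) + D.jc v z (x * y) := by
      funext v; exact h1.m4b x y z v
    have e2 : (-2 : F) • G D a b c (fun v => D.act (D.jc x y z) v) = 0 := by
      rw [← G_smul, e, G_add, G_add, G_jc h, G_jc h, G_jc h, add_zero, add_zero]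
    exact (smul_eq_zero.mp e2).resolve_left (by norm_num)
  have : j ∈ P := by rw [hP]; trivial
  exact this

theorem GT (h : D.IsJCP) (h1 : D.Facts1) (j : J) (d a b c : B) :
    G D a b c (fun v => D.fm j d v - D.fm j v d) = 0 := by
  have e : (fun v => D.fm j d v - D.fm j v d) = fun v => D.act (D.act j v) d
      - D.act (D.act j d) v - (2/3 : F) • D.jc v d (D.ι j) := by
    funext v
    rw [h1.fm_sub j d v, h1.jc_cyc v d (D.ι j)]
  rw [e, G_sub, G_sub, G_smul, G_jc h, g1 h h1, G_act h, g1 h h1]
  simp

theorem G_jcr (h : D.IsJCP) (h1 : D.Facts1) (a b c y z x : B) :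
    G D a b c (fun v => D.jc (v * x) y z) = 0 := by
  have e : (fun v => (3 : F) • D.jc (v * x) y z) = fun v => D.act (D.jc x y z) v
      - D.act (D.jc v y z) x - (2 : F) • D.act (- D.jc v z x) y
        + (2 : F) • D.act (D.jc v x y) z := by
    funext v
    rw [h1.m4a v x y z, h1.jc_swap z v x, h1.jc_cyc v y z]
  have e2 : (3 : F) • G D a b c (fun v => D.jc (v * x) y z) = 0 := by
    rw [← G_smul, e, G_add, G_sub, G_sub, G_smul, G_smul, g1 h h1, G_act h, G_act h, G_act h,
      G_neg, G_jc h, G_jc h, G_jc h]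
    simp
  exact (smul_eq_zero.mp e2).resolve_left (by norm_num)

theorem G_actr (h : D.IsJCP) (h1 : D.Facts1) (a b c : B) (j : J) (x : B) :
    G D a b c (fun v => D.act j (v * x)) = 0 := by
  have e : (fun v => D.act j (v * x)) = fun v => D.act (D.act j v) x - D.act (D.act j x) v
      - D.jc v x (D.ι j) := by
    funext v
    rw [h1.jc_cyc v x (D.ι j), h1.jc_cyc x (D.ι j) v, h1.jc_ι]
    abel
  rw [e, G_sub, G_sub, G_jc h, g1 h h1, G_act h, g1 h h1]
  simp

theorem G_jcrr (h : D.IsJCP) (h1 : D.Facts1) (a b c y z x x0 : B) :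
    G D a b c (fun v => D.jc ((v * x0) * x) y z) = 0 := by
  have e : (fun v => (3 : F) • D.jc ((v * x0) * x) y z) = fun v => D.act (D.jc x y z) (v * x0)
      - D.act (D.jc (v * x0) y z) x - (2 : F) • D.act (- D.jc (v * x0) z x) y
        + (2 : F) • D.act (D.jc (v * x0) x y) z := by
    funext v
    rw [h1.m4a (v * x0) x y z, h1.jc_swap z (v * x0) x, h1.jc_cyc (v * x0) y z]
  have e2 : (3 : F) • G D a b c (fun v => D.jc ((v * x0) * x) y z) = 0 := by
    rw [← G_smul, e, G_add, G_sub, G_sub, G_smul, G_smul, G_actr h h1, G_act h, G_act h, G_act h,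
      G_neg, G_jcr h h1, G_jcr h h1, G_jcr h h1]
    simp
  exact (smul_eq_zero.mp e2).resolve_left (by norm_num)

theorem G_t5 (h : D.IsJCP) (h1 : D.Facts1) (a b c : B) (x : Fin 4 → B) :
    G D a b c (fun v => D.t5 v x) = 0 := by
  have e : (fun v => D.t5 v x) = fun v =>
      (5 : F) • D.act (D.act (D.jc (x 0) (x 1) (x 2)) v) (x 3)
      + (9 : F) • D.jc (v * x 3) (x 0 * x 1) (x 2)
      + (3 : F) • D.jc ((v * x 0) * x 1) (x 2) (x 3) := by
    funext v
    unfold JData.t5
    rw [h1.jc_cyc (v * x 3) (x 0 * x 1) (x 2)]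
  rw [e, G_add, G_add, G_smul, G_smul, G_smul, G_act h, g1 h h1, G_jcr h h1, G_jcrr h h1]
  simp

theorem sg (h : D.IsJCP) (h1 : D.Facts1) (j : J) (d a b c : B) :
    G D a b c (fun v => D.fm j d v) = 0 := by
  let P : Submodule F J :=
    { carrier := {j | G D a b c (fun v => D.fm j d v) = 0}
      add_mem' := by
        intro x y hx hy
        simp only [Set.mem_ofPred_eq] at hx hy ⊢
        have : (fun v => D.fm (x + y) d v) = fun v => D.fm x d v + D.fm y d v := by
          funext v; simp
        rw [this, G_add, hx, hy, add_zero]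
      zero_mem' := by
        simp only [Set.mem_ofPred_eq]
        unfold G
        simp
      smul_mem' := by
        intro r x hx
        simp only [Set.mem_ofPred_eq] at hx ⊢
        have : (fun v => D.fm (r • x) d v) = fun v => r • D.fm x d v := by
          funext v; simp
        rw [this, G_smul, hx, smul_zero] }
  have hP : P = ⊤ := by
    apply h.span_jc
    intro x y z
    show G D a b c (fun v => D.fm (D.jc x y z) d v) = 0
    have e : (fun v => (216 : F) • D.fm (D.jc x y z) d v)
        = fun v => ∑ σ : Perm (Fin 4), (Perm.sign σ : ℤ) •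
          D.t5 v (fun i => (![x, y, z, d] : Fin 4 → B) (σ i)) := by
      funext v; exact h.fm_jc ![x, y, z, d] v
    have e2 : (216 : F) • G D a b c (fun v => D.fm (D.jc x y z) d v) = 0 := by
      rw [← G_smul, e, G_sum]
      apply Finset.sum_eq_zero
      intro σ _
      rw [G_zsmul, G_t5 h h1, smul_zero]
    exact (smul_eq_zero.mp e2).resolve_left (by norm_num)
  have : j ∈ P := by rw [hP]; trivial
  exact this

theorem fg (h : D.IsJCP) (h1 : D.Facts1) (j : J) (v a b c : B) :
    G D a b c (fun w => D.fm j w v) = 0 := by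
  have e1 := GT h h1 j v a b c
  have e2 := sg h h1 j v a b c
  rw [G_sub, e2, zero_sub, neg_eq_zero] at e1
  exact e1

theorem jac_swap (h1 : D.Facts1) (a b c : B) : jac b a c = - jac a b c := by
  unfold jac
  rw [h1.anti b a, h1.anti a c, h1.anti c b]
  simp only [neg_mul]
  abel

theorem p5 (h : D.IsJCP) (h1 : D.Facts1) (j : J) (a b c v : B) :
    D.fm (D.fm j a b) c v = D.q b c (D.fm j a v) := by
  have e1 := h1.fm_eq (D.fm j a b) c v
  have e2 := sg h h1 j a c b v
  unfold G at e2
  rw [h1.jc_cyc c (D.ι (D.fm j a b)) v, h1.jc_ι, ← h.fm_mul, ← h.fm_mul, ← h.fm_mul, ← h.fm_mul,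
    ← h.fm_mul] at e1
  unfold jac at e2
  rw [h1.anti c (b * v), h1.anti c b, h1.anti (v * c) b, h1.anti v c] at e2
  simp only [map_neg, map_add, neg_mul, mul_neg, neg_neg] at e2
  rw [h.q_symm b c]
  rw [h1.anti v c] at e1
  simp only [map_neg, mul_neg] at e1
  linear_combination (norm := module) e1 - e2

theorem qform (h : D.IsJCP) (h1 : D.Facts1) (a b : B) (j : J) (c v : B) :
    D.fm (D.q a b j) c v = D.q a b (D.fm j c v) := by
  have e1 := fg h h1 j v b a c
  unfold G at e1
  rw [jac_swap h1 a b c, h.q_symm b a] at e1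
  rw [JData.q_apply]
  simp only [map_add, map_sub, map_smul, map_neg, LinearMap.add_apply, LinearMap.sub_apply,
    LinearMap.smul_apply, LinearMap.neg_apply] at e1 ⊢
  rw [p5 h h1, h.fm_act, h.fm_act, h1.jc_cyc a (D.ι j) b, h1.jc_ι]
  simp only [map_sub, LinearMap.sub_apply, h.fm_act]
  have e2 : jac a b c = b * (a * c) - (b * a) * c - a * (b * c) := by
    unfold jac
    rw [h1.anti (b * c) a, h1.anti b a, h1.anti (c * a) b, h1.anti c a, mul_neg, neg_mul]
    abel
  rw [e2] at e1
  simp only [map_sub, LinearMap.sub_apply] at e1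
  linear_combination (norm := module) -e1

theorem q_comm (h : D.IsJCP) (h1 : D.Facts1) (a b c d : B) (j : J) :
    D.q a b (D.q c d j) = D.q c d (D.q a b j) := by
  have e : ∀ k : J, D.jc c (D.ι k) d = D.jc d c (D.ι k) := fun k => (h1.jc_cyc d c (D.ι k)).symm
  rw [JData.q_apply D c d (D.q a b j), JData.q_apply D c d j, qform h h1, e, e, q_jcι h h1]
  simp only [map_add, map_sub, map_smul, h.q_act]

theorem mal4 (hB : IsMalcev B) (y a b c : B) :
    -(((y * c) * b) * a) + (1/3 : F) • (jac b y c * a) + ((y * a) * c) * b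
      - (1/3 : F) • jac b (y * a) c
      - ((y * b) * (c * a) - (y * (c * a)) * b - (2/3 : F) • jac (c * a) y b)
      - ((y * b) * a) * c + (1/3 : F) • (jac a y b * c) + ((y * c) * b) * a
      - (1/3 : F) • jac a (y * c) b - (y * c) * (a * b) + (1/3 : F) • jac (a * b) y c
      + (y * (b * c)) * a - (1/3 : F) • jac a y (b * c) = 0 := by
  have e1 := hB.sagle F y a b c
  have e2 := hB.sagle F y a c b
  have e3 := hB.sagle F y b c a
  unfold jac
  simp only [add_mul, hB.anti a y, hB.anti b y, hB.anti c y, hB.anti b a, hB.anti c a, hB.anti c b,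
    hB.anti b (y * a), hB.anti c (y * a), hB.anti a (y * b), hB.anti c (y * b), hB.anti a (y * c),
    hB.anti b (y * c), hB.anti y (a * b), hB.anti c (a * b), hB.anti y (a * c), hB.anti b (a * c),
    hB.anti y (b * c), hB.anti a (b * c), hB.anti (b * c) (y * a), hB.anti (a * c) (y * b),
    hB.anti (a * b) (y * c), neg_mul, mul_neg, neg_neg] at e1 e2 e3 ⊢
  linear_combination (norm := module) (1/3 : F) • e1 - (2/3 : F) • e2 + (1/3 : F) • e3

theorem q_mul (h : D.IsJCP) (h1 : D.Facts1) (a b c : B) : D.q (a * b) c = D.q a (b * c) := by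
  ext j
  have e1 := h.q_act a b j c
  have e2 := h.q_act b c j a
  have e3 := h1.fm_sub j (c * a) b
  have e4 := h.fm_mul j a b c
  have e5 := h.fm_mul j b c a
  have key : -(D.act (D.act (D.act j c) b) a) + (1/3 : F) • D.act (D.jc b (D.ι j) c) a
      + D.act (D.act (D.act j a) c) b - (1/3 : F) • D.jc b (D.ι (D.act j a)) c
      - (D.act (D.act j b) (c * a) - D.act (D.act j (c * a)) b
        - (2/3 : F) • D.jc (c * a) (D.ι j) b)
      - D.act (D.act (D.act j b) a) c + (1/3 : F) • D.act (D.jc a (D.ι j) b) c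
      + D.act (D.act (D.act j c) b) a - (1/3 : F) • D.jc a (D.ι (D.act j c)) b
      - D.act (D.act j c) (a * b) + (1/3 : F) • D.jc (a * b) (D.ι j) c
      + D.act (D.act j (b * c)) a - (1/3 : F) • D.jc a (D.ι j) (b * c) = 0 := by
    apply h.ι_inj
    simp only [map_add, map_sub, map_neg, map_smul, h.ι_act, h.ι_jc, map_zero]
    exact mal4 h.mal (D.ι j) a b c
  rw [JData.q_apply, JData.q_apply] at e1 e2 ⊢
  rw [h.fm_act] at e1 e2
  simp only [map_add, map_sub, map_smul, LinearMap.add_apply, LinearMap.sub_apply,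
    LinearMap.smul_apply] at e1 e2
  rw [← e4] at e1
  rw [← e5] at e2
  linear_combination (norm := module) key + e1 + e2 - e3

theorem facts2 (h : D.IsJCP) (h1 : D.Facts1) : D.Facts2 where
  fm_sym := fm_sym h h1
  q_fm := q_fm h h1
  q_jcι := q_jcι h h1
  g1 := fun j a b c => g1 h h1 j a b c
  sg := fun j d a b c => sg h h1 j d a b c
  fg := fun j v a b c => fg h h1 j v a b c
  p5 := p5 h h1
  qform := qform h h1
  q_comm := q_comm h h1
  q_mul := q_mul h h1

end F2

theorem facts2_proof : Stmt_Facts2 := by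
  intro F B J _ _ _ _ _ _ _ _ D h h1
  exact F2.facts2 h h1

end Pool.Agent.MX
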