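import Pool.Agent.MX.Stmts

set_option autoImplicit false

/-! Theorem X: facts about `Z`. -/

namespace Pool.Agent.MX

namespace F3

variable {F B J : Type} [Field F] [NonUnitalNonAssocRing B] [Module F B]
    [AddCommGroup J] [Module F J] (D : JData F B J)

theorem ind {P : (B → J) → Prop} (h0 : P 0) (hadd : ∀ s t, P s → P t → P (s + t))
    (hsmul : ∀ (c : F) s, P s → P (c • s)) (hfm : ∀ j a, P (fun v => D.fm j a v)) :
    ∀ s ∈ D.ZS, P s := by
  intro s hs
  refine Submodule.span_induction (p := fun s _ => P s) ?_ h0 ?_ ?_ hs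
  · rintro _ ⟨p, rfl⟩
    exact hfm p.1 p.2
  · intro s t _ _ h1 h2
    exact hadd s t h1 h2
  · intro c s _ h1
    exact hsmul c s h1

theorem fm_mem (j : J) (a : B) : (fun v => D.fm j a v) ∈ D.ZS :=
  Submodule.subset_span ⟨(j, a), rfl⟩

theorem q_comm_fm (h2 : D.Facts2) (j k : J) (a b x : B) :
    D.fm j a (D.ι (D.fm k b x)) = D.fm k b (D.ι (D.fm j a x)) := by
  rw [h2.q_fm j a (D.fm k b x), h2.q_fm k b (D.fm j a x), ← h2.qform, ← h2.q_fm j a k, h2.p5]

end F3

theorem facts3_proof : Stmt_Facts3 := by
  intro F B J _ _ _ _ _ _ _ _ D hJ h1 h2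
  have z_add : ∀ s ∈ D.ZS, ∀ a b, s (a + b) = s a + s b := by
    refine F3.ind D ?_ ?_ ?_ ?_
    · intro a b; simp
    · intro s t hs ht a b
      simp only [Pi.add_apply, hs, ht]; abel
    · intro c s hs a b
      simp only [Pi.smul_apply, hs, smul_add]
    · intro j a b c
      simp only [map_add]
  have z_smul : ∀ s ∈ D.ZS, ∀ (c : F) a, s (c • a) = c • s a := by
    refine F3.ind D ?_ ?_ ?_ ?_
    · intro a b; simp
    · intro s t hs ht a b
      simp only [Pi.add_apply, hs, ht, smul_add]
    · intro c s hs a b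
      simp only [Pi.smul_apply, hs]
      rw [smul_comm]
    · intro j a b c
      simp only [map_smul]
  have z_mul : ∀ s ∈ D.ZS, ∀ a b, s (a * b) = D.act (s a) b := by
    refine F3.ind D ?_ ?_ ?_ ?_
    · intro a b; simp
    · intro s t hs ht a b
      simp only [Pi.add_apply, hs, ht, map_add, LinearMap.add_apply]
    · intro c s hs a b
      simp only [Pi.smul_apply, hs, map_smul, LinearMap.smul_apply]
    · intro j a b c
      exact hJ.fm_mul j a b c
  have z_neg : ∀ s ∈ D.ZS, ∀ a, s (-a) = - s a := by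
    intro s hs a
    have := z_smul s hs (-1) a
    simpa using this
  have z_q : ∀ s ∈ D.ZS, ∀ a b, (fun v => D.q a b (s v)) ∈ D.ZS := by
    refine F3.ind D ?_ ?_ ?_ ?_
    · intro a b
      simp only [Pi.zero_apply, map_zero]
      exact D.ZS.zero_mem
    · intro s t hs ht a b
      have := D.ZS.add_mem (hs a b) (ht a b)
      simp only [Pi.add_apply, map_add]
      exact this
    · intro c s hs a b
      have := D.ZS.smul_mem c (hs a b)
      simp only [Pi.smul_apply, map_smul]
      exact this
    · intro j c a b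
      simp only [← h2.qform]
      exact F3.fm_mem D _ _
  have z_p5 : ∀ s ∈ D.ZS, ∀ b c v, D.fm (s b) c v = D.q b c (s v) := by
    refine F3.ind D ?_ ?_ ?_ ?_
    · intro a b c; simp
    · intro s t hs ht a b c
      simp only [Pi.add_apply, hs, ht, map_add, LinearMap.add_apply]
    · intro c s hs a b d
      simp only [Pi.smul_apply, hs, map_smul, LinearMap.smul_apply]
    · intro j a b c v
      exact h2.p5 j a b c v
  have z_comm : ∀ s ∈ D.ZS, ∀ t ∈ D.ZS, ∀ b, s (D.ι (t b)) = t (D.ι (s b)) := by
    intro s hs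
    refine F3.ind D ?_ ?_ ?_ ?_
    · intro b
      have := z_smul s hs 0 0
      simp only [Pi.zero_apply, map_zero]
      simpa using this
    · intro t t' ht ht' b
      simp only [Pi.add_apply, map_add, z_add s hs, ht, ht']
    · intro c t ht b
      simp only [Pi.smul_apply, map_smul, z_smul s hs, ht]
    · intro k b x
      revert s hs
      refine F3.ind D ?_ ?_ ?_ ?_
      · simp
      · intro s t hs ht
        simp only [Pi.add_apply, map_add, hs, ht]
      · intro c s hs
        simp only [Pi.smul_apply, map_smul, hs]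
      · intro j a
        exact F3.q_comm_fm D h2 j k a b x
  refine ⟨z_add, z_smul, z_mul, z_q, z_p5, z_comm, ?_, ?_, ?_, ?_⟩
  · intro s hs a b c
    have e1 : D.jc a b (D.ι (s c)) = D.jc (D.ι (s c)) a b := by
      rw [h1.jc_cyc (D.ι (s c)) a b]
    have e2 : jac a b c = (c * a) * b + (-(c * (a * b)) + -((c * b) * a)) := by
      unfold jac
      rw [h1.anti (a * b) c, h1.anti b c, neg_mul]
      abel
    rw [e1, h1.jc_ι, e2, z_add s hs, z_add s hs, z_neg s hs, z_neg s hs, z_mul s hs, z_mul s hs,
      z_mul s hs, z_mul s hs, z_mul s hs]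
    abel
  · intro s hs j b
    rw [h1.act_ι, ← z_mul s hs, ← z_mul s hs, h1.anti b (D.ι j), z_neg s hs, neg_neg]
  · intro s hs j b v
    have e1 := z_comm s hs _ (F3.fm_mem D j b) v
    rw [e1, h2.q_fm, h2.fm_sym, z_p5 s hs, hJ.q_symm]
  · refine F3.ind D ?_ ?_ ?_ ?_
    · exact D.OS.zero_mem
    · intro s t hs ht
      have := D.OS.add_mem hs ht
      have e : ((fun j => (s + t) (D.ι j), 0, 0, 0) : JData.OX B J)
          = ((fun j => s (D.ι j), 0, 0, 0) : JData.OX B J)
            + ((fun j => t (D.ι j), 0, 0, 0) : JData.OX B J) := by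
        refine Prod.ext ?_ (Prod.ext ?_ (Prod.ext ?_ ?_)) <;> ext <;> simp
      rw [e]
      exact this
    · intro c s hs
      have := D.OS.smul_mem c hs
      have e : ((fun j => (c • s) (D.ι j), 0, 0, 0) : JData.OX B J)
          = c • ((fun j => s (D.ι j), 0, 0, 0) : JData.OX B J) := by
        refine Prod.ext ?_ (Prod.ext ?_ (Prod.ext ?_ ?_)) <;> ext <;> simp
      rw [e]
      exact this
    · intro j a
      have e : ((fun k => D.fm j a (D.ι k), 0, 0, 0) : JData.OX B J)
          = D.qX (D.ι j) a JData.uX := by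
        refine Prod.ext ?_ (Prod.ext ?_ (Prod.ext ?_ ?_))
        · ext k
          exact h2.q_fm j a k
        · ext k
          exact (map_zero (D.q (D.ι j) a)).symm
        · ext k v
          exact (map_zero (D.q (D.ι j) a)).symm
        · ext k v
          exact (map_zero (D.q (D.ι j) a)).symm
      rw [e, JData.OS]
      rw [Submodule.mem_sInf]
      rintro P ⟨hu, _, hq⟩
      exact hq _ _ _ hu

end Pool.Agent.MX
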