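import Pool.Agent.MX.Stmts

set_option autoImplicit false
set_option linter.unusedSectionVars false

/-! MX, module Facts4: the space of octonions. -/

namespace Pool.Agent.MX

open Pool.Agent.MX.JData

namespace Facts4

variable {F B J : Type} [Field F] [CharZero F] [NonUnitalNonAssocRing B] [Module F B]
    [IsScalarTower F B B] [SMulCommClass F B B] [AddCommGroup J] [Module F J]
    {D : JData F B J}

omit [CharZero F] [IsScalarTower F B B] [SMulCommClass F B B] in
theorem ox_ext {o o' : OX B J} (h1 : ∀ j, o.1 j = o'.1 j) (h2 : ∀ j, o.2.1 j = o'.2.1 j)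
    (h3 : ∀ j v, o.2.2.1 j v = o'.2.2.1 j v) (h4 : ∀ u v, o.2.2.2 u v = o'.2.2.2 u v) : o = o' :=
  Prod.ext (funext h1) (Prod.ext (funext h2) (Prod.ext (funext fun j => funext (h3 j))
    (funext fun u => funext (h4 u))))

section
omit [CharZero F] [IsScalarTower F B B] [SMulCommClass F B B]

theorem ind (P : Submodule F (OX B J)) (h1 : (uX : OX B J) ∈ P) (h2 : ∀ b, D.bX b ∈ P)
    (h3 : ∀ a b o, o ∈ P → D.qX a b o ∈ P) : D.OS ≤ P :=
  sInf_le ⟨h1, h2, h3⟩

theorem uX_mem : (uX : OX B J) ∈ D.OS := by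
  unfold OS
  rw [Submodule.mem_sInf]
  exact fun P hP => hP.1

theorem bX_mem (b : B) : D.bX b ∈ D.OS := by
  unfold OS
  rw [Submodule.mem_sInf]
  exact fun P hP => hP.2.1 b

theorem qX_mem (a b : B) (o : OX B J) (ho : o ∈ D.OS) : D.qX a b o ∈ D.OS := by
  unfold OS at *
  rw [Submodule.mem_sInf] at *
  exact fun P hP => hP.2.2 a b o (ho P hP)

theorem bX_add (a b : B) : D.bX (a + b) = D.bX a + D.bX b := by
  refine ox_ext (fun j => ?_) (fun j => ?_) (fun j v => ?_) (fun u v => ?_)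
  · show (0 : J) = 0 + 0
    simp
  · show D.act j (a + b) = D.act j a + D.act j b
    simp
  · show D.fm j (a + b) v = D.fm j a v + D.fm j b v
    simp
  · show D.jc u v (a + b) = D.jc u v a + D.jc u v b
    simp

theorem bX_smul (c : F) (a : B) : D.bX (c • a) = c • D.bX a := by
  refine ox_ext (fun j => ?_) (fun j => ?_) (fun j v => ?_) (fun u v => ?_)
  · show (0 : J) = c • (0 : J)
    simp
  · show D.act j (c • a) = c • D.act j a
    simp
  · show D.fm j (c • a) v = c • D.fm j a v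
    simp
  · show D.jc u v (c • a) = c • D.jc u v a
    simp

theorem bX_neg (a : B) : D.bX (-a) = - D.bX a := by
  have := bX_smul (D := D) (-1 : F) a
  simpa using this

theorem bX_zero : D.bX 0 = 0 := by
  have := bX_smul (D := D) (0 : F) 0
  simpa using this

theorem q_add (a b c : B) : D.q (a + b) c = D.q a c + D.q b c := by
  ext j
  rw [LinearMap.add_apply, q_apply, q_apply, q_apply]
  simp only [map_add, LinearMap.add_apply, smul_add]
  abel

theorem q_smul (r : F) (a c : B) : D.q (r • a) c = r • D.q a c := by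
  ext j
  rw [LinearMap.smul_apply, q_apply, q_apply]
  simp only [map_smul, LinearMap.smul_apply]
  module

theorem q_neg (a c : B) : D.q (-a) c = - D.q a c := by
  have := q_smul (D := D) (-1 : F) a c
  simpa using this

theorem qX_add (a b c : B) (o : OX B J) : D.qX (a + b) c o = D.qX a c o + D.qX b c o := by
  refine ox_ext (fun j => ?_) (fun j => ?_) (fun j v => ?_) (fun u v => ?_)
  · show D.q (a + b) c (o.1 j) = D.q a c (o.1 j) + D.q b c (o.1 j)
    rw [q_add]; rfl
  · show D.q (a + b) c (o.2.1 j) = D.q a c (o.2.1 j) + D.q b c (o.2.1 j)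
    rw [q_add]; rfl
  · show D.q (a + b) c (o.2.2.1 j v) = D.q a c (o.2.2.1 j v) + D.q b c (o.2.2.1 j v)
    rw [q_add]; rfl
  · show D.q (a + b) c (o.2.2.2 u v) = D.q a c (o.2.2.2 u v) + D.q b c (o.2.2.2 u v)
    rw [q_add]; rfl

theorem qX_smul (r : F) (a c : B) (o : OX B J) : D.qX (r • a) c o = r • D.qX a c o := by
  refine ox_ext (fun j => ?_) (fun j => ?_) (fun j v => ?_) (fun u v => ?_)
  · show D.q (r • a) c (o.1 j) = r • D.q a c (o.1 j)
    rw [q_smul]; rfl
  · show D.q (r • a) c (o.2.1 j) = r • D.q a c (o.2.1 j)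
    rw [q_smul]; rfl
  · show D.q (r • a) c (o.2.2.1 j v) = r • D.q a c (o.2.2.1 j v)
    rw [q_smul]; rfl
  · show D.q (r • a) c (o.2.2.2 u v) = r • D.q a c (o.2.2.2 u v)
    rw [q_smul]; rfl

theorem qX_neg (a c : B) (o : OX B J) : D.qX (-a) c o = - D.qX a c o := by
  have := qX_smul (D := D) (-1 : F) a c o
  simpa using this

theorem qX_symm (h : D.IsJCP) (a b : B) (o : OX B J) : D.qX a b o = D.qX b a o := by
  refine ox_ext (fun j => ?_) (fun j => ?_) (fun j v => ?_) (fun u v => ?_)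
  · show D.q a b _ = D.q b a _
    rw [h.q_symm]
  · show D.q a b _ = D.q b a _
    rw [h.q_symm]
  · show D.q a b _ = D.q b a _
    rw [h.q_symm]
  · show D.q a b _ = D.q b a _
    rw [h.q_symm]

theorem AX_uX (a : B) : D.AX a uX = D.bX a := by
  refine ox_ext (fun j => ?_) (fun j => ?_) (fun j v => ?_) (fun u v => ?_)
  · show -((0 : J) - 0 + (1/3 : F) • (0 : J)) = 0
    simp
  · show D.act j a + 0 - D.act 0 a - 0 = D.act j a
    simp
  · show D.fm j a v + 0 = D.fm j a v
    simp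
  · show D.jc u v a + (1/3 : F) • (D.act (0 : J) a - 0 - (2 : F) • D.act (0 : J) u
      + (2 : F) • D.act (0 : J) v) = D.jc u v a
    simp

theorem AX_qX (h : D.IsJCP) (x a b : B) (o : OX B J) :
    D.AX x (D.qX a b o) = D.qX a b (D.AX x o) := by
  refine ox_ext (fun j => ?_) (fun j => ?_) (fun j v => ?_) (fun u v => ?_)
  · show -(D.q a b (o.2.2.1 j x) - D.q a b (o.2.1 (D.act j x))
      + (1/3 : F) • D.q a b (o.2.2.2 (D.ι j) x))
      = D.q a b (-(o.2.2.1 j x - o.2.1 (D.act j x) + (1/3 : F) • o.2.2.2 (D.ι j) x))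
    rw [map_neg, map_add, map_sub, map_smul]
  · show D.q a b (o.1 (D.act j x)) + D.q a b (o.2.1 (D.act j x)) - D.act (D.q a b (o.2.1 j)) x
      - D.q a b (o.2.2.2 (D.ι j) x)
      = D.q a b (o.1 (D.act j x) + o.2.1 (D.act j x) - D.act (o.2.1 j) x - o.2.2.2 (D.ι j) x)
    rw [map_sub, map_sub, map_add, h.q_act]
  · show D.q a b (o.1 (D.fm j x v)) + D.q a b (o.2.2.1 (D.act j x) v)
      = D.q a b (o.1 (D.fm j x v) + o.2.2.1 (D.act j x) v)
    rw [map_add]
  · show D.q a b (o.1 (D.jc u v x)) + (1/3 : F) • (D.act (D.q a b (o.2.2.2 u v)) x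
      - D.q a b (o.2.1 (D.jc u v x)) - (2 : F) • D.act (D.q a b (o.2.2.2 v x)) u
      + (2 : F) • D.act (D.q a b (o.2.2.2 u x)) v)
      = D.q a b (o.1 (D.jc u v x) + (1/3 : F) • (D.act (o.2.2.2 u v) x - o.2.1 (D.jc u v x)
      - (2 : F) • D.act (o.2.2.2 v x) u + (2 : F) • D.act (o.2.2.2 u x) v))
    rw [map_add, map_smul, map_add, map_sub, map_sub, map_smul, map_smul, h.q_act, h.q_act,
      h.q_act]

end

section
variable (h : D.IsJCP) (h1 : D.Facts1) (h2 : D.Facts2) (h3 : D.Facts3)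
include h h1
omit [IsScalarTower F B B] [SMulCommClass F B B]

theorem AX_bX (a b : B) : D.AX a (D.bX b) = - D.qX a b uX + D.bX (a * b) := by
  refine ox_ext (fun j => ?_) (fun j => ?_) (fun j v => ?_) (fun u v => ?_)
  · show -(D.fm j b a - D.act (D.act j a) b + (1/3 : F) • D.jc (D.ι j) a b)
      = -(D.q a b j) + 0
    rw [h.q_symm a b, q_apply, h1.jc_cyc b (D.ι j) a, add_zero]
  · show (0 : J) + D.act (D.act j a) b - D.act (D.act j b) a - D.jc (D.ι j) a b
      = -(D.q a b 0) + D.act j (a * b)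
    rw [h1.jc_ι, map_zero]
    abel
  · show (0 : J) + D.fm (D.act j a) b v = -(D.q a b 0) + D.fm j (a * b) v
    rw [h.fm_act, map_zero, neg_zero]
  · show (0 : J) + (1/3 : F) • (D.act (D.jc u v b) a - D.act (D.jc u v a) b
      - (2 : F) • D.act (D.jc v a b) u + (2 : F) • D.act (D.jc u a b) v)
      = -(D.q a b 0) + D.jc u v (a * b)
    have e := h1.m4a a b u v
    rw [h1.jc_cyc (a * b) u v, h1.jc_cyc b u v, ← h1.jc_cyc u a b] at e
    rw [← e, map_zero]
    module

omit h1 in
include h2 in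
theorem qX_comm (a b c d : B) (o : OX B J) :
    D.qX a b (D.qX c d o) = D.qX c d (D.qX a b o) := by
  refine ox_ext (fun j => ?_) (fun j => ?_) (fun j v => ?_) (fun u v => ?_)
  · exact h2.q_comm _ _ _ _ _
  · exact h2.q_comm _ _ _ _ _
  · exact h2.q_comm _ _ _ _ _
  · exact h2.q_comm _ _ _ _ _

include h2 in
theorem bX_g (a b c : B) : D.bX (a * (b * c)) = D.qX a c (D.bX b) - D.qX a b (D.bX c)
    - (1/3 : F) • D.bX (jac a b c) := by
  refine ox_ext (fun j => ?_) (fun j => ?_) (fun j v => ?_) (fun u v => ?_)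
  · show (0 : J) = D.q a c 0 - D.q a b 0 - (1/3 : F) • (0 : J)
    simp
  · show D.act j (a * (b * c)) = D.q a c (D.act j b) - D.q a b (D.act j c)
      - (1/3 : F) • D.act j (jac a b c)
    linear_combination (norm := module) h2.g1 j a b c
  · show D.fm j (a * (b * c)) v = D.q a c (D.fm j b v) - D.q a b (D.fm j c v)
      - (1/3 : F) • D.fm j (jac a b c) v
    linear_combination (norm := module) h2.fg j v a b c
  · show D.jc u v (a * (b * c)) = D.q a c (D.jc u v b) - D.q a b (D.jc u v c)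
      - (1/3 : F) • D.jc u v (jac a b c)
    have e := h.g3 a b c u v
    rw [h1.jc_cyc (a * (b * c)) u v, h1.jc_cyc b u v, h1.jc_cyc c u v,
      h1.jc_cyc (jac a b c) u v] at e
    linear_combination (norm := module) e

include h2 in
theorem bX_qι (a b : B) (j : J) : D.bX (D.ι (D.q a b j)) = D.qX a b (D.bX (D.ι j)) := by
  refine ox_ext (fun k => ?_) (fun k => ?_) (fun k v => ?_) (fun u v => ?_)
  · show (0 : J) = D.q a b 0
    simp
  · show D.act k (D.ι (D.q a b j)) = D.q a b (D.act k (D.ι j))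
    rw [h1.act_ι, h1.act_ι k j, map_neg, h.q_act]
  · show D.fm k (D.ι (D.q a b j)) v = D.q a b (D.fm k (D.ι j) v)
    rw [h2.fm_sym, h2.qform, h2.fm_sym]
  · exact h2.q_jcι a b j u v

/-- closure under linear equations -/
theorem AX_mem (x : B) (o : OX B J) (ho : o ∈ D.OS) : D.AX x o ∈ D.OS := by
  have hle : D.OS ≤ D.OS.comap (D.AX x) := by
    refine ind _ ?_ (fun b => ?_) (fun a b o ho => ?_)
    · show D.AX x uX ∈ D.OS
      rw [AX_uX]; exact bX_mem x
    · show D.AX x (D.bX b) ∈ D.OS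
      rw [AX_bX h h1]
      exact D.OS.add_mem (D.OS.neg_mem (qX_mem _ _ _ uX_mem)) (bX_mem _)
    · show D.AX x (D.qX a b o) ∈ D.OS
      rw [AX_qX h]
      exact qX_mem _ _ _ ho
  exact hle ho

theorem AX_add (a b : B) (o : OX B J) (ho : o ∈ D.OS) : D.AX (a + b) o = D.AX a o + D.AX b o := by
  have hle : D.OS ≤ LinearMap.eqLocus (D.AX (a + b)) (D.AX a + D.AX b) := by
    refine ind _ ?_ (fun v => ?_) (fun c d o ho => ?_)
    · show D.AX (a + b) uX = D.AX a uX + D.AX b uX
      rw [AX_uX, AX_uX, AX_uX, bX_add]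
    · show D.AX (a + b) (D.bX v) = D.AX a (D.bX v) + D.AX b (D.bX v)
      rw [AX_bX h h1, AX_bX h h1, AX_bX h h1, qX_add, add_mul, bX_add]
      abel
    · show D.AX (a + b) (D.qX c d o) = D.AX a (D.qX c d o) + D.AX b (D.qX c d o)
      rw [AX_qX h, AX_qX h, AX_qX h, ← map_add]
      exact congrArg _ ho
  exact hle ho

theorem AX_smul [IsScalarTower F B B] (c : F) (a : B) (o : OX B J) (ho : o ∈ D.OS) :
    D.AX (c • a) o = c • D.AX a o := by
  have hle : D.OS ≤ LinearMap.eqLocus (D.AX (c • a)) (c • D.AX a) := by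
    refine ind _ ?_ (fun v => ?_) (fun u d o ho => ?_)
    · show D.AX (c • a) uX = c • D.AX a uX
      rw [AX_uX, AX_uX, bX_smul]
    · show D.AX (c • a) (D.bX v) = c • D.AX a (D.bX v)
      rw [AX_bX h h1, AX_bX h h1, qX_smul, smul_mul_assoc, bX_smul, smul_add, smul_neg]
    · show D.AX (c • a) (D.qX u d o) = c • D.AX a (D.qX u d o)
      rw [AX_qX h, AX_qX h, ← map_smul]
      exact congrArg _ ho
  exact hle ho

include h2 in
theorem AX_clif (a b : B) (o : OX B J) (ho : o ∈ D.OS) :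
    D.AX a (D.AX b o) + D.AX b (D.AX a o) = (-2 : F) • D.qX a b o := by
  have hle : D.OS ≤ LinearMap.eqLocus ((D.AX a).comp (D.AX b) + (D.AX b).comp (D.AX a))
      ((-2 : F) • D.qX a b) := by
    refine ind _ ?_ (fun v => ?_) (fun c d o ho => ?_)
    · show D.AX a (D.AX b uX) + D.AX b (D.AX a uX) = (-2 : F) • D.qX a b uX
      rw [AX_uX, AX_uX, AX_bX h h1, AX_bX h h1, qX_symm h b a, h1.anti b a, bX_neg]
      module
    · show D.AX a (D.AX b (D.bX v)) + D.AX b (D.AX a (D.bX v)) = (-2 : F) • D.qX a b (D.bX v)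
      rw [AX_bX h h1, AX_bX h h1, map_add, map_add, map_neg, map_neg, AX_qX h, AX_qX h,
        AX_uX, AX_uX, AX_bX h h1, AX_bX h h1, bX_g h h1 h2, bX_g h h1 h2]
      have e1 : D.qX a (b * v) uX = D.qX (a * b) v uX := by
        refine ox_ext (fun j => ?_) (fun j => ?_) (fun j v => ?_) (fun u v => ?_)
        · show D.q _ _ _ = D.q _ _ _
          rw [h2.q_mul]
        · show D.q _ _ _ = D.q _ _ _
          rw [h2.q_mul]
        · show D.q _ _ _ = D.q _ _ _
          rw [h2.q_mul]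
        · show D.q _ _ _ = D.q _ _ _
          rw [h2.q_mul]
      have e2 : D.qX b (a * v) uX = - D.qX (a * b) v uX := by
        have e : D.qX b (a * v) uX = D.qX (b * a) v uX := by
          refine ox_ext (fun j => ?_) (fun j => ?_) (fun j v => ?_) (fun u v => ?_)
          · show D.q _ _ _ = D.q _ _ _
            rw [h2.q_mul]
          · show D.q _ _ _ = D.q _ _ _
            rw [h2.q_mul]
          · show D.q _ _ _ = D.q _ _ _
            rw [h2.q_mul]
          · show D.q _ _ _ = D.q _ _ _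
            rw [h2.q_mul]
        rw [e, h1.anti b a, qX_neg]
      have e3 : jac b a v = - jac a b v := by
        unfold jac
        rw [h1.anti b a, neg_mul, h1.anti (a * v) b, h1.anti v b, neg_mul, h1.anti (b * v) a,
          h1.anti v a, neg_mul, h1.anti (a * v) b]
        abel
      rw [e1, e2, e3, bX_neg, qX_symm h b a]
      module
    · show D.AX a (D.AX b (D.qX c d o)) + D.AX b (D.AX a (D.qX c d o))
        = (-2 : F) • D.qX a b (D.qX c d o)
      rw [AX_qX h, AX_qX h, AX_qX h, AX_qX h, ← map_add, qX_comm h h2, ← map_smul]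
      exact congrArg _ ho
  exact hle ho

include h2 in
theorem AX_mul (a b : B) (o : OX B J) (ho : o ∈ D.OS) : D.AX (a * b) o =
    (1/2 : F) • (D.AX a (D.AX b o) - D.AX b (D.AX a o)) + (2/3 : F) • D.bX (D.ι (o.2.2.2 a b)) := by
  let T : OX B J →ₗ[F] OX B J :=
    { toFun := fun o => D.bX (D.ι (o.2.2.2 a b))
      map_add' := fun o o' => by
        show D.bX (D.ι (o.2.2.2 a b + o'.2.2.2 a b)) = _
        rw [map_add, bX_add]
      map_smul' := fun c o => by
        show D.bX (D.ι (c • o.2.2.2 a b)) = _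
        rw [map_smul, bX_smul, RingHom.id_apply] }
  have hle : D.OS ≤ LinearMap.eqLocus (D.AX (a * b))
      ((1/2 : F) • ((D.AX a).comp (D.AX b) - (D.AX b).comp (D.AX a)) + (2/3 : F) • T) := by
    refine ind _ ?_ (fun v => ?_) (fun c d o ho => ?_)
    · show D.AX (a * b) uX = (1/2 : F) • (D.AX a (D.AX b uX) - D.AX b (D.AX a uX))
        + (2/3 : F) • D.bX (D.ι 0)
      rw [AX_uX, AX_uX, AX_uX, AX_bX h h1, AX_bX h h1, qX_symm h b a, h1.anti b a, bX_neg,
        map_zero, bX_zero]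
      module
    · show D.AX (a * b) (D.bX v) = (1/2 : F) • (D.AX a (D.AX b (D.bX v))
        - D.AX b (D.AX a (D.bX v))) + (2/3 : F) • D.bX (D.ι (D.jc a b v))
      rw [AX_bX h h1, AX_bX h h1, AX_bX h h1, map_add, map_add, map_neg, map_neg, AX_qX h, AX_qX h,
        AX_uX, AX_uX, AX_bX h h1, AX_bX h h1, h.ι_jc]
      have e1 : D.qX a (b * v) uX = D.qX (a * b) v uX := by
        refine ox_ext (fun j => ?_) (fun j => ?_) (fun j v => ?_) (fun u v => ?_)
        · show D.q _ _ _ = D.q _ _ _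
          rw [h2.q_mul]
        · show D.q _ _ _ = D.q _ _ _
          rw [h2.q_mul]
        · show D.q _ _ _ = D.q _ _ _
          rw [h2.q_mul]
        · show D.q _ _ _ = D.q _ _ _
          rw [h2.q_mul]
      have e2 : D.qX b (a * v) uX = - D.qX (a * b) v uX := by
        have e : D.qX b (a * v) uX = D.qX (b * a) v uX := by
          refine ox_ext (fun j => ?_) (fun j => ?_) (fun j v => ?_) (fun u v => ?_)
          · show D.q _ _ _ = D.q _ _ _
            rw [h2.q_mul]
          · show D.q _ _ _ = D.q _ _ _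
            rw [h2.q_mul]
          · show D.q _ _ _ = D.q _ _ _
            rw [h2.q_mul]
          · show D.q _ _ _ = D.q _ _ _
            rw [h2.q_mul]
        rw [e, h1.anti b a, qX_neg]
      have e3 : jac b a v = - jac a b v := by
        unfold jac
        rw [h1.anti b a, neg_mul, h1.anti (a * v) b, h1.anti v b, neg_mul, h1.anti (b * v) a,
          h1.anti v a, neg_mul, h1.anti (a * v) b]
        abel
      have e4 : (a * b) * v = a * (b * v) + -(b * (a * v)) + jac a b v := by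
        unfold jac
        rw [h1.anti (b * v) a, h1.anti v a, neg_mul, h1.anti (a * v) b]
        abel
      have g1 := bX_g h h1 h2 a b v
      have g2 := bX_g h h1 h2 b a v
      rw [e3, bX_neg, qX_symm h b a] at g2
      rw [e1, e2, e4, bX_add, bX_add, bX_neg]
      linear_combination (norm := module) (1/2 : F) • g1 - (1/2 : F) • g2
    · show D.AX (a * b) (D.qX c d o) = (1/2 : F) • (D.AX a (D.AX b (D.qX c d o))
        - D.AX b (D.AX a (D.qX c d o))) + (2/3 : F) • D.bX (D.ι (D.q c d (o.2.2.2 a b)))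
      rw [AX_qX h, AX_qX h, AX_qX h, AX_qX h, AX_qX h, ← map_sub, bX_qι h h1 h2, ← map_smul,
        ← map_smul, ← map_add]
      exact congrArg _ ho
  exact hle ho

omit h h1

theorem κ_add (a b c : B) (o : OX B J) (ho : o ∈ D.OS) :
    o.2.2.2 (a + b) c = o.2.2.2 a c + o.2.2.2 b c := by
  let T : OX B J →ₗ[F] J :=
    { toFun := fun o => o.2.2.2 (a + b) c - (o.2.2.2 a c + o.2.2.2 b c)
      map_add' := fun o o' => by
        show (o.2.2.2 (a + b) c + o'.2.2.2 (a + b) c) - ((o.2.2.2 a c + o'.2.2.2 a c)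
          + (o.2.2.2 b c + o'.2.2.2 b c)) = _
        abel
      map_smul' := fun r o => by
        show (r • o.2.2.2 (a + b) c) - ((r • o.2.2.2 a c) + (r • o.2.2.2 b c)) = r • _
        module }
  have hle : D.OS ≤ LinearMap.ker T := by
    refine ind _ ?_ (fun v => ?_) (fun u d o ho => ?_)
    · show (0 : J) - (0 + 0) = 0
      simp
    · show D.jc (a + b) c v - (D.jc a c v + D.jc b c v) = 0
      simp
    · have ho' : o.2.2.2 (a + b) c - (o.2.2.2 a c + o.2.2.2 b c) = 0 := ho
      show D.q u d (o.2.2.2 (a + b) c) - (D.q u d (o.2.2.2 a c) + D.q u d (o.2.2.2 b c)) = 0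
      rw [← map_add, ← map_sub, ho', map_zero]
  exact sub_eq_zero.mp (hle ho)

theorem κ_smul (c : F) (a b : B) (o : OX B J) (ho : o ∈ D.OS) :
    o.2.2.2 (c • a) b = c • o.2.2.2 a b := by
  let T : OX B J →ₗ[F] J :=
    { toFun := fun o => o.2.2.2 (c • a) b - c • o.2.2.2 a b
      map_add' := fun o o' => by
        show (o.2.2.2 (c • a) b + o'.2.2.2 (c • a) b) - c • (o.2.2.2 a b + o'.2.2.2 a b) = _
        module
      map_smul' := fun r o => by
        show (r • o.2.2.2 (c • a) b) - c • (r • o.2.2.2 a b) = r • _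
        module }
  have hle : D.OS ≤ LinearMap.ker T := by
    refine ind _ ?_ (fun v => ?_) (fun u d o ho => ?_)
    · show (0 : J) - c • (0 : J) = 0
      simp
    · show D.jc (c • a) b v - c • D.jc a b v = 0
      simp
    · have ho' : o.2.2.2 (c • a) b - c • o.2.2.2 a b = 0 := ho
      show D.q u d (o.2.2.2 (c • a) b) - c • D.q u d (o.2.2.2 a b) = 0
      rw [← map_smul, ← map_sub, ho', map_zero]
  exact sub_eq_zero.mp (hle ho)

include h1 in
theorem jc_self (a v : B) : D.jc a a v = 0 := by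
  have e := h1.jc_swap a a v
  have e2 : (2 : F) • D.jc a a v = 0 := by
    rw [two_smul]
    nth_rewrite 1 [e]
    abel
  exact (smul_eq_zero.mp e2).resolve_left two_ne_zero

include h1 in
theorem κ_self (a : B) (o : OX B J) (ho : o ∈ D.OS) : o.2.2.2 a a = 0 := by
  let T : OX B J →ₗ[F] J :=
    { toFun := fun o => o.2.2.2 a a
      map_add' := fun o o' => rfl
      map_smul' := fun r o => rfl }
  have hle : D.OS ≤ LinearMap.ker T := by
    refine ind _ ?_ (fun v => ?_) (fun u d o ho => ?_)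
    · show (0 : J) = 0
      rfl
    · show D.jc a a v = 0
      exact jc_self h1 a v
    · have ho' : o.2.2.2 a a = 0 := ho
      show D.q u d (o.2.2.2 a a) = 0
      rw [ho', map_zero]
  exact hle ho

include h1 h2 in
theorem fm_κ (a b : B) (o : OX B J) (ho : o ∈ D.OS) : D.fm (o.2.2.2 a b) b = 0 := by
  let T : OX B J →ₗ[F] (B →ₗ[F] J) :=
    { toFun := fun o => D.fm (o.2.2.2 a b) b
      map_add' := fun o o' => by
        show D.fm (o.2.2.2 a b + o'.2.2.2 a b) b = _
        rw [map_add]; rfl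
      map_smul' := fun r o => by
        show D.fm (r • o.2.2.2 a b) b = _
        rw [map_smul]; rfl }
  have hle : D.OS ≤ LinearMap.ker T := by
    refine ind _ ?_ (fun v => ?_) (fun u d o ho => ?_)
    · show D.fm (0 : J) b = 0
      simp
    · show D.fm (D.jc a b v) b = 0
      rw [h1.fm_alt, h1.jc_cyc a b b, jc_self h1]
      simp
    · have ho' : D.fm (o.2.2.2 a b) b = 0 := ho
      show D.fm (D.q u d (o.2.2.2 a b)) b = 0
      ext v
      rw [h2.qform, ho']
      simp
  exact hle ho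

theorem rm_add (j k : J) (o : OX B J) (ho : o ∈ D.OS) :
    o.1 (j + k) = o.1 j + o.1 k ∧ o.2.1 (j + k) = o.2.1 j + o.2.1 k ∧
    o.2.2.1 (j + k) = o.2.2.1 j + o.2.2.1 k := by
  let T : OX B J →ₗ[F] J × J × (B → J) :=
    { toFun := fun o => (o.1 (j + k) - (o.1 j + o.1 k), o.2.1 (j + k) - (o.2.1 j + o.2.1 k),
        fun v => o.2.2.1 (j + k) v - (o.2.2.1 j v + o.2.2.1 k v))
      map_add' := fun o o' => by
        refine Prod.ext ?_ (Prod.ext ?_ (funext fun v => ?_))
        · show (o.1 (j + k) + o'.1 (j + k)) - ((o.1 j + o'.1 j) + (o.1 k + o'.1 k)) = 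
            (o.1 (j + k) - (o.1 j + o.1 k)) + (o'.1 (j + k) - (o'.1 j + o'.1 k))
          abel
        · show (o.2.1 (j + k) + o'.2.1 (j + k)) - ((o.2.1 j + o'.2.1 j) + (o.2.1 k + o'.2.1 k)) = 
            (o.2.1 (j + k) - (o.2.1 j + o.2.1 k)) + (o'.2.1 (j + k) - (o'.2.1 j + o'.2.1 k))
          abel
        · show (o.2.2.1 (j + k) v + o'.2.2.1 (j + k) v) - ((o.2.2.1 j v + o'.2.2.1 j v)
            + (o.2.2.1 k v + o'.2.2.1 k v)) = 
            (o.2.2.1 (j + k) v - (o.2.2.1 j v + o.2.2.1 k v))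
            + (o'.2.2.1 (j + k) v - (o'.2.2.1 j v + o'.2.2.1 k v))
          abel
      map_smul' := fun r o => by
        refine Prod.ext ?_ (Prod.ext ?_ (funext fun v => ?_))
        · show (r • o.1 (j + k)) - ((r • o.1 j) + (r • o.1 k)) = 
            r • (o.1 (j + k) - (o.1 j + o.1 k))
          module
        · show (r • o.2.1 (j + k)) - ((r • o.2.1 j) + (r • o.2.1 k)) = 
            r • (o.2.1 (j + k) - (o.2.1 j + o.2.1 k))
          module
        · show (r • o.2.2.1 (j + k) v) - ((r • o.2.2.1 j v) + (r • o.2.2.1 k v)) = 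
            r • (o.2.2.1 (j + k) v - (o.2.2.1 j v + o.2.2.1 k v))
          module }
  have hle : D.OS ≤ LinearMap.ker T := by
    refine ind _ ?_ (fun b => ?_) (fun u d o ho => ?_)
    · show ((j + k - (j + k), (0 : J) - (0 + 0), fun v : B => (0 : J) - (0 + 0)) :
        J × J × (B → J)) = 0
      refine Prod.ext ?_ (Prod.ext ?_ (funext fun v => ?_)) <;> simp
    · show (((0 : J) - (0 + 0), D.act (j + k) b - (D.act j b + D.act k b),
        fun v : B => D.fm (j + k) b v - (D.fm j b v + D.fm k b v)) : J × J × (B → J)) = 0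
      refine Prod.ext ?_ (Prod.ext ?_ (funext fun v => ?_)) <;> simp
    · have ho' : ((o.1 (j + k) - (o.1 j + o.1 k), o.2.1 (j + k) - (o.2.1 j + o.2.1 k),
        fun v => o.2.2.1 (j + k) v - (o.2.2.1 j v + o.2.2.1 k v)) : J × J × (B → J)) = 0 := ho
      have a1 : o.1 (j + k) - (o.1 j + o.1 k) = 0 := congrArg Prod.fst ho'
      have a2 : o.2.1 (j + k) - (o.2.1 j + o.2.1 k) = 0 := congrArg (fun p => p.2.1) ho'
      have a3 : ∀ v, o.2.2.1 (j + k) v - (o.2.2.1 j v + o.2.2.1 k v) = 0 :=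
        fun v => congrFun (congrArg (fun p => p.2.2) ho') v
      show ((D.q u d (o.1 (j + k)) - (D.q u d (o.1 j) + D.q u d (o.1 k)),
        D.q u d (o.2.1 (j + k)) - (D.q u d (o.2.1 j) + D.q u d (o.2.1 k)),
        fun v => D.q u d (o.2.2.1 (j + k) v) - (D.q u d (o.2.2.1 j v)
          + D.q u d (o.2.2.1 k v))) : J × J × (B → J)) = 0
      refine Prod.ext ?_ (Prod.ext ?_ (funext fun v => ?_))
      · show D.q u d (o.1 (j + k)) - (D.q u d (o.1 j) + D.q u d (o.1 k)) = 0
        rw [← map_add, ← map_sub, a1, map_zero]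
      · show D.q u d (o.2.1 (j + k)) - (D.q u d (o.2.1 j) + D.q u d (o.2.1 k)) = 0
        rw [← map_add, ← map_sub, a2, map_zero]
      · show D.q u d (o.2.2.1 (j + k) v) - (D.q u d (o.2.2.1 j v) + D.q u d (o.2.2.1 k v)) = 0
        rw [← map_add, ← map_sub, a3, map_zero]
  have ho' : ((o.1 (j + k) - (o.1 j + o.1 k), o.2.1 (j + k) - (o.2.1 j + o.2.1 k),
    fun v => o.2.2.1 (j + k) v - (o.2.2.1 j v + o.2.2.1 k v)) : J × J × (B → J)) = 0 := hle ho
  have a1 : o.1 (j + k) - (o.1 j + o.1 k) = 0 := congrArg Prod.fst ho'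
  have a2 : o.2.1 (j + k) - (o.2.1 j + o.2.1 k) = 0 := congrArg (fun p => p.2.1) ho'
  have a3 : ∀ v, o.2.2.1 (j + k) v - (o.2.2.1 j v + o.2.2.1 k v) = 0 :=
    fun v => congrFun (congrArg (fun p => p.2.2) ho') v
  exact ⟨sub_eq_zero.mp a1, sub_eq_zero.mp a2, funext fun v => sub_eq_zero.mp (a3 v)⟩

theorem rm_smul (c : F) (j : J) (o : OX B J) (ho : o ∈ D.OS) :
    o.1 (c • j) = c • o.1 j ∧ o.2.1 (c • j) = c • o.2.1 j ∧
    o.2.2.1 (c • j) = c • o.2.2.1 j := by
  let T : OX B J →ₗ[F] J × J × (B → J) :=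
    { toFun := fun o => (o.1 (c • j) - c • o.1 j, o.2.1 (c • j) - c • o.2.1 j,
        fun v => o.2.2.1 (c • j) v - c • o.2.2.1 j v)
      map_add' := fun o o' => by
        refine Prod.ext ?_ (Prod.ext ?_ (funext fun v => ?_))
        · show (o.1 (c • j) + o'.1 (c • j)) - c • (o.1 j + o'.1 j) = 
            (o.1 (c • j) - c • o.1 j) + (o'.1 (c • j) - c • o'.1 j)
          module
        · show (o.2.1 (c • j) + o'.2.1 (c • j)) - c • (o.2.1 j + o'.2.1 j) = 
            (o.2.1 (c • j) - c • o.2.1 j) + (o'.2.1 (c • j) - c • o'.2.1 j)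
          module
        · show (o.2.2.1 (c • j) v + o'.2.2.1 (c • j) v) - c • (o.2.2.1 j v + o'.2.2.1 j v) = 
            (o.2.2.1 (c • j) v - c • o.2.2.1 j v) + (o'.2.2.1 (c • j) v - c • o'.2.2.1 j v)
          module
      map_smul' := fun r o => by
        refine Prod.ext ?_ (Prod.ext ?_ (funext fun v => ?_))
        · show (r • o.1 (c • j)) - c • (r • o.1 j) = r • (o.1 (c • j) - c • o.1 j)
          module
        · show (r • o.2.1 (c • j)) - c • (r • o.2.1 j) = r • (o.2.1 (c • j) - c • o.2.1 j)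
          module
        · show (r • o.2.2.1 (c • j) v) - c • (r • o.2.2.1 j v) =
            r • (o.2.2.1 (c • j) v - c • o.2.2.1 j v)
          module }
  have hle : D.OS ≤ LinearMap.ker T := by
    refine ind _ ?_ (fun b => ?_) (fun u d o ho => ?_)
    · show ((c • j - c • j, (0 : J) - c • (0 : J), fun v : B => (0 : J) - c • (0 : J)) :
        J × J × (B → J)) = 0
      refine Prod.ext ?_ (Prod.ext ?_ (funext fun v => ?_)) <;> simp
    · show (((0 : J) - c • (0 : J), D.act (c • j) b - c • D.act j b,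
        fun v : B => D.fm (c • j) b v - c • D.fm j b v) : J × J × (B → J)) = 0
      refine Prod.ext ?_ (Prod.ext ?_ (funext fun v => ?_)) <;> simp
    · have ho' : ((o.1 (c • j) - c • o.1 j, o.2.1 (c • j) - c • o.2.1 j,
        fun v => o.2.2.1 (c • j) v - c • o.2.2.1 j v) : J × J × (B → J)) = 0 := ho
      have a1 : o.1 (c • j) - c • o.1 j = 0 := congrArg Prod.fst ho'
      have a2 : o.2.1 (c • j) - c • o.2.1 j = 0 := congrArg (fun p => p.2.1) ho'
      have a3 : ∀ v, o.2.2.1 (c • j) v - c • o.2.2.1 j v = 0 :=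
        fun v => congrFun (congrArg (fun p => p.2.2) ho') v
      show ((D.q u d (o.1 (c • j)) - c • D.q u d (o.1 j),
        D.q u d (o.2.1 (c • j)) - c • D.q u d (o.2.1 j),
        fun v => D.q u d (o.2.2.1 (c • j) v) - c • D.q u d (o.2.2.1 j v)) : J × J × (B → J)) = 0
      refine Prod.ext ?_ (Prod.ext ?_ (funext fun v => ?_))
      · show D.q u d (o.1 (c • j)) - c • D.q u d (o.1 j) = 0
        rw [← map_smul, ← map_sub, a1, map_zero]
      · show D.q u d (o.2.1 (c • j)) - c • D.q u d (o.2.1 j) = 0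
        rw [← map_smul, ← map_sub, a2, map_zero]
      · show D.q u d (o.2.2.1 (c • j) v) - c • D.q u d (o.2.2.1 j v) = 0
        rw [← map_smul, ← map_sub, a3, map_zero]
  have ho' : ((o.1 (c • j) - c • o.1 j, o.2.1 (c • j) - c • o.2.1 j,
    fun v => o.2.2.1 (c • j) v - c • o.2.2.1 j v) : J × J × (B → J)) = 0 := hle ho
  have a1 : o.1 (c • j) - c • o.1 j = 0 := congrArg Prod.fst ho'
  have a2 : o.2.1 (c • j) - c • o.2.1 j = 0 := congrArg (fun p => p.2.1) ho'
  have a3 : ∀ v, o.2.2.1 (c • j) v - c • o.2.2.1 j v = 0 :=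
    fun v => congrFun (congrArg (fun p => p.2.2) ho') v
  exact ⟨sub_eq_zero.mp a1, sub_eq_zero.mp a2, funext fun v => sub_eq_zero.mp (a3 v)⟩

include h1 in
theorem κ_A (a b : B) (o : OX B J) (ho : o ∈ D.OS) :
    (D.AX b o).2.2.2 a b = D.act (o.2.2.2 a b) b := by
  show o.1 (D.jc a b b) + (1/3 : F) • (D.act (o.2.2.2 a b) b - o.2.1 (D.jc a b b)
      - (2 : F) • D.act (o.2.2.2 b b) a + (2 : F) • D.act (o.2.2.2 a b) b) = _
  obtain ⟨a1, a2, -⟩ := rm_smul (0 : F) (0 : J) o ho
  rw [zero_smul, zero_smul] at a1 a2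
  rw [h1.jc_cyc a b b, jc_self h1, a1, a2, κ_self h1 b o ho, map_zero, LinearMap.zero_apply]
  module

include h3 in
theorem f_mem (j : J) (o : OX B J) (ho : o ∈ D.OS) : o.2.2.1 j ∈ D.ZS := by
  let T : OX B J →ₗ[F] (B → J) :=
    { toFun := fun o => o.2.2.1 j
      map_add' := fun o o' => rfl
      map_smul' := fun r o => rfl }
  have hle : D.OS ≤ D.ZS.comap T := by
    refine ind _ ?_ (fun b => ?_) (fun u d o ho => ?_)
    · show (0 : B → J) ∈ D.ZS
      exact zero_mem _
    · show (fun v => D.fm j b v) ∈ D.ZS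
      exact Submodule.subset_span ⟨(j, b), rfl⟩
    · exact h3.z_q _ ho u d
  exact hle ho

theorem eX_split (s : B → J) (j : J) :
    D.eX (s, j) = ((fun k => s (D.ι k), 0, 0, 0) : OX B J) + D.bX (D.ι j) := by
  refine ox_ext (fun k => ?_) (fun k => ?_) (fun k v => ?_) (fun u v => ?_)
  · show s (D.ι k) = s (D.ι k) + 0
    simp
  · show D.act k (D.ι j) = 0 + D.act k (D.ι j)
    simp
  · show D.fm k (D.ι j) v = 0 + D.fm k (D.ι j) v
    simp
  · show D.jc u v (D.ι j) = 0 + D.jc u v (D.ι j)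
    simp

include h3 in
theorem eX_mem (p : (B → J) × J) (hp : p ∈ D.NS) : D.eX p ∈ D.OS := by
  obtain ⟨s, j⟩ := p
  rw [eX_split]
  exact D.OS.add_mem (h3.z_u s hp.1) (bX_mem _)

include h h1 h2 h3 in
theorem eX_La (b : B) (p : (B → J) × J) (hp : p ∈ D.NS) : D.eX (D.La b p) = D.AX b (D.eX p) := by
  obtain ⟨s, j⟩ := p
  have hs : s ∈ D.ZS := hp.1
  rw [La_apply, eX_split, eX_split, map_add, AX_bX h h1]
  have e1 : ((fun k => -(D.fm j b (D.ι k)), 0, 0, 0) : OX B J) = - D.qX b (D.ι j) uX := by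
    refine ox_ext (fun k => ?_) (fun k => ?_) (fun k v => ?_) (fun u v => ?_)
    · show -(D.fm j b (D.ι k)) = -(D.q b (D.ι j) k)
      rw [h2.q_fm, h.q_symm]
    · show (0 : J) = -(D.q b (D.ι j) 0)
      simp
    · show (0 : J) = -(D.q b (D.ι j) 0)
      simp
    · show (0 : J) = -(D.q b (D.ι j) 0)
      simp
  have e2 : D.AX b ((fun k => s (D.ι k), 0, 0, 0) : OX B J) = D.bX (D.ι (s b)) := by
    refine ox_ext (fun k => ?_) (fun k => ?_) (fun k v => ?_) (fun u v => ?_)
    · show -((0 : J) - 0 + (1/3 : F) • (0 : J)) = 0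
      simp
    · show s (D.ι (D.act k b)) + 0 - D.act 0 b - 0 = D.act k (D.ι (s b))
      rw [h.ι_act, h3.z_mul s hs, h3.z_act s hs]
      simp
    · show s (D.ι (D.fm k b v)) + 0 = D.fm k (D.ι (s b)) v
      rw [h3.z_fm s hs, add_zero]
    · show s (D.ι (D.jc u v b)) + (1/3 : F) • (D.act (0 : J) b - 0 - (2 : F) • D.act (0 : J) u
      + (2 : F) • D.act (0 : J) v) = D.jc u v (D.ι (s b))
      rw [h3.z_jc s hs, h.ι_jc]
      simp
  rw [e1, e2, map_sub, sub_eq_add_neg, bX_add, bX_neg, h.ι_act, h1.anti (D.ι j) b, bX_neg]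
  abel

end

end Facts4

open Facts4 in
theorem Facts4_proof : Stmt_Facts4 := by
  intro F B J _ _ _ _ _ _ _ _ D h h1 h2 h3
  exact
    { ind := Facts4.ind
      uX_mem := uX_mem
      bX_mem := bX_mem
      qX_mem := qX_mem
      bX_add := bX_add
      bX_smul := bX_smul
      AX_uX := AX_uX
      AX_bX := AX_bX h h1
      AX_qX := AX_qX h
      qX_comm := qX_comm h h2
      bX_g := bX_g h h1 h2
      bX_qι := bX_qι h h1 h2
      AX_mem := AX_mem h h1
      AX_add := AX_add h h1
      AX_smul := AX_smul h h1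
      AX_clif := AX_clif h h1 h2
      AX_mul := AX_mul h h1 h2
      κ_add := κ_add
      κ_smul := κ_smul
      κ_self := κ_self h1
      κ_A := κ_A h1
      fm_κ := fm_κ h1 h2
      rm_add := rm_add
      rm_smul := rm_smul
      f_mem := f_mem h3
      eX_mem := eX_mem h3
      eX_La := eX_La h h1 h2 h3 }

end Pool.Agent.MX
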