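import Pool.Agent.MX.Stmts

set_option autoImplicit false
set_option linter.unusedSimpArgs false
set_option linter.unusedSectionVars false

/-! Theorem X: the facts about the lifts. -/

namespace Pool.Agent.MX

open Equiv
open Pool.Agent.MAL (alt IsMalcev)

namespace Facts5X

open JData

variable {F B J : Type} [Field F] [CharZero F] [NonUnitalNonAssocRing B] [Module F B]
    [IsScalarTower F B B] [SMulCommClass F B B] [AddCommGroup J] [Module F J]
    {D : JData F B J}

/-- the action of `⟨x,y⟩` on the module -/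
def Q (D : JData F B J) (x y : B) (p : (B → J) × J) : (B → J) × J :=
  (fun v => D.q x y (p.1 v), D.q x y p.2)

omit [CharZero F] [IsScalarTower F B B] [SMulCommClass F B B] in
theorem Q_add (x y : B) (p p' : (B → J) × J) : Q D x y (p + p') = Q D x y p + Q D x y p' := by
  refine Prod.ext ?_ ?_
  · funext v; simp [Q]
  · simp [Q]

omit [CharZero F] [IsScalarTower F B B] [SMulCommClass F B B] in
theorem Q_smul (x y : B) (c : F) (p : (B → J) × J) : Q D x y (c • p) = c • Q D x y p := by
  refine Prod.ext ?_ ?_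
  · funext v; simp [Q]
  · simp [Q]

omit [CharZero F] [IsScalarTower F B B] [SMulCommClass F B B] in
theorem Q_zero (x y : B) : Q D x y (0 : (B → J) × J) = 0 := by
  refine Prod.ext ?_ ?_
  · funext v; simp [Q]
  · simp [Q]

omit [CharZero F] [IsScalarTower F B B] [SMulCommClass F B B] in
theorem Q_sub (x y : B) (p p' : (B → J) × J) : Q D x y (p - p') = Q D x y p - Q D x y p' := by
  refine Prod.ext ?_ ?_
  · funext v; simp [Q]
  · simp [Q]

omit [CharZero F] [IsScalarTower F B B] [SMulCommClass F B B] in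
theorem kX_q (x y b c : B) (o : OX B J) : kX F b c (D.qX x y o) = Q D x y (kX F b c o) := by
  refine Prod.ext ?_ ?_
  · funext v; simp [Q, kX]
  · simp [Q, kX, qX]

omit [CharZero F] [IsScalarTower F B B] [SMulCommClass F B B] in
theorem mX_q (x y : B) (j : J) (o : OX B J) : mX F j (D.qX x y o) = Q D x y (mX F j o) := by
  refine Prod.ext ?_ ?_
  · funext v; simp [Q, mX, qX]
  · simp [Q, mX, qX]

section
variable (h : D.IsJCP) (h1 : D.Facts1) (h2 : D.Facts2) (h3 : D.Facts3) (h4 : D.Facts4)

include h h2 in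
omit [CharZero F] [IsScalarTower F B B] [SMulCommClass F B B] in
theorem La_Q (a b c : B) (p : (B → J) × J) : Q D a b (D.La c p) = D.La c (Q D a b p) := by
  obtain ⟨s, j⟩ := p
  refine Prod.ext ?_ ?_
  · funext v
    simp only [Q, La_apply, map_neg]
    rw [h2.qform]
  · simp only [Q, La_apply, map_sub]
    rw [h.q_act]

include h h1 h3 in
omit [CharZero F] [IsScalarTower F B B] [SMulCommClass F B B] in
theorem La_La1 (a b : B) (s : B → J) (j : J) (hs : s ∈ D.ZS) (v : B) :
    (D.La a (D.La b (s, j))).1 v = - D.q b a (s v) + D.fm j (b * a) v := by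
  simp only [La_apply, map_sub, LinearMap.sub_apply]
  rw [h3.z_p5 s hs, h.fm_act]
  abel

include h3 in
omit [CharZero F] [IsScalarTower F B B] [SMulCommClass F B B] in
theorem La_La2 (a b : B) (s : B → J) (j : J) (hs : s ∈ D.ZS) :
    (D.La a (D.La b (s, j))).2 = - D.fm j b a - s (b * a) + D.act (D.act j b) a := by
  simp only [La_apply, map_sub, LinearMap.sub_apply]
  rw [h3.z_mul s hs]
  abel

include h1 in
omit [CharZero F] [IsScalarTower F B B] [SMulCommClass F B B] in
theorem fm_anti (j : J) (a b v : B) : D.fm j (b * a) v = - D.fm j (a * b) v := by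
  rw [h1.anti b a, map_neg, LinearMap.neg_apply]

include h1 in
omit [CharZero F] [IsScalarTower F B B] [SMulCommClass F B B] in
theorem act_anti (j : J) (a b : B) : D.act j (b * a) = - D.act j (a * b) := by
  rw [h1.anti b a, map_neg]

include h3 in
omit [CharZero F] [IsScalarTower F B B] [SMulCommClass F B B] in
theorem s_neg (s : B → J) (hs : s ∈ D.ZS) (a : B) : s (-a) = - s a := by
  have := h3.z_smul s hs (-1) a
  simpa using this

include h h1 h3 in
omit [IsScalarTower F B B] [SMulCommClass F B B] in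
theorem La_clif (a b : B) (p : (B → J) × J) (hp : p ∈ D.NS) :
    D.La a (D.La b p) + D.La b (D.La a p) =
    (-2 : F) • (fun v => D.q a b (p.1 v), D.q a b p.2) := by
  obtain ⟨s, j⟩ := p
  have hs : s ∈ D.ZS := hp.1
  refine Prod.ext ?_ ?_
  · funext v
    simp only [Prod.fst_add, Pi.add_apply, Prod.smul_fst, Pi.smul_apply]
    rw [La_La1 h h1 h3 a b s j hs, La_La1 h h1 h3 b a s j hs, fm_anti h1 j a b v, h.q_symm b a]
    module
  · simp only [Prod.snd_add, Prod.smul_snd]
    rw [La_La2 h3 a b s j hs, La_La2 h3 b a s j hs]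
    have e1 : s (b * a) = - s (a * b) := by
      rw [h1.anti b a, s_neg h3 s hs]
    have e2 : D.q a b j + D.q b a j = (2 : F) • D.q a b j := by
      rw [h.q_symm b a]; module
    have e3 := D.q_apply a b j
    have e4 := D.q_apply b a j
    have e5 : D.jc b (D.ι j) a = - D.jc a (D.ι j) b := by
      rw [h1.jc_cyc b (D.ι j) a, h1.jc_swap (D.ι j) a b]
    rw [e5] at e4
    rw [e1]
    have e6 : (-2 : F) • D.q a b j = -(D.q a b j + D.q b a j) := by
      rw [e2]; module
    rw [e6, e3, e4]
    module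

include h h1 h3 in
omit [IsScalarTower F B B] [SMulCommClass F B B] in
theorem r1 (a b : B) (p : (B → J) × J) (hp : p ∈ D.NS) : D.La (a * b) p =
    (1/2 : F) • (D.La a (D.La b p) - D.La b (D.La a p)) + (2/3 : F) • kX F a b (D.eX p) := by
  obtain ⟨s, j⟩ := p
  have hs : s ∈ D.ZS := hp.1
  refine Prod.ext ?_ ?_
  · funext v
    simp only [Prod.fst_add, Pi.add_apply, Prod.smul_fst, Pi.smul_apply, Prod.fst_sub,
      Pi.sub_apply]
    rw [La_La1 h h1 h3 a b s j hs, La_La1 h h1 h3 b a s j hs, fm_anti h1 j a b v, h.q_symm b a]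
    have : (kX F a b (D.eX (s, j))).1 v = 0 := rfl
    rw [this]
    have : (D.La (a * b) (s, j)).1 v = - D.fm j (a * b) v := rfl
    rw [this]
    module
  · simp only [Prod.snd_add, Prod.smul_snd, Prod.snd_sub]
    rw [La_La2 h3 a b s j hs, La_La2 h3 b a s j hs]
    have e0 : (kX F a b (D.eX (s, j))).2 = D.jc a b (D.ι j) := rfl
    have e0' : (D.La (a * b) (s, j)).2 = s (a * b) - D.act j (a * b) := rfl
    rw [e0, e0']
    have e1 : s (b * a) = - s (a * b) := by
      rw [h1.anti b a, s_neg h3 s hs]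
    have e2 := h1.fm_sub j a b
    have e3 : D.jc a (D.ι j) b = - D.jc (D.ι j) a b := h1.jc_swap _ _ _
    have e4 : D.jc a b (D.ι j) = D.jc (D.ι j) a b := (h1.jc_cyc _ _ _).symm
    have e5 := h1.jc_ι j a b
    rw [e3] at e2
    rw [e1, e4]
    have e6 : D.fm j a b = D.fm j b a + (D.act (D.act j b) a - D.act (D.act j a) b
      - (2/3 : F) • -D.jc (D.ι j) a b) := by rw [← e2]; abel
    rw [e6, e5]
    module

omit [CharZero F] [IsScalarTower F B B] [SMulCommClass F B B] in
theorem eX_zero (k : J) : D.eX ((0 : B → J), k) = D.bX (D.ι k) := rfl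

include h4 in
omit [CharZero F] [IsScalarTower F B B] [SMulCommClass F B B] in
theorem eX_Q (x y : B) (p : (B → J) × J) : D.eX (Q D x y p) = D.qX x y (D.eX p) := by
  obtain ⟨s, j⟩ := p
  have e := h4.bX_qι x y j
  refine Prod.ext ?_ ?_
  · rfl
  · have := congrArg Prod.snd e
    exact this

include h1 in
theorem m4r3 (a b c v : B) : -D.act (D.jc b c v) a - D.jc b c (a * v)
    + (2 : F) • D.jc a (b * c) v + D.act (D.jc a b c) v = 0 := by
  have e1 := h1.m4a a v b c
  have e2 := h1.m4a b c v a
  have e3 : D.jc b c (a * v) = D.jc (a * v) b c := (h1.jc_cyc _ _ _).symm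
  have e4 : D.jc a (b * c) v = D.jc (b * c) v a := h1.jc_cyc _ _ _
  have e5 : D.jc v b c = D.jc b c v := h1.jc_cyc _ _ _
  have e6 : D.jc b c a = D.jc a b c := (h1.jc_cyc _ _ _).symm
  have e7 : D.jc c v a = - D.jc c a v := by
    rw [h1.jc_cyc c v a, h1.jc_cyc v a c, h1.jc_swap a c v]
  have e8 : D.jc v a b = - D.jc a v b := h1.jc_swap _ _ _
  rw [e5, e6] at e1
  rw [e7, e8] at e2
  rw [e3, e4]
  have h3' : (3 : F) ≠ 0 := by norm_num
  have key : (3 : F) • (-D.act (D.jc b c v) a - D.jc (a * v) b c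
    + (2 : F) • D.jc (b * c) v a + D.act (D.jc a b c) v) = 0 := by
    have : (3 : F) • (-D.act (D.jc b c v) a - D.jc (a * v) b c
      + (2 : F) • D.jc (b * c) v a + D.act (D.jc a b c) v) =
      -(3 : F) • D.act (D.jc b c v) a - (3 : F) • D.jc (a * v) b c
      + (2 : F) • ((3 : F) • D.jc (b * c) v a) + (3 : F) • D.act (D.jc a b c) v := by module
    rw [this, e1, e2]
    simp only [map_neg, LinearMap.neg_apply]
    module
  exact (smul_eq_zero.mp key).resolve_left h3'

include h h1 h2 h3 h4 in
theorem r3 (a b c : B) (o : OX B J) (ho : o ∈ D.OS) :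
    D.La a (kX F b c o) - kX F b c (D.AX a o)
    + (2 : F) • kX F a (b * c) o + mX F (D.jc a b c) o = 0 := by
  set T : OX B J →ₗ[F] ((B → J) × J) := (D.La a).comp (kX F b c) - (kX F b c).comp (D.AX a)
    + (2 : F) • kX F a (b * c) + mX F (D.jc a b c) with hT
  have hTa : ∀ o, T o = D.La a (kX F b c o) - kX F b c (D.AX a o)
    + (2 : F) • kX F a (b * c) o + mX F (D.jc a b c) o := fun o => rfl
  have key : D.OS ≤ LinearMap.ker T := by
    refine h4.ind _ ?_ ?_ ?_
    · rw [LinearMap.mem_ker, hTa, h4.AX_uX]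
      refine Prod.ext ?_ ?_
      · funext v
        simp [kX, mX, uX, La, bX]
      · simp only [kX, mX, uX, bX, La, LinearMap.coe_mk, AddHom.coe_mk, Prod.snd_add,
          Prod.snd_sub, Prod.smul_snd, Pi.zero_apply, Prod.snd_zero, map_zero,
          LinearMap.zero_apply, smul_zero]
        rw [h1.jc_cyc a b c]
        abel
    · intro v
      rw [LinearMap.mem_ker, hTa, h4.AX_bX]
      refine Prod.ext ?_ ?_
      · funext w
        have e := h1.fm_alt b c v a
        have e' : D.jc b c a = D.jc a b c := (h1.jc_cyc _ _ _).symm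
        rw [e'] at e
        have e2 : D.fm (D.jc b c v) a w = - D.fm (D.jc a b c) v w := by
          rw [e]; rfl
        simp only [kX, mX, uX, bX, La, qX, LinearMap.coe_mk, AddHom.coe_mk, Prod.fst_add,
          Prod.fst_sub, Prod.smul_fst, Pi.zero_apply, Prod.fst_zero, Pi.add_apply, Pi.sub_apply,
          Pi.smul_apply, smul_zero, Pi.neg_apply]
        rw [e2]
        abel
      · have e := m4r3 h1 a b c v
        simp only [kX, mX, uX, bX, La, qX, LinearMap.coe_mk, AddHom.coe_mk, Prod.snd_add,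
          Prod.snd_sub, Prod.smul_snd, Pi.zero_apply, Prod.snd_zero, Prod.snd_neg,
          Pi.add_apply, Pi.neg_apply, map_zero, smul_zero, Prod.fst_zero]
        refine Eq.trans ?_ e
        abel
    · intro x y o ho
      rw [LinearMap.mem_ker] at ho ⊢
      have : T (D.qX x y o) = Q D x y (T o) := by
        rw [hTa, hTa, Q_add, Q_add, Q_sub, Q_smul, h4.AX_qX, kX_q, kX_q, kX_q, mX_q,
          La_Q h h2]
      rw [this, ho, Q_zero]
  exact key ho

include h h1 h2 h4 in
theorem r4 (j : J) (o : OX B J) (ho : o ∈ D.OS) : D.eX (mX F j o) = D.AX (D.ι j) o := by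
  set T : OX B J →ₗ[F] OX B J := (D.eX).comp (mX F j) - D.AX (D.ι j) with hT
  have hTa : ∀ o, T o = D.eX (mX F j o) - D.AX (D.ι j) o := fun o => rfl
  have key : D.OS ≤ LinearMap.ker T := by
    refine h4.ind _ ?_ ?_ ?_
    · rw [LinearMap.mem_ker, hTa, h4.AX_uX]
      have : (mX F j (uX : OX B J)) = ((0 : B → J), j) := by
        refine Prod.ext ?_ ?_
        · funext v; simp [mX, uX]
        · simp [mX, uX]
      rw [this, eX_zero, sub_self]
    · intro v
      rw [LinearMap.mem_ker, hTa, h4.AX_bX, sub_eq_zero]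
      refine Prod.ext ?_ (Prod.ext ?_ (Prod.ext ?_ ?_))
      · funext k
        simp only [mX, uX, bX, qX, eX, LinearMap.coe_mk, AddHom.coe_mk, Prod.fst_add,
          Prod.fst_neg, Pi.add_apply, Pi.neg_apply, Pi.zero_apply, add_zero]
        rw [h2.q_fm]
      · funext k
        simp only [mX, uX, bX, qX, eX, LinearMap.coe_mk, AddHom.coe_mk, Prod.snd_add,
          Prod.fst_add, Prod.snd_neg, Prod.fst_neg, Pi.add_apply, Pi.neg_apply, Pi.zero_apply,
          map_zero, neg_zero, zero_add]
        rw [h.ι_act]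
      · funext k w
        simp only [mX, uX, bX, qX, eX, LinearMap.coe_mk, AddHom.coe_mk, Prod.snd_add,
          Prod.fst_add, Prod.snd_neg, Prod.fst_neg, Pi.add_apply, Pi.neg_apply, Pi.zero_apply,
          map_zero, neg_zero, zero_add]
        rw [h.ι_act]
      · funext k w
        simp only [mX, uX, bX, qX, eX, LinearMap.coe_mk, AddHom.coe_mk, Prod.snd_add,
          Prod.snd_neg, Pi.add_apply, Pi.neg_apply, Pi.zero_apply,
          map_zero, neg_zero, zero_add]
        rw [h.ι_act]
    · intro x y o ho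
      rw [LinearMap.mem_ker] at ho ⊢
      have : T (D.qX x y o) = D.qX x y (T o) := by
        rw [hTa, hTa, map_sub, mX_q, eX_Q h4, h4.AX_qX]
      rw [this, ho, map_zero]
  exact sub_eq_zero.mp (key ho)

include h1 h2 in
omit [CharZero F] [IsScalarTower F B B] [SMulCommClass F B B] in
theorem r4' (j : J) (p : (B → J) × J) : mX F j (D.eX p) = D.La (D.ι j) p := by
  obtain ⟨s, k⟩ := p
  refine Prod.ext ?_ ?_
  · funext v
    simp only [mX, eX, La, LinearMap.coe_mk, AddHom.coe_mk, Pi.neg_apply]
    rw [h2.fm_sym]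
  · simp only [mX, eX, La, LinearMap.coe_mk, AddHom.coe_mk]
    rw [h1.act_ι]
    abel

include h h1 h2 h4 in
theorem r5 (j : J) (b : B) (o : OX B J) (ho : o ∈ D.OS) : mX F (D.act j b) o =
    (1/2 : F) • (mX F j (D.AX b o) - D.La b (mX F j o)) + (2/3 : F) • kX F (D.ι j) b o := by
  set T : OX B J →ₗ[F] ((B → J) × J) := mX F (D.act j b) -
    ((1/2 : F) • ((mX F j).comp (D.AX b) - (D.La b).comp (mX F j))
      + (2/3 : F) • kX F (D.ι j) b) with hT
  have hTa : ∀ o, T o = mX F (D.act j b) o -
    ((1/2 : F) • (mX F j (D.AX b o) - D.La b (mX F j o)) + (2/3 : F) • kX F (D.ι j) b o) :=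
    fun o => rfl
  have key : D.OS ≤ LinearMap.ker T := by
    refine h4.ind _ ?_ ?_ ?_
    · rw [LinearMap.mem_ker, hTa, h4.AX_uX]
      refine Prod.ext ?_ ?_
      · funext v
        simp [kX, mX, uX, La, bX]
      · simp only [kX, mX, uX, bX, La, LinearMap.coe_mk, AddHom.coe_mk, Prod.snd_add,
          Prod.snd_sub, Prod.smul_snd, Pi.zero_apply, Pi.neg_apply, Prod.snd_zero,
          smul_zero, add_zero, zero_add, neg_zero]
        module
    · intro v
      rw [LinearMap.mem_ker, hTa, h4.AX_bX]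
      refine Prod.ext ?_ ?_
      · funext w
        have e1 := h.fm_act j b v
        have e2 := h.fm_act j v b
        have e3 := fm_anti h1 j b v w
        have e1' : D.fm (D.act j b) v w = D.fm j (b * v) w := by rw [e1]
        have e2' : D.fm (D.act j v) b w = - D.fm j (b * v) w := by rw [e2, e3]
        simp only [kX, mX, uX, bX, La, qX, LinearMap.coe_mk, AddHom.coe_mk, Prod.fst_add,
          Prod.fst_sub, Prod.smul_fst, Pi.zero_apply, Prod.fst_zero, Prod.snd_add, Prod.fst_neg,
          Prod.snd_neg, Pi.add_apply, Pi.sub_apply, Pi.smul_apply, smul_zero, Pi.neg_apply,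
          map_zero, zero_add, neg_zero]
        rw [e1', e2']
        module
      · have e1 := h1.fm_eq j v b
        have e2 : D.jc v (D.ι j) b = D.jc (D.ι j) b v := h1.jc_cyc _ _ _
        have e3 := h1.jc_ι j b v
        have e4 := h.q_symm v b
        rw [e2, e3, e4] at e1
        simp only [kX, mX, uX, bX, La, qX, LinearMap.coe_mk, AddHom.coe_mk, Prod.snd_add,
          Prod.snd_sub, Prod.smul_snd, Prod.snd_zero, Prod.snd_neg, Prod.fst_neg,
          Prod.fst_add, Pi.add_apply, Pi.neg_apply, Pi.zero_apply, map_zero, neg_zero, zero_add,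
          add_zero]
        rw [e1, e3]
        module
    · intro x y o ho
      rw [LinearMap.mem_ker] at ho ⊢
      have : T (D.qX x y o) = Q D x y (T o) := by
        rw [hTa, hTa, Q_sub, Q_add, Q_smul, Q_smul, Q_sub, h4.AX_qX, kX_q, mX_q, mX_q, mX_q,
          La_Q h h2]
      rw [this, ho, Q_zero]
  exact sub_eq_zero.mp (key ho)

end

end Facts5X

theorem facts5_proof : Stmt_Facts5 := by
  intro F B J _ _ _ _ _ _ _ _ D h h1 h2 h3 h4
  exact
    { La_clif := Facts5X.La_clif h h1 h3
      La_q := fun a b c p => Facts5X.La_Q h h2 a b c p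
      r1 := Facts5X.r1 h h1 h3
      eX_kX := fun a b o _ => rfl
      r3 := fun a b c o ho => Facts5X.r3 h h1 h2 h3 h4 a b c o ho
      r4 := fun j o ho => Facts5X.r4 h h1 h2 h4 j o ho
      r4' := fun j p _ => Facts5X.r4' h1 h2 j p
      r5 := fun j b o ho => Facts5X.r5 h h1 h2 h4 j b o ho
      kX_bX := fun a b c => by
        refine Prod.ext rfl ?_
        exact h1.jc_cyc a b c }

end Pool.Agent.MX
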