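import Pool.Agent.MX.Stmts
import Pool.Agent.Mal.Tower

set_option autoImplicit false
set_option linter.unusedSectionVars false
set_option linter.unusedVariables false

/-! Module J4: the alternating map `j4` and its relation. -/

namespace Pool.Agent.MX

open Equiv
open Pool.Agent.MAL (alt IsMalcev)
open Pool.Agent.Mal.Syz (Cliff Rel XSys)

namespace J4

variable {F B J : Type} [Field F] [CharZero F] [NonUnitalNonAssocRing B] [Module F B]
    [IsScalarTower F B B] [SMulCommClass F B B] [AddCommGroup J] [Module F J]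
    (D : JData F B J)

/-- `w4` as a multilinear map -/
def W : MultilinearMap F (fun _ : Fin 4 => B) D.NS where
  toFun := D.w4
  map_update_add' := by
    intro inst m i x y
    obtain rfl : inst = instDecidableEqFin 4 := Subsingleton.elim _ _
    apply Subtype.ext
    refine Prod.ext ?_ ?_
    · funext v
      fin_cases i <;> simp [JData.w4]
    · fin_cases i <;> simp [JData.w4]
  map_update_smul' := by
    intro inst m i c x
    obtain rfl : inst = instDecidableEqFin 4 := Subsingleton.elim _ _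
    apply Subtype.ext
    refine Prod.ext ?_ ?_
    · funext v
      fin_cases i <;> simp [JData.w4]
    · fin_cases i <;> simp [JData.w4, smul_comm c (4/3 : F)]

/-- the alternating map -/
noncomputable def jm : B [⋀^Fin 4]→ₗ[F] D.NS :=
  (-(1/72) : F) • MultilinearMap.alternatization (W D)

theorem jm_apply (x : Fin 4 → B) : jm D x = D.j4 x := by
  unfold jm JData.j4 alt
  rw [AlternatingMap.smul_apply, MultilinearMap.alternatization_apply]
  congr 1

theorem psum_w4 (z : Fin 4 → B) :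
    Pool.Agent.Mal.Syz.psum 4 D.w4 z = (-72 : F) • jm D z := by
  rw [jm_apply, JData.j4, smul_smul]
  norm_num
  rfl

section altlem

variable {M G : Type} [AddCommGroup G] {K : ℕ}

theorem alt_fst {G' : Type} [AddCommGroup G'] (f : (Fin K → M) → G × G') (x : Fin K → M) :
    (alt K f x).1 = alt K (fun z => (f z).1) x :=
  Pool.Agent.MAL.map_alt (AddMonoidHom.fst G G') f x

theorem alt_snd {G' : Type} [AddCommGroup G'] (f : (Fin K → M) → G × G') (x : Fin K → M) :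
    (alt K f x).2 = alt K (fun z => (f z).2) x :=
  Pool.Agent.MAL.map_alt (AddMonoidHom.snd G G') f x

theorem alt_pi {A : Type} (f : (Fin K → M) → (A → G)) (x : Fin K → M) (w : A) :
    (alt K f x) w = alt K (fun z => f z w) x :=
  Pool.Agent.MAL.map_alt (Pi.evalAddMonoidHom (fun _ : A => G) w) f x

end altlem

theorem alt_val {K : ℕ} {M : Type} (f : (Fin K → M) → D.NS) (x : Fin K → M) :
    ((alt K f x : D.NS) : (B → J) × J) = alt K (fun z => ((f z : D.NS) : (B → J) × J)) x :=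
  Pool.Agent.MAL.map_alt (D.NS.subtype : D.NS →+ ((B → J) × J)) f x

theorem rot5 {M G : Type} [AddCommGroup G] (f : (Fin 5 → M) → G) (x : Fin 5 → M) :
    alt 5 (fun z => f ![z 1, z 2, z 3, z 4, z 0]) x = alt 5 f x := by
  have h := Pool.Agent.MAL.alt_precomp f x (finRotate 5)
  rw [sign_finRotate] at h
  norm_num at h
  rw [← h]
  congr 1
  funext z
  congr 1
  funext i
  fin_cases i <;> rfl

theorem rot6 {M G : Type} [AddCommGroup G] (f : (Fin 6 → M) → G) (x : Fin 6 → M) :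
    alt 6 (fun z => f ![z 1, z 2, z 3, z 4, z 5, z 0]) x = - alt 6 f x := by
  have h := Pool.Agent.MAL.alt_precomp f x (finRotate 6)
  rw [sign_finRotate] at h
  norm_num at h
  rw [← h]
  congr 1
  funext z
  congr 1
  funext i
  fin_cases i <;> rfl

/-- `(0, fm J(z0,z1,z2) z3 z4)` -/
def n5 (z : Fin 5 → B) : D.NS :=
  ⟨(0, D.fm (D.jc (z 0) (z 1) (z 2)) (z 3) (z 4)), ⟨D.ZS.zero_mem, trivial⟩⟩

/-- `(0, fm J(z0,z1,z2) z3 (z4 z5))` -/
def n6 (z : Fin 6 → B) : D.NS :=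
  ⟨(0, D.fm (D.jc (z 0) (z 1) (z 2)) (z 3) (z 4 * z 5)), ⟨D.ZS.zero_mem, trivial⟩⟩

theorem La_val (L : B →ₗ[F] (D.NS →ₗ[F] D.NS)) (hL : ∀ b n, L b n = D.L b n) (b : B) (n : D.NS) :
    ((L b n : D.NS) : (B → J) × J) = D.La b n := by
  rw [hL]; rfl

theorem step5 (hS : D.SupId) (h : D.IsJCP)
    (L : B →ₗ[F] (D.NS →ₗ[F] D.NS)) (hL : ∀ b n, L b n = D.L b n) (v : Fin 5 → B) :
    Pool.Agent.Mal.Syz.psum 5 (fun z => L (z 0) (D.w4 (Fin.tail z))) v
      = (5 : F) • alt 5 (n5 D) v := by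
  apply Subtype.ext
  change ((alt 5 (fun z => L (z 0) (D.w4 (Fin.tail z))) v : D.NS) : (B → J) × J) = _
  rw [alt_val, Submodule.coe_smul, alt_val]
  simp only [La_val D L hL]
  refine Prod.ext ?_ ?_
  · funext w
    rw [alt_fst, alt_pi, Prod.smul_fst, Pi.smul_apply, alt_fst, alt_pi]
    have h1 : alt 5 (fun z : Fin 5 → B => (D.La (z 0) (D.w4 (Fin.tail z) : (B → J) × J)).1 w) v =
        alt 5 (fun y : Fin 5 → B => (-(4/3) : F) •
          D.fm (D.jc (y 0) (y 1) (y 2)) (y 3 * y 4) w) v := by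
      refine Eq.trans ?_ (rot5 (fun y : Fin 5 → B => (-(4/3) : F) •
          D.fm (D.jc (y 0) (y 1) (y 2)) (y 3 * y 4) w) v)
      congr 1
      funext z
      change -(D.fm ((4/3 : F) • D.act (D.jc (z 1) (z 2) (z 3)) (z 4)) (z 0) w) =
        (-(4/3) : F) • D.fm (D.jc (z 1) (z 2) (z 3)) (z 4 * z 0) w
      rw [map_smul, LinearMap.smul_apply, LinearMap.smul_apply, h.fm_act, neg_smul]
    rw [h1, Pool.Agent.MAL.alt_smul, hS.i4 v w, smul_zero]
    have h2 : (fun z : Fin 5 → B => ((n5 D z : D.NS) : (B → J) × J).1 w) = fun _ => (0 : J) := rfl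
    rw [h2, Pool.Agent.MAL.alt_zero, smul_zero]
  · rw [alt_snd, Prod.smul_snd, alt_snd]
    have h1 : alt 5 (fun z : Fin 5 → B => (D.La (z 0) (D.w4 (Fin.tail z) : (B → J) × J)).2) v =
        alt 5 (fun y : Fin 5 → B => D.fm (D.jc (y 0) (y 1) (y 2)) (y 3) (y 4) -
          (4/3 : F) • D.act (D.act (D.jc (y 0) (y 1) (y 2)) (y 3)) (y 4)) v := by
      refine Eq.trans ?_ (rot5 (fun y : Fin 5 → B => D.fm (D.jc (y 0) (y 1) (y 2)) (y 3) (y 4) -
          (4/3 : F) • D.act (D.act (D.jc (y 0) (y 1) (y 2)) (y 3)) (y 4)) v)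
      congr 1
      funext z
      change D.fm (D.jc (z 1) (z 2) (z 3)) (z 4) (z 0) -
        D.act ((4/3 : F) • D.act (D.jc (z 1) (z 2) (z 3)) (z 4)) (z 0) =
        D.fm (D.jc (z 1) (z 2) (z 3)) (z 4) (z 0) -
          (4/3 : F) • D.act (D.act (D.jc (z 1) (z 2) (z 3)) (z 4)) (z 0)
      rw [map_smul, LinearMap.smul_apply]
    rw [h1, Pool.Agent.MAL.alt_sub, Pool.Agent.MAL.alt_smul]
    have h3 := hS.i3 v
    rw [Pool.Agent.MAL.alt_add, Pool.Agent.MAL.alt_smul] at h3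
    change _ = (5 : F) • alt 5 (fun z : Fin 5 → B => D.fm (D.jc (z 0) (z 1) (z 2)) (z 3) (z 4)) v
    linear_combination (norm := module) (-(4/3) : F) • h3

theorem up5 (hS : D.SupId) (h : D.IsJCP)
    (L : B →ₗ[F] (D.NS →ₗ[F] D.NS)) (hL : ∀ b n, L b n = D.L b n) (v : Fin 5 → B) :
    Pool.Agent.Mal.Syz.up L (jm D) v = (-(1/72) : F) • alt 5 (n5 D) v := by
  have h1 := Pool.Agent.Mal.Syz.psum_step L D.w4 (-72 : F) (jm D) (psum_w4 D) v
  rw [step5 D hS h L hL, ← Pool.Agent.Mal.Syz.up_smul, AlternatingMap.smul_apply] at h1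
  push_cast at h1
  linear_combination (norm := module) ((1/360) : F) • h1

theorem psum_n5 (hS : D.SupId) (h : D.IsJCP)
    (L : B →ₗ[F] (D.NS →ₗ[F] D.NS)) (hL : ∀ b n, L b n = D.L b n) (v : Fin 5 → B) :
    Pool.Agent.Mal.Syz.psum 5 (n5 D) v = (-72 : F) • Pool.Agent.Mal.Syz.up L (jm D) v := by
  rw [up5 D hS h L hL, smul_smul]
  norm_num
  rfl

theorem step6 (h : D.IsJCP) (h2 : D.Facts2)
    (L : B →ₗ[F] (D.NS →ₗ[F] D.NS)) (hL : ∀ b n, L b n = D.L b n) (v : Fin 6 → B) :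
    Pool.Agent.Mal.Syz.psum 6 (fun z => L (z 0) (n5 D (Fin.tail z))) v
      = alt 6 (n6 D) v := by
  apply Subtype.ext
  change ((alt 6 (fun z => L (z 0) (n5 D (Fin.tail z))) v : D.NS) : (B → J) × J) = _
  rw [alt_val, alt_val]
  simp only [La_val D L hL]
  refine Prod.ext ?_ ?_
  · funext w
    rw [alt_fst, alt_pi, alt_fst, alt_pi]
    have h1 : (fun z : Fin 6 → B => (D.La (z 0) (n5 D (Fin.tail z) : (B → J) × J)).1 w) =
        fun z => -(D.q (z 5) (z 0) (D.fm (D.jc (z 1) (z 2) (z 3)) (z 4) w)) := by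
      funext z
      change -(D.fm (D.fm (D.jc (z 1) (z 2) (z 3)) (z 4) (z 5)) (z 0) w) = _
      rw [h2.p5]
    have h4 : (fun z : Fin 6 → B => ((n6 D z : D.NS) : (B → J) × J).1 w) = fun _ => (0 : J) := rfl
    rw [h1, h4, Pool.Agent.MAL.alt_zero, Pool.Agent.MAL.alt_neg, neg_eq_zero]
    have h3 := Pool.Agent.MAL.alt_precomp (K := 6) (fun z : Fin 6 → B =>
      D.q (z 5) (z 0) (D.fm (D.jc (z 1) (z 2) (z 3)) (z 4) w)) v (Equiv.swap 0 5)
    rw [Equiv.Perm.sign_swap (by decide)] at h3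
    have h5 : (fun z : Fin 6 → B => (fun z : Fin 6 → B =>
        D.q (z 5) (z 0) (D.fm (D.jc (z 1) (z 2) (z 3)) (z 4) w)) (fun i => z (Equiv.swap 0 5 i))) =
        fun z : Fin 6 → B => D.q (z 5) (z 0) (D.fm (D.jc (z 1) (z 2) (z 3)) (z 4) w) := by
      funext z
      change D.q (z 0) (z 5) (D.fm (D.jc (z 1) (z 2) (z 3)) (z 4) w) = _
      rw [h.q_symm]
    rw [h5] at h3
    have h6 : (2 : F) • alt 6 (fun z : Fin 6 → B =>
        D.q (z 5) (z 0) (D.fm (D.jc (z 1) (z 2) (z 3)) (z 4) w)) v = 0 := by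
      rw [two_smul]
      nth_rewrite 1 [h3]
      simp
    exact (smul_eq_zero.1 h6).resolve_left two_ne_zero
  · rw [alt_snd, alt_snd]
    have h1 : alt 6 (fun z : Fin 6 → B => (D.La (z 0) (n5 D (Fin.tail z) : (B → J) × J)).2) v =
        - -alt 6 (fun y : Fin 6 → B => D.fm (D.jc (y 0) (y 1) (y 2)) (y 3) (y 4 * y 5)) v := by
      rw [← rot6, ← Pool.Agent.MAL.alt_neg]
      congr 1
      funext z
      change (0 : J) - D.act (D.fm (D.jc (z 1) (z 2) (z 3)) (z 4) (z 5)) (z 0) =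
        -(D.fm (D.jc (z 1) (z 2) (z 3)) (z 4) (z 5 * z 0))
      rw [h.fm_mul, zero_sub]
    rw [h1, neg_neg]
    rfl

theorem up6 (hS : D.SupId) (h : D.IsJCP) (h2 : D.Facts2)
    (L : B →ₗ[F] (D.NS →ₗ[F] D.NS)) (hL : ∀ b n, L b n = D.L b n) (v : Fin 6 → B) :
    Pool.Agent.Mal.Syz.up L (Pool.Agent.Mal.Syz.up L (jm D)) v
      = (-(1/432) : F) • alt 6 (n6 D) v := by
  have h1 := Pool.Agent.Mal.Syz.psum_step L (n5 D) (-72 : F) (Pool.Agent.Mal.Syz.up L (jm D))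
    (psum_n5 D hS h L hL) v
  rw [step6 D h h2 L hL, ← Pool.Agent.Mal.Syz.up_smul, AlternatingMap.smul_apply] at h1
  push_cast at h1
  linear_combination (norm := module) ((1/432) : F) • h1

theorem clif (h : D.IsJCP) (h1 : D.Facts1) (h3 : D.Facts3) (a b : B) (p : (B → J) × J)
    (hp : p ∈ D.NS) : D.La a (D.La b p) + D.La b (D.La a p) =
    (-2 : F) • ((fun v => D.q a b (p.1 v), D.q a b p.2) : (B → J) × J) := by
  obtain ⟨s, j⟩ := p
  have hs : s ∈ D.ZS := hp.1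
  refine Prod.ext ?_ ?_
  · funext v
    change -(D.fm (s b - D.act j b) a v) + -(D.fm (s a - D.act j a) b v) = (-2 : F) • D.q a b (s v)
    rw [map_sub, map_sub]
    simp only [LinearMap.sub_apply]
    rw [h3.z_p5 s hs, h3.z_p5 s hs, h.fm_act, h.fm_act, h1.anti b a, h.q_symm b a]
    simp only [map_neg, LinearMap.neg_apply]
    module
  · change (-(D.fm j b a) - D.act (s b - D.act j b) a) +
      (-(D.fm j a b) - D.act (s a - D.act j a) b) = (-2 : F) • D.q a b j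
    rw [map_sub, map_sub]
    simp only [LinearMap.sub_apply]
    rw [← h3.z_mul s hs, ← h3.z_mul s hs, h1.anti b a]
    have h5 : s (-(a * b)) = - s (a * b) := by
      have := h3.z_smul s hs (-1) (a * b)
      simpa using this
    have h6 : (2 : F) • D.q a b j = D.q a b j + D.q b a j := by
      rw [h.q_symm b a, two_smul]
    have h7 : D.jc a (D.ι j) b = - D.jc b (D.ι j) a := by
      rw [h1.jc_cyc a (D.ι j) b, h1.jc_swap (D.ι j) b a]
    rw [h5]
    have h8 : (-2 : F) • D.q a b j = -((2 : F) • D.q a b j) := by rw [neg_smul]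
    rw [h8, h6, D.q_apply, D.q_apply, h7]
    module

theorem acu (h : D.IsJCP) (h1 : D.Facts1) (h3 : D.Facts3)
    (L : B →ₗ[F] (D.NS →ₗ[F] D.NS)) (hL : ∀ b n, L b n = D.L b n) (x : B) (v : Fin 5 → B) :
    ((Pool.Agent.Mal.Syz.un (Pool.Agent.Mal.Syz.ac L x) (jm D) v : D.NS) : (B → J) × J) =
      (1/36 : F) • alt 5 (fun z => ((fun w => D.q x (z 4) (D.fm (D.jc (z 0) (z 1) (z 2)) (z 3) w),
        (4/3 : F) • D.act (D.q x (z 0) (D.jc (z 1) (z 2) (z 3))) (z 4)) : (B → J) × J)) v := by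
  have h2 := Pool.Agent.Mal.Syz.psum_step (Pool.Agent.Mal.Syz.ac L x) D.w4 (-72 : F) (jm D)
    (psum_w4 D) v
  have h4 := congrArg (fun n : D.NS => (n : (B → J) × J)) h2
  change ((alt 5 (fun z => Pool.Agent.Mal.Syz.ac L x (z 0) (D.w4 (Fin.tail z))) v : D.NS) :
    (B → J) × J) = ((-72 : F) • Pool.Agent.Mal.Syz.un (Pool.Agent.Mal.Syz.ac L x) (jm D) v : D.NS)
    at h4
  rw [alt_val, Submodule.coe_smul] at h4
  have h5 : (fun z : Fin 5 → B => ((Pool.Agent.Mal.Syz.ac L x (z 0) (D.w4 (Fin.tail z)) : D.NS) :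
      (B → J) × J)) = fun z => (-2 : F) • (((fun w => D.q x (z 0)
        (D.fm (D.jc (z 1) (z 2) (z 3)) (z 4) w)),
        (4/3 : F) • D.act (D.q x (z 0) (D.jc (z 1) (z 2) (z 3))) (z 4)) : (B → J) × J) := by
    funext z
    rw [Pool.Agent.Mal.Syz.ac_apply, Submodule.coe_add, La_val D L hL, La_val D L hL,
      La_val D L hL, La_val D L hL, clif D h h1 h3 x (z 0) _ (D.w4 (Fin.tail z)).2]
    congr 1
    refine Prod.ext ?_ ?_
    · rfl
    · change D.q x (z 0) ((4/3 : F) • D.act (D.jc (z 1) (z 2) (z 3)) (z 4)) = _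
      rw [map_smul, h.q_act]
  rw [h5, Pool.Agent.MAL.alt_smul] at h4
  have h6 : alt 5 (fun z : Fin 5 → B => (((fun w => D.q x (z 0)
        (D.fm (D.jc (z 1) (z 2) (z 3)) (z 4) w)),
        (4/3 : F) • D.act (D.q x (z 0) (D.jc (z 1) (z 2) (z 3))) (z 4)) : (B → J) × J)) v =
      alt 5 (fun z => ((fun w => D.q x (z 4) (D.fm (D.jc (z 0) (z 1) (z 2)) (z 3) w),
        (4/3 : F) • D.act (D.q x (z 0) (D.jc (z 1) (z 2) (z 3))) (z 4)) : (B → J) × J)) v := by
    refine Prod.ext ?_ ?_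
    · funext w
      rw [alt_fst, alt_pi, alt_fst, alt_pi]
      exact rot5 (fun z : Fin 5 → B => D.q x (z 4) (D.fm (D.jc (z 0) (z 1) (z 2)) (z 3) w)) v
    · rw [alt_snd, alt_snd]
  rw [h6] at h4
  linear_combination (norm := module) ((1/72) : F) • h4

theorem alt6 (h : D.IsJCP) (h1 : D.Facts1) (x : B) (v : Fin 5 → B) :
    alt 6 (fun z => D.fm (D.jc (z 0) (z 1) (z 2)) (z 3) (z 4 * z 5)) (Fin.cons x v : Fin 6 → B) =
      (4 : F) • alt 5 (fun z => D.fm (D.jc x (z 0) (z 1)) (z 2) (z 3 * z 4)) v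
      + (2 : F) • alt 5 (fun z => D.fm (D.jc (z 0) (z 1) (z 2)) (z 3) (x * z 4)) v := by
  rw [Pool.Agent.MAL.alt_cons, Fin.sum_univ_six]
  have e0 : alt 5 (fun z : Fin 5 → B => (fun z : Fin 6 → B =>
      D.fm (D.jc (z 0) (z 1) (z 2)) (z 3) (z 4 * z 5))
        ((0 : Fin 6).insertNth (α := fun _ => B) x z)) v =
      alt 5 (fun z => D.fm (D.jc x (z 0) (z 1)) (z 2) (z 3 * z 4)) v := rfl
  have e1 : alt 5 (fun z : Fin 5 → B => (fun z : Fin 6 → B =>
      D.fm (D.jc (z 0) (z 1) (z 2)) (z 3) (z 4 * z 5))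
        ((1 : Fin 6).insertNth (α := fun _ => B) x z)) v =
      - alt 5 (fun z => D.fm (D.jc x (z 0) (z 1)) (z 2) (z 3 * z 4)) v := by
    rw [← Pool.Agent.MAL.alt_neg]
    congr 1
    funext z
    change D.fm (D.jc (z 0) x (z 1)) (z 2) (z 3 * z 4) = _
    rw [h1.jc_swap (z 0) x (z 1), map_neg, LinearMap.neg_apply, LinearMap.neg_apply]
  have e2 : alt 5 (fun z : Fin 5 → B => (fun z : Fin 6 → B =>
      D.fm (D.jc (z 0) (z 1) (z 2)) (z 3) (z 4 * z 5))
        ((2 : Fin 6).insertNth (α := fun _ => B) x z)) v =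
      alt 5 (fun z => D.fm (D.jc x (z 0) (z 1)) (z 2) (z 3 * z 4)) v := by
    congr 1
    funext z
    change D.fm (D.jc (z 0) (z 1) x) (z 2) (z 3 * z 4) = _
    rw [h1.jc_cyc x (z 0) (z 1)]
  have e3 : alt 5 (fun z : Fin 5 → B => (fun z : Fin 6 → B =>
      D.fm (D.jc (z 0) (z 1) (z 2)) (z 3) (z 4 * z 5))
        ((3 : Fin 6).insertNth (α := fun _ => B) x z)) v =
      - alt 5 (fun z => D.fm (D.jc x (z 0) (z 1)) (z 2) (z 3 * z 4)) v := by
    rw [← Pool.Agent.MAL.alt_neg]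
    congr 1
    funext z
    change D.fm (D.jc (z 0) (z 1) (z 2)) x (z 3 * z 4) = _
    rw [h1.fm_alt (z 0) (z 1) (z 2) x, LinearMap.neg_apply, ← h1.jc_cyc x (z 0) (z 1)]
  have e4 : alt 5 (fun z : Fin 5 → B => (fun z : Fin 6 → B =>
      D.fm (D.jc (z 0) (z 1) (z 2)) (z 3) (z 4 * z 5))
        ((4 : Fin 6).insertNth (α := fun _ => B) x z)) v =
      alt 5 (fun z => D.fm (D.jc (z 0) (z 1) (z 2)) (z 3) (x * z 4)) v := rfl
  have e5 : alt 5 (fun z : Fin 5 → B => (fun z : Fin 6 → B =>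
      D.fm (D.jc (z 0) (z 1) (z 2)) (z 3) (z 4 * z 5))
        ((5 : Fin 6).insertNth (α := fun _ => B) x z)) v =
      - alt 5 (fun z => D.fm (D.jc (z 0) (z 1) (z 2)) (z 3) (x * z 4)) v := by
    rw [← Pool.Agent.MAL.alt_neg]
    congr 1
    funext z
    change D.fm (D.jc (z 0) (z 1) (z 2)) (z 3) (z 4 * x) = _
    rw [h1.anti (z 4) x, map_neg]
  rw [e0, e1, e2, e3, e4, e5]
  simp only [Fin.val_zero, Fin.val_one, Fin.val_two, pow_zero, pow_one]
  have f3 : (((3 : Fin 6) : ℕ)) = 3 := rfl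
  have f4 : (((4 : Fin 6) : ℕ)) = 4 := rfl
  have f5 : (((5 : Fin 6) : ℕ)) = 5 := rfl
  rw [f3, f4, f5]
  module

end J4

open J4 in
theorem j4_proof : Stmt_J4 := by
  intro F B J _ _ _ _ _ _ _ _ D h h1 h2 h3 hS L hL
  refine ⟨jm D, jm_apply D, ?_⟩
  intro x v
  apply Subtype.ext
  rw [La_val D L hL, Submodule.coe_add, Submodule.coe_smul, acu D h h1 h3 L hL,
    up5 D hS h L hL, up6 D hS h h2 L hL, Submodule.coe_smul, Submodule.coe_smul, alt_val, alt_val,
    map_smul]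
  have hz : ((alt 5 (fun z => ((n5 D z : D.NS) : (B → J) × J)) v) : (B → J) × J) =
      (0, alt 5 (fun z : Fin 5 → B => D.fm (D.jc (z 0) (z 1) (z 2)) (z 3) (z 4)) v) := by
    refine Prod.ext ?_ ?_
    · rw [alt_fst]
      exact Pool.Agent.MAL.alt_zero v
    · rw [alt_snd]; rfl
  rw [hz, D.La_apply]
  refine Prod.ext ?_ ?_
  · funext w
    simp only [Prod.smul_fst, Prod.fst_add, Pi.add_apply, Pi.smul_apply]
    rw [alt_fst, alt_pi, alt_fst, alt_pi]
    have e1 : alt 6 (fun z => ((n6 D z : D.NS) : (B → J) × J).1 w) (Fin.cons x v) = 0 :=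
      Pool.Agent.MAL.alt_zero _
    have e2 : D.fm (alt 5 (fun z : Fin 5 → B =>
        D.fm (D.jc (z 0) (z 1) (z 2)) (z 3) (z 4)) v) x w =
        alt 5 (fun z : Fin 5 → B => D.q x (z 4) (D.fm (D.jc (z 0) (z 1) (z 2)) (z 3) w)) v := by
      have e3 := Pool.Agent.MAL.map_alt ((((D.fm.flip x).flip w) : J →ₗ[F] J) : J →+ J)
        (fun z : Fin 5 → B => D.fm (D.jc (z 0) (z 1) (z 2)) (z 3) (z 4)) v
      refine e3.trans ?_
      congr 1
      funext z
      have e4 : D.fm (D.fm (D.jc (z 0) (z 1) (z 2)) (z 3) (z 4)) x w =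
          D.q x (z 4) (D.fm (D.jc (z 0) (z 1) (z 2)) (z 3) w) := by
        rw [h2.p5, h.q_symm]
      exact e4
    rw [e1, e2]
    module
  · simp only [Prod.smul_snd, Prod.snd_add]
    rw [alt_snd, alt_snd]
    have e1 : alt 6 (fun z => ((n6 D z : D.NS) : (B → J) × J).2) (Fin.cons x v) =
      (4 : F) • alt 5 (fun z => D.fm (D.jc x (z 0) (z 1)) (z 2) (z 3 * z 4)) v
      + (2 : F) • alt 5 (fun z => D.fm (D.jc (z 0) (z 1) (z 2)) (z 3) (x * z 4)) v :=
      alt6 D h h1 x v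
    have e2 : D.act (alt 5 (fun z : Fin 5 → B =>
        D.fm (D.jc (z 0) (z 1) (z 2)) (z 3) (z 4)) v) x =
        alt 5 (fun z : Fin 5 → B => D.act (D.fm (D.jc (z 0) (z 1) (z 2)) (z 3) (z 4)) x) v :=
      Pool.Agent.MAL.map_alt (((D.act.flip x) : J →ₗ[F] J) : J →+ J)
        (fun z : Fin 5 → B => D.fm (D.jc (z 0) (z 1) (z 2)) (z 3) (z 4)) v
    have e3 := hS.r6 v x
    rw [Pool.Agent.MAL.alt_sub, Pool.Agent.MAL.alt_add, Pool.Agent.MAL.alt_add,
      Pool.Agent.MAL.alt_smul, Pool.Agent.MAL.alt_smul, Pool.Agent.MAL.alt_smul] at e3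
    rw [e1, e2, Pool.Agent.MAL.alt_smul]
    simp only [Pi.zero_apply]
    linear_combination (norm := module) (1/216 : F) • e3

end Pool.Agent.MX
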