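import Pool.Agent.MX.Stmts
import Pool.Agent.MAL.Core
import Pool.Agent.MAL.Disp

set_option autoImplicit false

/-! Theorem X: the square of a Malcev algebra is a `J`-cp algebra. -/

namespace Pool.Agent.MX

open Equiv
open Pool.Agent.MAL (alt IsMalcev T Q kap J3 w5)

section lift

theorem exists_lift {F V W X : Type} [Field F] [AddCommGroup V] [Module F V] [AddCommGroup W]
    [Module F W] (j : X → V) (t : X → W) (hj : Submodule.span F (Set.range j) = ⊤)
    (h : ∀ c : X →₀ F, Finsupp.linearCombination F j c = 0 →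
      Finsupp.linearCombination F t c = 0) :
    ∃ f : V →ₗ[F] W, ∀ x, f (j x) = t x := by
  have hs : Function.Surjective (Finsupp.linearCombination F j) := by
    rw [← LinearMap.range_eq_top, Finsupp.range_linearCombination, hj]
  obtain ⟨g, hg⟩ := LinearMap.exists_rightInverse_of_surjective
    (Finsupp.linearCombination F j) (LinearMap.range_eq_top.mpr hs)
  refine ⟨(Finsupp.linearCombination F t).comp g, fun x => ?_⟩
  have h1 : Finsupp.linearCombination F j (g (j x) - Finsupp.single x 1) = 0 := by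
    rw [map_sub, Finsupp.linearCombination_single, one_smul]
    have h2 : Finsupp.linearCombination F j (g (j x)) = j x := by
      have := congrArg (fun φ : V →ₗ[F] V => φ (j x)) hg
      exact this
    rw [h2, sub_self]
  have h3 := h _ h1
  rw [map_sub, Finsupp.linearCombination_single, one_smul, sub_eq_zero] at h3
  exact h3

end lift

section four

variable {M G : Type} [AddCommGroup G]

theorem alt4p (τ : Perm (Fin 4)) (g : M → M → M → M → G) (x : Fin 4 → M) :
    alt 4 (fun z => g (z (τ 0)) (z (τ 1)) (z (τ 2)) (z (τ 3))) x =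
      (Perm.sign τ : ℤ) • alt 4 (fun z => g (z 0) (z 1) (z 2) (z 3)) x :=
  MAL.alt_precomp (fun z => g (z 0) (z 1) (z 2) (z 3)) x τ

theorem alt4a (g : M → M → M → M → G) (x : Fin 4 → M) :
    alt 4 (fun z => g (z 1) (z 2) (z 0) (z 3)) x = alt 4 (fun z => g (z 0) (z 1) (z 2) (z 3)) x := by
  have h := alt4p (swap 0 1 * swap 1 2) g x
  have h2 : ((Perm.sign (swap 0 1 * swap 1 2 : Perm (Fin 4))) : ℤ) = 1 := by decide
  rw [h2, one_smul] at h
  exact h

theorem alt4b (g : M → M → M → M → G) (x : Fin 4 → M) :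
    alt 4 (fun z => g (z 2) (z 0) (z 1) (z 3)) x = alt 4 (fun z => g (z 0) (z 1) (z 2) (z 3)) x := by
  have h := alt4p (swap 1 2 * swap 0 1) g x
  have h2 : ((Perm.sign (swap 1 2 * swap 0 1 : Perm (Fin 4))) : ℤ) = 1 := by decide
  rw [h2, one_smul] at h
  exact h

theorem alt4c (g : M → M → M → M → G) (x : Fin 4 → M) :
    alt 4 (fun z => g (z 2) (z 3) (z 0) (z 1)) x = alt 4 (fun z => g (z 0) (z 1) (z 2) (z 3)) x := by
  have h := alt4p (swap 0 2 * swap 1 3) g x
  have h2 : ((Perm.sign (swap 0 2 * swap 1 3 : Perm (Fin 4))) : ℤ) = 1 := by decide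
  rw [h2, one_smul] at h
  exact h

theorem alt4d (g : M → M → M → M → G) (x : Fin 4 → M) :
    alt 4 (fun z => g (z 3) (z 0) (z 1) (z 2)) x =
      - alt 4 (fun z => g (z 0) (z 1) (z 2) (z 3)) x := by
  have h := alt4p (swap 0 3 * swap 3 2 * swap 2 1) g x
  have h2 : ((Perm.sign (swap 0 3 * swap 3 2 * swap 2 1 : Perm (Fin 4))) : ℤ) = -1 := by decide
  rw [h2, neg_smul, one_smul] at h
  exact h

end four

section general

variable {F B : Type} [Field F] [NonUnitalNonAssocRing B] [Module F B]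

theorem T_t5 (x : Fin 4 → B) (v : B) :
    alt 4 (fun z => (5 : F) • ((jac (z 0) (z 1) (z 2) * v) * z 3)
      + (9 : F) • jac (z 0 * z 1) (z 2) (v * z 3)
      + (3 : F) • jac ((v * z 0) * z 1) (z 2) (z 3)) x = T x v := by
  simp only [jac, T, w5, add_mul, smul_add, MAL.alt_add, MAL.alt_sub, MAL.alt_smul]
  rw [alt4a (fun a b c d => ((((a * b) * c) * v) * d)) x,
    alt4b (fun a b c d => ((((a * b) * c) * v) * d)) x,
    alt4c (fun a b c d => (a * (v * b)) * (c * d)) x,
    alt4d (fun a b c d => ((v * a) * (b * c)) * d) x,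
    alt4c (fun a b c d => (a * b) * ((v * c) * d)) x,
    alt4d (fun a b c d => (a * ((v * b) * c)) * d) x]
  module

/-- a known identity of Malcev algebras -/
theorem jac_mul (F : Type) [Field F] [CharZero F] [Module F B] (hB : IsMalcev B) (x y z a : B) :
    jac a x (y * z) + jac a y (z * x) + jac a z (x * y) = - (jac x y z * a + jac x y z * a) := by
  have e1 := hB.sagle F a y x z
  have e2 := hB.sagle F a z y x
  have e3 := hB.sagle F a x z y
  linear_combination (norm := skip) e1 + e2 + e3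
  simp only [jac, add_mul, hB.anti (x * (y * z)) a, hB.anti (y * z) a, hB.anti z x,
    hB.anti y (x * z), hB.anti ((x * z) * y) a, hB.anti (x * z) a, hB.anti z (x * y),
    hB.anti ((x * y) * z) a, hB.anti (x * y) a, hB.anti (y * z) x, hB.anti y x, hB.anti z a,
    hB.anti z y, hB.anti x a, hB.anti y a, neg_mul, mul_neg, neg_neg]
  abel

variable (F B) in
/-- the ideal of the Jacobians -/
def JI : Submodule F B := Submodule.span F {m : B | ∃ a b c : B, jac a b c = m}

theorem jac_mem (a b c : B) : jac a b c ∈ JI F B := Submodule.subset_span ⟨a, b, c, rfl⟩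

theorem JI_mul [CharZero F] [IsScalarTower F B B] (hB : IsMalcev B) {j : B} (hj : j ∈ JI F B)
    (a : B) : j * a ∈ JI F B := by
  unfold JI at hj
  induction hj using Submodule.span_induction with
  | mem v hv =>
    obtain ⟨x, y, z, rfl⟩ := hv
    have h := jac_mul F hB x y z a
    have h2 : jac x y z * a = (-(1/2) : F) • (jac a x (y * z) + jac a y (z * x)
        + jac a z (x * y)) := by
      rw [h]; module
    rw [h2]
    exact Submodule.smul_mem _ _ (Submodule.add_mem _ (Submodule.add_mem _ (jac_mem _ _ _)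
      (jac_mem _ _ _)) (jac_mem _ _ _))
  | zero => rw [zero_mul]; exact Submodule.zero_mem _
  | add u v _ _ hu hv => rw [add_mul]; exact Submodule.add_mem _ hu hv
  | smul c u _ hu => rw [smul_mul_assoc]; exact Submodule.smul_mem _ _ hu

/-- induction for the ideal of the Jacobians -/
theorem JI_ind {P : JI F B → Prop} (h0 : P 0) (hadd : ∀ j k, P j → P k → P (j + k))
    (hsmul : ∀ (c : F) j, P j → P (c • j)) (hj : ∀ a b c : B, P ⟨jac a b c, jac_mem a b c⟩)
    (j : JI F B) : P j := by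
  obtain ⟨v, hv⟩ := j
  unfold JI at hv
  induction hv using Submodule.span_induction with
  | mem v hv => obtain ⟨x, y, z, rfl⟩ := hv; exact hj x y z
  | zero => exact h0
  | add u v hu hv h1 h2 => exact hadd _ _ h1 h2
  | smul c u hu h1 => exact hsmul c _ h1

section data

variable [CharZero F] [IsScalarTower F B B] [SMulCommClass F B B]

/-- multiplication in the ideal -/
def actL (hB : IsMalcev B) : JI F B →ₗ[F] B →ₗ[F] JI F B :=
  LinearMap.mk₂ F (fun j a => ⟨(j : B) * a, JI_mul hB j.2 a⟩)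
    (fun j k a => Subtype.ext (add_mul (j : B) (k : B) a))
    (fun c j a => Subtype.ext (smul_mul_assoc c (j : B) a))
    (fun j a b => Subtype.ext (mul_add (j : B) a b))
    (fun c j a => Subtype.ext (mul_smul_comm c (j : B) a))

theorem actL_coe (hB : IsMalcev B) (j : JI F B) (a : B) :
    ((actL hB j a : JI F B) : B) = (j : B) * a := rfl

variable (F B) in
/-- the Jacobian -/
def jcL : B →ₗ[F] B →ₗ[F] B →ₗ[F] JI F B :=
  LinearMap.mk₂ F (fun a b =>
    { toFun := fun c => (⟨jac a b c, jac_mem a b c⟩ : JI F B)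
      map_add' := fun c d => Subtype.ext (by
        simp only [jac, mul_add, add_mul, Submodule.coe_add]; abel)
      map_smul' := fun r c => Subtype.ext (by
        simp only [jac, mul_smul_comm, smul_mul_assoc, Submodule.coe_smul, RingHom.id_apply,
          smul_add]) })
    (fun a a' b => LinearMap.ext fun c => Subtype.ext (by
      simp only [LinearMap.coe_mk, AddHom.coe_mk, LinearMap.add_apply, jac, mul_add, add_mul,
        Submodule.coe_add]; abel))
    (fun r a b => LinearMap.ext fun c => Subtype.ext (by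
      simp only [LinearMap.coe_mk, AddHom.coe_mk, LinearMap.smul_apply, jac, mul_smul_comm,
        smul_mul_assoc, Submodule.coe_smul, smul_add]))
    (fun a b b' => LinearMap.ext fun c => Subtype.ext (by
      simp only [LinearMap.coe_mk, AddHom.coe_mk, LinearMap.add_apply, jac, mul_add, add_mul,
        Submodule.coe_add]; abel))
    (fun r a b => LinearMap.ext fun c => Subtype.ext (by
      simp only [LinearMap.coe_mk, AddHom.coe_mk, LinearMap.smul_apply, jac, mul_smul_comm,
        smul_mul_assoc, Submodule.coe_smul, smul_add]))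

omit [CharZero F] in
theorem jcL_coe (a b c : B) : ((jcL F B a b c : JI F B) : B) = jac a b c := rfl

/-- the data without `fm` -/
def D0 (hB : IsMalcev B) : JData F B (JI F B) where
  ι := (JI F B).subtype
  act := actL hB
  jc := jcL F B
  fm := 0

theorem t5_coe (hB : IsMalcev B) (v : B) (x : Fin 4 → B) :
    (((D0 (F := F) hB).t5 v x : JI F B) : B) = (5 : F) • ((jac (x 0) (x 1) (x 2) * v) * x 3)
      + (9 : F) • jac (x 0 * x 1) (x 2) (v * x 3)
      + (3 : F) • jac ((v * x 0) * x 1) (x 2) (x 3) := rfl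

theorem alt_t5_coe (hB : IsMalcev B) (v : B) (x : Fin 4 → B) :
    ((alt 4 ((D0 (F := F) hB).t5 v) x : JI F B) : B) = T x v := by
  have h := MAL.map_alt (JI F B).subtype.toAddMonoidHom ((D0 (F := F) hB).t5 v) x
  have h2 := T_t5 (F := F) x v
  rw [← h2]
  exact h

theorem t5_add (hB : IsMalcev B) (v : B) (z : Fin 4 → B) (i : Fin 4) (a b : B) :
    (D0 (F := F) hB).t5 v (Function.update z i (a + b)) =
      (D0 (F := F) hB).t5 v (Function.update z i a)
        + (D0 (F := F) hB).t5 v (Function.update z i b) := by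
  fin_cases i <;>
    (simp [Function.update, JData.t5, add_mul, mul_add]
     module)

theorem t5_smul (hB : IsMalcev B) (v : B) (z : Fin 4 → B) (i : Fin 4) (c : F) (a : B) :
    (D0 (F := F) hB).t5 v (Function.update z i (c • a)) =
      c • (D0 (F := F) hB).t5 v (Function.update z i a) := by
  fin_cases i <;>
    (simp [Function.update, JData.t5, smul_mul_assoc, mul_smul_comm]
     module)

theorem upd3 (x y z a : B) : (![x, y, z, a] : Fin 4 → B) = Function.update ![x, y, z, 0] 3 a := by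
  funext i; fin_cases i <;> rfl

/-- `fm` of a Jacobian -/
def fmB (hB : IsMalcev B) (p : B × B × B) : B →ₗ[F] B →ₗ[F] JI F B :=
  LinearMap.mk₂ F
    (fun a v => (1/216 : F) • alt 4 ((D0 (F := F) hB).t5 v) ![p.1, p.2.1, p.2.2, a])
    (fun a a' v => by
      rw [upd3, upd3 _ _ _ a, upd3 _ _ _ a', MAL.alt_update_add _ (t5_add hB v), smul_add])
    (fun c a v => by
      rw [upd3, upd3 _ _ _ a, MAL.alt_update_smul _ (t5_smul hB v), smul_comm])
    (fun a v v' => by
      rw [← smul_add, ← MAL.alt_add]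
      congr 2
      funext z
      simp only [JData.t5, map_add, LinearMap.add_apply, add_mul, smul_add]
      abel)
    (fun c a v => by
      have h : (D0 (F := F) hB).t5 (c • v) = fun z => c • (D0 (F := F) hB).t5 v z := by
        funext z
        simp only [JData.t5, map_smul, LinearMap.smul_apply, smul_mul_assoc, smul_add]
        module
      rw [h, MAL.alt_smul, smul_comm])

theorem fmB_coe (hB : IsMalcev B) (x y z a v : B) :
    (216 : F) • ((fmB (F := F) hB (x, y, z) a v : JI F B) : B) = T ![x, y, z, a] v := by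
  have h : ((fmB (F := F) hB (x, y, z) a v : JI F B) : B) =
      (1/216 : F) • ((alt 4 ((D0 (F := F) hB).t5 v) ![x, y, z, a] : JI F B) : B) := rfl
  rw [h, alt_t5_coe, smul_smul]
  norm_num

variable (F B) in
/-- `T` only depends on the Jacobian -/
def TJ : Prop := ∀ (a v : B) (c : (B × B × B) →₀ F),
  Finsupp.linearCombination F (fun p : B × B × B => jac p.1 p.2.1 p.2.2) c = 0 →
  Finsupp.linearCombination F (fun p : B × B × B => T ![p.1, p.2.1, p.2.2, a] v) c = 0

theorem exists_fm (hB : IsMalcev B) (hT : TJ F B) :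
    ∃ fm : JI F B →ₗ[F] B →ₗ[F] B →ₗ[F] JI F B,
      ∀ p : B × B × B, fm (jcL F B p.1 p.2.1 p.2.2) = fmB hB p := by
  refine exists_lift (V := JI F B) (W := B →ₗ[F] B →ₗ[F] JI F B) (X := B × B × B)
    (fun p => jcL F B p.1 p.2.1 p.2.2) (fun p => fmB hB p) ?_ ?_
  · rw [eq_top_iff]
    intro j _
    refine JI_ind (F := F) (B := B) (P := fun j => j ∈ Submodule.span F (Set.range
      fun p : B × B × B => jcL F B p.1 p.2.1 p.2.2)) ?_ ?_ ?_ ?_ j
    · exact Submodule.zero_mem _
    · intro j k hj hk; exact Submodule.add_mem _ hj hk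
    · intro c j hj; exact Submodule.smul_mem _ _ hj
    · intro a b c; exact Submodule.subset_span ⟨(a, b, c), rfl⟩
  · intro c hc
    refine LinearMap.ext fun a => LinearMap.ext fun v => Subtype.ext ?_
    have h1 := congrArg (JI F B).subtype hc
    rw [Finsupp.linearCombination_apply, Finsupp.sum, map_sum, map_zero] at h1
    have h2 := hT a v c (by rw [Finsupp.linearCombination_apply, Finsupp.sum]; exact h1)
    rw [Finsupp.linearCombination_apply, Finsupp.sum] at h2
    rw [Finsupp.linearCombination_apply, Finsupp.sum, LinearMap.sum_apply, LinearMap.sum_apply]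
    have h3 : (216 : F) • (((∑ d ∈ c.support, (c d • fmB (F := F) hB d) a v : JI F B)) : B) = 0 := by
      rw [← h2, AddSubmonoidClass.coe_finsetSum, Finset.smul_sum]
      refine Finset.sum_congr rfl fun p _ => ?_
      rw [← fmB_coe (F := F) hB, smul_comm]
      rfl
    exact (smul_eq_zero.mp h3).resolve_left (by norm_num)

/-- the data -/
def D1 (hB : IsMalcev B) (fm : JI F B →ₗ[F] B →ₗ[F] B →ₗ[F] JI F B) : JData F B (JI F B) where
  ι := (JI F B).subtype
  act := actL hB
  jc := jcL F B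
  fm := fm

variable {hB : IsMalcev B} {fm : JI F B →ₗ[F] B →ₗ[F] B →ₗ[F] JI F B}

theorem fmT (hfm : ∀ p : B × B × B, fm (jcL F B p.1 p.2.1 p.2.2) = fmB hB p) (a b c d v : B) :
    (216 : F) • (((D1 hB fm).fm ((D1 hB fm).jc a b c) d v : JI F B) : B) = T ![a, b, c, d] v := by
  have h : (D1 hB fm).fm ((D1 hB fm).jc a b c) = fmB hB (a, b, c) := hfm (a, b, c)
  rw [h, fmB_coe]

theorem T_rot (a b c d v : B) : T ![a, b, c, d] v = - T ![d, a, b, c] v := by
  have h := MAL.T_comp ![d, a, b, c] v (finRotate 4)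
  have h3 : ((Perm.sign (finRotate 4)) : ℤ) = -1 := by
    rw [sign_finRotate]; norm_num
  rw [h3, neg_smul, one_smul] at h
  rw [← h]
  congr 1
  funext i
  fin_cases i <;> rfl

theorem qQ (hfm : ∀ p : B × B × B, fm (jcL F B p.1 p.2.1 p.2.2) = fmB hB p) (a b x y z : B) :
    (216 : F) • (((D1 hB fm).q a b ((D1 hB fm).jc x y z) : JI F B) : B) = Q a b ![x, y, z] := by
  have h1 := fmT hfm x y z a b
  have h2 : (((D1 hB fm).q a b ((D1 hB fm).jc x y z) : JI F B) : B) =
      (((D1 hB fm).fm ((D1 hB fm).jc x y z) a b : JI F B) : B) - (jac x y z * b) * a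
        + (1/3 : F) • jac a (jac x y z) b := rfl
  have h3 : (Fin.cons a ![x, y, z] : Fin 4 → B) = ![a, x, y, z] := rfl
  rw [h2, smul_add, smul_sub, h1, T_rot, Q, h3, hB.anti a]
  simp only [Matrix.cons_val]
  have h4 : J3 x y z = jac x y z := rfl
  have h5 : J3 a (jac x y z) b = jac a (jac x y z) b := rfl
  rw [h4, h5]
  module

omit [IsScalarTower F B B] [SMulCommClass F B B] in
theorem cancelJ {u v : JI F B} (h : (216 : F) • (u : B) = (216 : F) • (v : B)) : u = v := by
  apply Subtype.ext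
  have h2 : (216 : F) • ((u : B) - (v : B)) = 0 := by rw [smul_sub, h, sub_self]
  have h3 := (smul_eq_zero.mp h2).resolve_left (by norm_num)
  exact sub_eq_zero.mp h3

/-- induction for the elements of the ideal -/
theorem D1_ind (hB : IsMalcev B) (fm : JI F B →ₗ[F] B →ₗ[F] B →ₗ[F] JI F B)
    {P : JI F B → Prop} (h0 : P 0) (hadd : ∀ j k, P j → P k → P (j + k))
    (hsmul : ∀ (c : F) j, P j → P (c • j)) (hj : ∀ a b c : B, P ((D1 hB fm).jc a b c)) :
    ∀ j, P j :=
  JI_ind h0 hadd hsmul hj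

theorem actJ (x y z a : B) : (D1 hB fm).act ((D1 hB fm).jc x y z) a =
    (-(1/2) : F) • ((D1 hB fm).jc a x (y * z) + (D1 hB fm).jc a y (z * x)
      + (D1 hB fm).jc a z (x * y)) := by
  apply Subtype.ext
  have h := jac_mul F hB x y z a
  have h1 : (((D1 hB fm).act ((D1 hB fm).jc x y z) a : JI F B) : B) = jac x y z * a := rfl
  have h2 : (((-(1/2) : F) • ((D1 hB fm).jc a x (y * z) + (D1 hB fm).jc a y (z * x)
      + (D1 hB fm).jc a z (x * y)) : JI F B) : B) = (-(1/2) : F) • (jac a x (y * z)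
        + jac a y (z * x) + jac a z (x * y)) := rfl
  rw [h1, h2, h]
  module

theorem d_fm_mul (hk : ∀ (y : B) (x : Fin 5 → B), kap y x = 0)
    (hfm : ∀ p : B × B × B, fm (jcL F B p.1 p.2.1 p.2.2) = fmB hB p) (j : JI F B) (a b c : B) :
    (D1 hB fm).fm j a (b * c) = (D1 hB fm).act ((D1 hB fm).fm j a b) c := by
  revert j
  refine D1_ind hB fm ?_ ?_ ?_ ?_
  · simp only [map_zero, LinearMap.zero_apply]
  · intro j k hj hk
    simp only [map_add, LinearMap.add_apply, hj, hk]
  · intro r j hj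
    simp only [map_smul, LinearMap.smul_apply, hj]
  · intro x y z
    apply cancelJ
    rw [fmT hfm]
    have h := MAL.idC3 F hB b c ![x, y, z, a]
    rw [hk, smul_zero, sub_zero] at h
    rw [h, ← fmT hfm, smul_mul_assoc]
    rfl

theorem T_neg3 (F : Type) [Field F] [CharZero F] [Module F B] [IsScalarTower F B B]
    [SMulCommClass F B B] (hB : IsMalcev B) (a b c d v : B) :
    T ![a, b, c, -d] v = - T ![a, b, c, d] v := by
  have h := fmB_coe (F := F) hB a b c (-d) v
  rw [← h, ← fmB_coe (F := F) hB a b c d v, map_neg, LinearMap.neg_apply, Submodule.coe_neg,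
    smul_neg]

theorem T_cyc (a b c d v : B) : T ![a, b, c, d] v = T ![a, d, b, c] v := by
  have h := MAL.T_comp ![a, d, b, c] v (swap 1 3 * swap 1 2)
  have h3 : ((Perm.sign (swap 1 3 * swap 1 2 : Perm (Fin 4))) : ℤ) = 1 := by decide
  rw [h3, one_smul] at h
  rw [← h]
  congr 1
  funext i
  fin_cases i <;> rfl

omit [CharZero F] [IsScalarTower F B B] [SMulCommClass F B B] in
/-- the alternating sum over the two orders, for an anticommutative argument -/
theorem alt3_cyc (g : B → B → B) (hg : ∀ a b c : B, g a (c * b) = - g a (b * c)) (x y z : B) :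
    alt 3 (fun t => g (t 0) (t 1 * t 2)) ![x, y, z] =
      (2 : F) • (g x (y * z) + g y (z * x) + g z (x * y)) := by
  rw [MAL.alt_three]
  simp only [Matrix.cons_val]
  rw [hg x y z, hg y z x, hg z x y]
  module

theorem d_fm_act (hk : ∀ (y : B) (x : Fin 5 → B), kap y x = 0)
    (hfm : ∀ p : B × B × B, fm (jcL F B p.1 p.2.1 p.2.2) = fmB hB p) (j : JI F B) (a b : B) :
    (D1 hB fm).fm ((D1 hB fm).act j a) b = (D1 hB fm).fm j (a * b) := by
  refine LinearMap.ext fun v => ?_
  revert j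
  refine D1_ind hB fm ?_ ?_ ?_ ?_
  · simp only [map_zero, LinearMap.zero_apply]
  · intro j k hj hk
    simp only [map_add, LinearMap.add_apply, hj, hk]
  · intro r j hj
    simp only [map_smul, LinearMap.smul_apply, hj]
  · intro x y z
    apply cancelJ
    rw [fmT hfm, actJ]
    simp only [map_smul, map_add, LinearMap.smul_apply, LinearMap.add_apply, Submodule.coe_smul,
      Submodule.coe_add]
    have h := MAL.idC5 F hB a b v ![x, y, z]
    rw [hk, smul_zero, add_zero, alt3_cyc (F := F) (fun p q => T ![a, b, p, q] v) (by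
      intro p q r
      show T ![a, b, p, r * q] v = _
      rw [hB.anti r q, T_neg3 F hB])] at h
    rw [← T_cyc a x (y * z) b v, ← T_cyc a y (z * x) b v, ← T_cyc a z (x * y) b v] at h
    have h1 : (Fin.cons (a * b) ![x, y, z] : Fin 4 → B) = ![a * b, x, y, z] := rfl
    rw [h1, ← fmT hfm, ← fmT hfm, ← fmT hfm] at h
    rw [T_rot]
    have h2 : T ![a * b, x, y, z] v = (1/4 : F) • ((4 : ℤ) • T ![a * b, x, y, z] v) := by module
    rw [h2, ← h]
    module

theorem d_q_symm
    (hfm : ∀ p : B × B × B, fm (jcL F B p.1 p.2.1 p.2.2) = fmB hB p) (a b : B) :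
    (D1 hB fm).q a b = (D1 hB fm).q b a := by
  refine LinearMap.ext fun j => ?_
  revert j
  refine D1_ind hB fm ?_ ?_ ?_ ?_
  · simp only [map_zero]
  · intro j k hj hk
    simp only [map_add, hj, hk]
  · intro r j hj
    simp only [map_smul, hj]
  · intro x y z
    apply cancelJ
    rw [qQ hfm, qQ hfm, MAL.idC1 F hB]

theorem d_q_act (hk : ∀ (y : B) (x : Fin 5 → B), kap y x = 0)
    (hfm : ∀ p : B × B × B, fm (jcL F B p.1 p.2.1 p.2.2) = fmB hB p) (a b : B) (j : JI F B)
    (c : B) : (D1 hB fm).q a b ((D1 hB fm).act j c) = (D1 hB fm).act ((D1 hB fm).q a b j) c := by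
  revert j
  refine D1_ind hB fm ?_ ?_ ?_ ?_
  · simp only [map_zero, LinearMap.zero_apply]
  · intro j k hj hk
    simp only [map_add, LinearMap.add_apply, hj, hk]
  · intro r j hj
    simp only [map_smul, LinearMap.smul_apply, hj]
  · intro x y z
    apply cancelJ
    rw [actJ]
    have hs : ∀ s : JI F B, (((D1 hB fm).act s c : JI F B) : B) = (s : B) * c := fun s => rfl
    rw [hs, ← smul_mul_assoc, qQ hfm]
    simp only [map_smul, map_add, Submodule.coe_smul, Submodule.coe_add]
    have h := MAL.idC4 F hB a b c ![x, y, z]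
    rw [hk, hk, add_zero, smul_zero, alt3_cyc (F := F) (fun p q => Q a b ![c, p, q]) (by
      intro p q r
      show Q a b ![c, p, r * q] = _
      rw [hB.anti r q, ← qQ hfm, ← qQ hfm, map_neg, map_neg, Submodule.coe_neg, smul_neg])] at h
    rw [← qQ hfm a b c x, ← qQ hfm a b c y, ← qQ hfm a b c z] at h
    have h2 : Q a b ![x, y, z] * c = (1/4 : F) • ((4 : ℤ) • (Q a b ![x, y, z] * c)) := by module
    rw [h2, eq_neg_of_add_eq_zero_right h]
    module

theorem d_g3
    (hfm : ∀ p : B × B × B, fm (jcL F B p.1 p.2.1 p.2.2) = fmB hB p) (a b c u v : B) :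
    (D1 hB fm).jc (a * (b * c)) u v - (D1 hB fm).q a c ((D1 hB fm).jc b u v)
      + (D1 hB fm).q a b ((D1 hB fm).jc c u v)
      + (1/3 : F) • (D1 hB fm).jc (jac a b c) u v = 0 := by
  apply cancelJ
  have h := MAL.idC2 F hB a b c ![u, v]
  have h1 : (Fin.cons b ![u, v] : Fin 3 → B) = ![b, u, v] := rfl
  have h2 : (Fin.cons c ![u, v] : Fin 3 → B) = ![c, u, v] := rfl
  rw [h1, h2, ← qQ hfm, ← qQ hfm] at h
  rw [Submodule.coe_zero, smul_zero, ← h]
  have h3 : (((D1 hB fm).jc (a * (b * c)) u v - (D1 hB fm).q a c ((D1 hB fm).jc b u v)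
      + (D1 hB fm).q a b ((D1 hB fm).jc c u v)
      + (1/3 : F) • (D1 hB fm).jc (jac a b c) u v : JI F B) : B) =
      jac (a * (b * c)) u v - (((D1 hB fm).q a c ((D1 hB fm).jc b u v) : JI F B) : B)
      + (((D1 hB fm).q a b ((D1 hB fm).jc c u v) : JI F B) : B)
      + (1/3 : F) • jac (jac a b c) u v := rfl
  rw [h3]
  have h4 : J3 (a * (b * c)) (![u, v] 0) (![u, v] 1) = jac (a * (b * c)) u v := rfl
  have h5 : J3 (J3 a b c) (![u, v] 0) (![u, v] 1) = jac (jac a b c) u v := rfl
  rw [h4, h5]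
  module

theorem d_jcp (hk : ∀ (y : B) (x : Fin 5 → B), kap y x = 0)
    (hfm : ∀ p : B × B × B, fm (jcL F B p.1 p.2.1 p.2.2) = fmB hB p) :
    (D1 hB fm).IsJCP where
  mal := hB
  ι_inj := Submodule.injective_subtype _
  ι_act := fun _ _ => rfl
  ι_jc := fun _ _ _ => rfl
  span_jc := by
    intro P hP
    rw [eq_top_iff]
    intro j _
    revert j
    refine D1_ind hB fm ?_ ?_ ?_ ?_
    · intro _; exact P.zero_mem
    · intro j k hj hk _; exact P.add_mem (hj trivial) (hk trivial)
    · intro c j hj _; exact P.smul_mem _ (hj trivial)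
    · intro a b c _; exact hP a b c
  fm_mul := d_fm_mul hk hfm
  fm_act := d_fm_act hk hfm
  fm_jc := by
    intro x v
    apply Subtype.ext
    have h := fmT hfm (x 0) (x 1) (x 2) (x 3) v
    have hx : x = ![x 0, x 1, x 2, x 3] := by funext i; fin_cases i <;> rfl
    have h2 := alt_t5_coe (F := F) hB v x
    have h3 : ((alt 4 ((D1 hB fm).t5 v) x : JI F B) : B) = T x v := h2
    rw [h3, Submodule.coe_smul, h, ← hx]
  q_symm := d_q_symm hfm
  q_act := d_q_act hk hfm
  g3 := d_g3 hfm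

omit [IsScalarTower F B B] [SMulCommClass F B B] in
theorem supJ {n : ℕ} (E : (Fin n → B) → JI F B) (G : (Fin n → B) → B) (r : F)
    (hG : ∀ x, (216 : F) • (E x : B) = r • G x) (x : Fin n → B) (h : alt n G x = 0) :
    alt n E x = 0 := by
  apply cancelJ
  have h1 := MAL.map_alt (JI F B).subtype.toAddMonoidHom E x
  have h2 : ((alt n E x : JI F B) : B) = alt n (fun z => (E z : B)) x := h1
  rw [h2, ← MAL.alt_smul]
  simp only [hG]
  rw [MAL.alt_smul, h, smul_zero, Submodule.coe_zero, smul_zero]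

theorem d_sup (hk : ∀ (y : B) (x : Fin 5 → B), kap y x = 0)
    (hfm : ∀ p : B × B × B, fm (jcL F B p.1 p.2.1 p.2.2) = fmB hB p) :
    (D1 hB fm).SupId where
  i5 := fun x => supJ _ _ 216 (fun x => by
    have h : (((3 : F) • (D1 hB fm).jc (x 0) (x 1) (x 2 * x 3)
      - (2 : F) • (D1 hB fm).act ((D1 hB fm).jc (x 0) (x 1) (x 2)) (x 3) : JI F B) : B) =
      (3 : F) • J3 (x 0) (x 1) (x 2 * x 3) - (2 : F) • (J3 (x 0) (x 1) (x 2) * x 3) := rfl
    rw [h]
    module) x (MAL.idI5 F hB x)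
  i3 := fun x => supJ _ _ 3 (fun x => by
    have h : (((D1 hB fm).act ((D1 hB fm).act ((D1 hB fm).jc (x 0) (x 1) (x 2)) (x 3)) (x 4)
      + (3 : F) • (D1 hB fm).fm ((D1 hB fm).jc (x 0) (x 1) (x 2)) (x 3) (x 4) : JI F B) : B) =
      (J3 (x 0) (x 1) (x 2) * x 3) * x 4
      + (3 : F) • (((D1 hB fm).fm ((D1 hB fm).jc (x 0) (x 1) (x 2)) (x 3) (x 4) : JI F B) : B) :=
      rfl
    rw [h, ← fmT hfm (x 0) (x 1) (x 2) (x 3) (x 4)]
    module) x (MAL.idI3 F hB x)
  i6 := fun x => supJ _ _ 2 (fun x => by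
    have h : (((D1 hB fm).jc (x 0) (x 1) (x 2 * (x 3 * x 4))
      - (2 : F) • (D1 hB fm).fm ((D1 hB fm).jc (x 0) (x 1) (x 2)) (x 3) (x 4) : JI F B) : B) =
      J3 (x 0) (x 1) (x 2 * (x 3 * x 4))
      - (2 : F) • (((D1 hB fm).fm ((D1 hB fm).jc (x 0) (x 1) (x 2)) (x 3) (x 4) : JI F B) : B) :=
      rfl
    rw [h, ← fmT hfm (x 0) (x 1) (x 2) (x 3) (x 4)]
    module) x (MAL.idI6 F hB x)
  i4 := fun x v => supJ _ _ 1 (fun x => by
    rw [fmT hfm, one_smul]) x (MAL.idI4 F hB hk v x)
  i8 := fun x => supJ _ _ 9 (fun x => by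
    have h : (((D1 hB fm).jc (x 0) (x 1) ((D1 hB fm).ι ((D1 hB fm).act
        ((D1 hB fm).jc (x 2) (x 3) (x 4)) (x 5)))
      + (9 : F) • (D1 hB fm).fm ((D1 hB fm).jc (x 0) (x 1) (x 2)) (x 3) (x 4 * x 5) : JI F B) : B)
      = J3 (x 0) (x 1) (J3 (x 2) (x 3) (x 4) * x 5)
      + (9 : F) • (((D1 hB fm).fm ((D1 hB fm).jc (x 0) (x 1) (x 2)) (x 3) (x 4 * x 5) : JI F B)
        : B) := rfl
    rw [h, ← fmT hfm (x 0) (x 1) (x 2) (x 3) (x 4 * x 5)]
    module) x (MAL.idI8 F hB hk x)
  i11 := fun x => supJ _ _ 1 (fun x => by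
    rw [fmT hfm, one_smul]) x (MAL.idI11 F hB hk x)
  r6 := fun x v => supJ _ _ 1 (fun x => by
    have h : (((3 : F) • (D1 hB fm).act ((D1 hB fm).fm ((D1 hB fm).jc (x 0) (x 1) (x 2)) (x 3)
        (x 4)) v
      + (2 : F) • (D1 hB fm).fm ((D1 hB fm).jc v (x 0) (x 1)) (x 2) (x 3 * x 4)
      + (D1 hB fm).fm ((D1 hB fm).jc (x 0) (x 1) (x 2)) (x 3) (v * x 4)
      - (4 : F) • (D1 hB fm).act ((D1 hB fm).q v (x 0) ((D1 hB fm).jc (x 1) (x 2) (x 3))) (x 4)
        : JI F B) : B)
      = (3 : F) • ((((D1 hB fm).fm ((D1 hB fm).jc (x 0) (x 1) (x 2)) (x 3) (x 4) : JI F B) : B) * v)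
      + (2 : F) • (((D1 hB fm).fm ((D1 hB fm).jc v (x 0) (x 1)) (x 2) (x 3 * x 4) : JI F B) : B)
      + (((D1 hB fm).fm ((D1 hB fm).jc (x 0) (x 1) (x 2)) (x 3) (v * x 4) : JI F B) : B)
      - (4 : F) • ((((D1 hB fm).q v (x 0) ((D1 hB fm).jc (x 1) (x 2) (x 3)) : JI F B) : B) * x 4) :=
      rfl
    rw [h, ← fmT hfm (x 0) (x 1) (x 2) (x 3) (x 4), ← fmT hfm v (x 0) (x 1) (x 2) (x 3 * x 4),
      ← fmT hfm (x 0) (x 1) (x 2) (x 3) (v * x 4), ← qQ hfm v (x 0) (x 1) (x 2) (x 3),
      smul_mul_assoc, smul_mul_assoc]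
    module) x (MAL.idR6 F hB hk v x)

theorem sq_general (hB : IsMalcev B) (hk : ∀ (y : B) (x : Fin 5 → B), kap y x = 0)
    (hT : TJ F B) : ∃ (J : Submodule F B) (D : JData F B J),
      D.ι = J.subtype ∧ D.IsJCP ∧ D.SupId := by
  obtain ⟨fm, hfm⟩ := exists_fm hB hT
  exact ⟨JI F B, D1 hB fm, rfl, d_jcp hk hfm, d_sup hk hfm⟩

/-- the map `Xi(-,z,w,v)` -/
def XiL (z w v : B) : B →ₗ[F] B where
  toFun j := MAL.Xi j z w v
  map_add' a b := by
    simp only [MAL.Xi, J3, add_mul, mul_add, smul_add]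
    abel
  map_smul' c a := by
    simp only [MAL.Xi, J3, smul_mul_assoc, mul_smul_comm, RingHom.id_apply]
    module

end data

end general

section square

variable {F M : Type} [Field F] [CharZero F] [NonUnitalNonAssocRing M] [Module F M]
  [IsScalarTower F M M] [SMulCommClass F M M]

omit [CharZero F] in
theorem sq_malcev (hM : IsMalcev M) : IsMalcev (sqAlg F M) where
  sq := fun x => Subtype.ext (hM.sq x)
  mal := fun x y z => Subtype.ext (hM.mal x y z)

omit [CharZero F] in
theorem alt_sq_coe {n : ℕ} (f : (Fin n → sqAlg F M) → sqAlg F M) (g : (Fin n → M) → M)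
    (h : ∀ z : Fin n → sqAlg F M, (f z : M) = g (fun i => (z i : M))) (x : Fin n → sqAlg F M) :
    ((alt n f x : sqAlg F M) : M) = alt n g (fun i => (x i : M)) := by
  have h1 : ((alt n f x : sqAlg F M) : M) = alt n (fun z => ((f z : sqAlg F M) : M)) x :=
    MAL.map_alt (AddMonoidHom.mk' (fun b : sqAlg F M => (b : M)) (fun _ _ => rfl)) f x
  rw [h1]
  simp only [h]
  rfl

omit [CharZero F] in
theorem kap_sq_coe (y : sqAlg F M) (x : Fin 5 → sqAlg F M) :
    ((kap y x : sqAlg F M) : M) = kap (y : M) (fun i => (x i : M)) := by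
  rw [MAL.kap_eq, MAL.kap_eq]
  exact alt_sq_coe _ _ (fun _ => rfl) x

omit [CharZero F] in
theorem T_sq_coe (x : Fin 4 → sqAlg F M) (v : sqAlg F M) :
    ((T x v : sqAlg F M) : M) = T (fun i => (x i : M)) (v : M) :=
  alt_sq_coe _ (fun z => w5 (z 0) (z 1) (z 2) (z 3) (v : M)) (fun _ => rfl) x

theorem sq_kap (hM : IsMalcev M) (y : sqAlg F M) (x : Fin 5 → sqAlg F M) : kap y x = 0 := by
  apply Subtype.ext
  rw [kap_sq_coe]
  exact MAL.core_span F hM y _ 0 1 (by decide) (x 0).2 (x 1).2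

theorem exists_phi (hM : IsMalcev M) (v a : M) (ha : a ∈ MAL.sq2 F M) :
    ∃ φ : M →ₗ[F] M, ∀ x y z : sqAlg F M,
      φ (jac (x : M) (y : M) (z : M)) = T ![(x : M), (y : M), (z : M), a] v := by
  unfold MAL.sq2 at ha
  induction ha using Submodule.span_induction with
  | mem a ha =>
    obtain ⟨s, t, rfl⟩ := ha
    refine ⟨XiL s t v, fun x y z => ?_⟩
    have h := MAL.idC6 F hM s t v ![(x : M), (y : M), (z : M)]
    rw [MAL.core_span F hM v _ 2 3 (by decide) (show (x : M) ∈ MAL.sq2 F M from x.2)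
      (show (y : M) ∈ MAL.sq2 F M from y.2), smul_zero, sub_zero] at h
    have h1 : (Fin.cons (s * t) ![(x : M), (y : M), (z : M)] : Fin 4 → M) =
      ![s * t, (x : M), (y : M), (z : M)] := rfl
    rw [h1] at h
    rw [T_rot, h, neg_neg]
    rfl
  | zero =>
    refine ⟨0, fun x y z => ?_⟩
    rw [← fmB_coe (F := F) hM, map_zero, LinearMap.zero_apply, LinearMap.zero_apply,
      Submodule.coe_zero, smul_zero]
  | add a b _ _ ha hb =>
    obtain ⟨φ, hφ⟩ := ha
    obtain ⟨ψ, hψ⟩ := hb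
    refine ⟨φ + ψ, fun x y z => ?_⟩
    rw [LinearMap.add_apply, hφ, hψ, ← fmB_coe (F := F) hM, ← fmB_coe (F := F) hM,
      ← fmB_coe (F := F) hM, map_add, LinearMap.add_apply, Submodule.coe_add, smul_add]
  | smul c a _ ha =>
    obtain ⟨φ, hφ⟩ := ha
    refine ⟨c • φ, fun x y z => ?_⟩
    rw [LinearMap.smul_apply, hφ, ← fmB_coe (F := F) hM, ← fmB_coe (F := F) hM,
      map_smul, LinearMap.smul_apply, Submodule.coe_smul, smul_comm]

theorem sq_TJ (hM : IsMalcev M) : TJ F (sqAlg F M) := by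
  intro a v c hc
  obtain ⟨φ, hφ⟩ := exists_phi (F := F) hM (v : M) (a : M) a.2
  apply Subtype.ext
  have h1 := congrArg (fun b : sqAlg F M => φ (b : M)) hc
  simp only [Finsupp.linearCombination_apply, Finsupp.sum] at h1 ⊢
  have e1 : ∀ (s : Finset (sqAlg F M × sqAlg F M × sqAlg F M))
      (g : sqAlg F M × sqAlg F M × sqAlg F M → sqAlg F M),
      ((∑ p ∈ s, g p : sqAlg F M) : M) = ∑ p ∈ s, (g p : M) := fun s g =>
    map_sum (AddMonoidHom.mk' (fun b : sqAlg F M => (b : M)) (fun _ _ => rfl)) g s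
  rw [e1, map_sum] at h1
  rw [e1]
  have h0 : φ (((0 : sqAlg F M)) : M) = ((0 : sqAlg F M) : M) := map_zero φ
  rw [h0] at h1
  rw [← h1]
  refine Finset.sum_congr rfl fun p _ => ?_
  have e2 : (((c p • jac p.1 p.2.1 p.2.2 : sqAlg F M)) : M) =
    c p • jac (p.1 : M) (p.2.1 : M) (p.2.2 : M) := rfl
  rw [e2, map_smul, hφ]
  have e3 : (((c p • T ![p.1, p.2.1, p.2.2, a] v : sqAlg F M)) : M) =
    c p • ((T ![p.1, p.2.1, p.2.2, a] v : sqAlg F M) : M) := rfl
  rw [e3, T_sq_coe]
  congr 2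
  funext i
  fin_cases i <;> rfl

end square

theorem sq_proof : Stmt_Sq := by
  intro F M _ _ _ _ _ _ hM
  exact sq_general (sq_malcev hM) (sq_kap hM) (sq_TJ hM)

end Pool.Agent.MX
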