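import Pool.Agent.MX.Facts
import Pool.Agent.Mal.XSys

set_option autoImplicit false

/-! Theorem X: statements of the modules. -/

namespace Pool.Agent.MX

open Equiv
open Pool.Agent.MAL (alt IsMalcev)
open Pool.Agent.Mal.Syz (Cliff Rel XSys)

/-! ### Group B: formal consequences of the axioms of a `J`-cp algebra -/

def Stmt_Facts1 : Prop :=
  ∀ (F B J : Type) [Field F] [CharZero F] [NonUnitalNonAssocRing B] [Module F B]
    [IsScalarTower F B B] [SMulCommClass F B B] [AddCommGroup J] [Module F J]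
    (D : JData F B J), D.IsJCP → D.Facts1

def Stmt_Facts2 : Prop :=
  ∀ (F B J : Type) [Field F] [CharZero F] [NonUnitalNonAssocRing B] [Module F B]
    [IsScalarTower F B B] [SMulCommClass F B B] [AddCommGroup J] [Module F J]
    (D : JData F B J), D.IsJCP → D.Facts1 → D.Facts2

def Stmt_Facts3 : Prop :=
  ∀ (F B J : Type) [Field F] [CharZero F] [NonUnitalNonAssocRing B] [Module F B]
    [IsScalarTower F B B] [SMulCommClass F B B] [AddCommGroup J] [Module F J]
    (D : JData F B J), D.IsJCP → D.Facts1 → D.Facts2 → D.Facts3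

def Stmt_Facts4 : Prop :=
  ∀ (F B J : Type) [Field F] [CharZero F] [NonUnitalNonAssocRing B] [Module F B]
    [IsScalarTower F B B] [SMulCommClass F B B] [AddCommGroup J] [Module F J]
    (D : JData F B J), D.IsJCP → D.Facts1 → D.Facts2 → D.Facts3 → D.Facts4

def Stmt_Facts5 : Prop :=
  ∀ (F B J : Type) [Field F] [CharZero F] [NonUnitalNonAssocRing B] [Module F B]
    [IsScalarTower F B B] [SMulCommClass F B B] [AddCommGroup J] [Module F J]
    (D : JData F B J), D.IsJCP → D.Facts1 → D.Facts2 → D.Facts3 → D.Facts4 → D.Facts5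

/-! ### Group C: `j4`, the syzygy, and `λ4` -/

/-- alternating sums of alternating sums: if the alternating sum over the last `m` letters is zero,
then so is the total alternating sum -/
def Stmt_AltBlock : Prop :=
  ∀ (F M G : Type) [Field F] [CharZero F] [AddCommGroup G] [Module F G] (k m : ℕ)
    (f : (Fin (k + m) → M) → G)
    (_ : ∀ (y : Fin k → M) (z : Fin m → M), alt m (fun z => f (Fin.append y z)) z = 0)
    (x : Fin (k + m) → M), alt (k + m) f x = 0

/-- the multilinear alternating map -/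
def Stmt_J4 : Prop :=
  ∀ (F B J : Type) [Field F] [CharZero F] [NonUnitalNonAssocRing B] [Module F B]
    [IsScalarTower F B B] [SMulCommClass F B B] [AddCommGroup J] [Module F J]
    (D : JData F B J), D.IsJCP → D.Facts1 → D.Facts2 → D.Facts3 → D.SupId →
    ∀ (L : B →ₗ[F] (D.NS →ₗ[F] D.NS)) (_ : ∀ b n, L b n = D.L b n),
    ∃ j : B [⋀^Fin 4]→ₗ[F] D.NS, (∀ x, j x = D.j4 x) ∧ Rel L j

/-- the fully alternating identities (as in `XSys.D`, in the ambient spaces) -/
def Stmt_D : Prop :=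
  ∀ (F B J : Type) [Field F] [CharZero F] [NonUnitalNonAssocRing B] [Module F B]
    [IsScalarTower F B B] [SMulCommClass F B B] [AddCommGroup J] [Module F J]
    (D : JData F B J), D.IsJCP → D.Facts1 → D.Facts2 → D.Facts3 → D.Facts4 → D.SupId →
    (∀ y : Fin 4 → B,
      alt 4 (fun y =>
        D.La (y 0) (D.La (y 3) (JData.kX F (y 1) (y 2) JData.uX)
          + JData.kX F (y 1) (y 2) (D.AX (y 3) JData.uX))
        - (D.La (y 3) (JData.kX F (y 1) (y 2) (D.AX (y 0) JData.uX))
          + JData.kX F (y 1) (y 2) (D.AX (y 3) (D.AX (y 0) JData.uX)))) y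
      = (-6 : F) • alt 4 (fun y => (D.j4 y : (B → J) × J)) y) ∧
    (∀ y : Fin 5 → B,
      alt 5 (fun y =>
        D.La (y 0) (D.La (y 3) (JData.kX F (y 1) (y 2) (D.AX (y 4) JData.uX))
          + JData.kX F (y 1) (y 2) (D.AX (y 3) (D.AX (y 4) JData.uX)))
        - (D.La (y 3) (JData.kX F (y 1) (y 2) (D.AX (y 0) (D.AX (y 4) JData.uX)))
          + JData.kX F (y 1) (y 2) (D.AX (y 3) (D.AX (y 0) (D.AX (y 4) JData.uX))))) y
      = (-6 : F) • alt 5 (fun y => D.La (y 0) (D.j4 ![y 1, y 2, y 3, y 4])) y) ∧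
    (∀ y : Fin 6 → B,
      alt 6 (fun y =>
        D.La (y 0) (D.La (y 3) (JData.kX F (y 1) (y 2) (D.AX (y 4) (D.AX (y 5) JData.uX)))
          + JData.kX F (y 1) (y 2) (D.AX (y 3) (D.AX (y 4) (D.AX (y 5) JData.uX))))
        - (D.La (y 3) (JData.kX F (y 1) (y 2) (D.AX (y 0) (D.AX (y 4) (D.AX (y 5) JData.uX))))
          + JData.kX F (y 1) (y 2) (D.AX (y 3) (D.AX (y 0) (D.AX (y 4) (D.AX (y 5) JData.uX)))))) y
      = (-6 : F) • alt 6 (fun y => D.La (y 0) (D.La (y 1) (D.j4 ![y 2, y 3, y 4, y 5]))) y) ∧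
    (∀ y : Fin 7 → B,
      alt 7 (fun y =>
        D.La (y 0) (D.La (y 3) (JData.kX F (y 1) (y 2) (D.AX (y 4) (D.AX (y 5) (D.AX (y 6) JData.uX))))
          + JData.kX F (y 1) (y 2) (D.AX (y 3) (D.AX (y 4) (D.AX (y 5) (D.AX (y 6) JData.uX)))))
        - (D.La (y 3) (JData.kX F (y 1) (y 2) (D.AX (y 0) (D.AX (y 4) (D.AX (y 5) (D.AX (y 6) JData.uX)))))
          + JData.kX F (y 1) (y 2)
              (D.AX (y 3) (D.AX (y 0) (D.AX (y 4) (D.AX (y 5) (D.AX (y 6) JData.uX))))))) y
      = (-6 : F) • alt 7 (fun y =>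
          D.La (y 0) (D.La (y 1) (D.La (y 2) (D.j4 ![y 3, y 4, y 5, y 6])))) y)

/-- the system of helper3 -/
def Stmt_XSys : Prop :=
  ∀ (F B : Type) [Field F] [CharZero F] [NonUnitalNonAssocRing B] [Module F B]
    [IsScalarTower F B B] [SMulCommClass F B B] (J : Submodule F B)
    (D : JData F B J), D.ι = J.subtype → D.IsJCP → D.Facts1 → D.Facts2 → D.Facts3 → D.Facts4 →
    D.Facts5 → D.SupId →
    ∃ (Γ U O : Type) (_ : CommRing Γ) (_ : Algebra F Γ)
      (_ : AddCommGroup U) (_ : Module F U) (_ : Module Γ U) (_ : IsScalarTower F Γ U)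
      (_ : AddCommGroup O) (_ : Module F O) (_ : Module Γ O) (_ : IsScalarTower F Γ O),
      Nonempty (XSys F B J Γ U O)

/-- the square of an algebra -/
def sqAlg (F M : Type) [Field F] [NonUnitalNonAssocRing M] [Module F M] [IsScalarTower F M M]
    [SMulCommClass F M M] : NonUnitalSubalgebra F M :=
  { Submodule.span F {m : M | ∃ x y : M, x * y = m} with
    mul_mem' := fun {a b} _ _ => Submodule.subset_span ⟨a, b, rfl⟩ }

/-- the square of a Malcev algebra is a `J`-cp algebra -/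
def Stmt_Sq : Prop :=
  ∀ (F M : Type) [Field F] [CharZero F] [NonUnitalNonAssocRing M] [Module F M]
    [IsScalarTower F M M] [SMulCommClass F M M], IsMalcev M →
    ∃ (J : Submodule F (sqAlg F M)) (D : JData F (sqAlg F M) J),
      D.ι = J.subtype ∧ D.IsJCP ∧ D.SupId

end Pool.Agent.MX
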