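import Mathlib
import Pool.Agent.MX.Stmts
import Pool.Agent.Mal.X6

set_option autoImplicit false

namespace Pool.Agent.MX

open Pool.Agent.Mal (SqKill ThreeKill lift_hom)
open Pool.Agent.MAL (IsMalcev)

/-- an element vanishing on three-generated Malcev algebras vanishes on squares -/
theorem sq_of_three (h1 : Stmt_Facts1) (h2 : Stmt_Facts2) (h3 : Stmt_Facts3) (h4 : Stmt_Facts4)
    (h5 : Stmt_Facts5) (hX : Stmt_XSys) (hS : Stmt_Sq) (F : Type) [Field F] [CharZero F]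
    (f : FreeNonUnitalNonAssocAlgebra F ℕ) (hf : ThreeKill F f) : SqKill F f := by
  intro M _ _ _ _ hsq hmal v hv
  obtain ⟨J, D, hι, hD, hsup⟩ := hS F M ⟨hsq, hmal⟩
  have f1 := h1 F (sqAlg F M) J D hD
  have f2 := h2 F (sqAlg F M) J D hD f1
  have f3 := h3 F (sqAlg F M) J D hD f1 f2
  have f4 := h4 F (sqAlg F M) J D hD f1 f2 f3
  have f5 := h5 F (sqAlg F M) J D hD f1 f2 f3 f4
  obtain ⟨Γ, U, O, i1, i2, i3, i4, i5, i6, i7, i8, i9, i10, ⟨S⟩⟩ :=
    hX F (sqAlg F M) J D hι hD f1 f2 f3 f4 f5 hsup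
  have key := Pool.Agent.Mal.Syz.xsys_kill_three S f hf (fun i => (⟨v i, hv i⟩ : sqAlg F M))
  have h6 := lift_hom (F := F) (A := sqAlg F M) (B := M)
    { toFun := fun x => (x : M), map_add' := fun _ _ => rfl, map_smul' := fun _ _ => rfl }
    (fun _ _ => rfl) (fun i => (⟨v i, hv i⟩ : sqAlg F M)) f
  rw [key, map_zero] at h6
  exact h6.symm

end Pool.Agent.MX
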