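import Pool.Agent.MX.XSysB1

set_option autoImplicit false

/-! Theorem X: the system `XSys` attached to a `J`-cp algebra. -/

namespace Pool.Agent.MX

open Equiv
open Pool.Agent.MAL (alt IsMalcev)
open Pool.Agent.Mal.Syz (Cliff Rel XSys psum fold tow)

namespace XSysB

section

variable {F B J : Type} [Field F] [CharZero F] [NonUnitalNonAssocRing B] [Module F B]
    [IsScalarTower F B B] [SMulCommClass F B B] [AddCommGroup J] [Module F J] {D : JData F B J}

/-! ### `K0` -/

theorem κ_q (h4 : D.Facts4) (hc : ∀ a b c d j, D.q a b (D.q c d j) = D.q c d (D.q a b j))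
    (s : Finset ℕ) (γ : ℕ → Gam D) (b : ℕ → B)
    (h0 : ∑ i ∈ s, (γ i : Module.End F J) • D.bX (b i) = 0)
    (hk : ∀ a b c, JData.kX F a b (D.bX c) = (0, (D.bX a).2.2.2 b c)) (c : B)
    (o : JData.OX B J) (ho : o ∈ D.OS) :
    ∑ i ∈ s, (γ i : Module.End F J) (o.2.2.2 (b i) c) = 0 := by
  let P : Submodule F (JData.OX B J) :=
    { carrier := {o | ∑ i ∈ s, (γ i : Module.End F J) (o.2.2.2 (b i) c) = 0}
      zero_mem' := by
        change ∑ i ∈ s, (γ i : Module.End F J) (0 : J) = 0
        simp
      add_mem' := by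
        intro o o' ho ho'
        change ∑ i ∈ s, (γ i : Module.End F J) (o.2.2.2 (b i) c + o'.2.2.2 (b i) c) = 0
        simp only [map_add, Finset.sum_add_distrib]
        rw [show ∑ i ∈ s, (γ i : Module.End F J) (o.2.2.2 (b i) c) = 0 from ho,
          show ∑ i ∈ s, (γ i : Module.End F J) (o'.2.2.2 (b i) c) = 0 from ho', add_zero]
      smul_mem' := by
        intro t o ho
        change ∑ i ∈ s, (γ i : Module.End F J) (t • o.2.2.2 (b i) c) = 0
        simp only [map_smul]
        rw [← Finset.smul_sum,
          show ∑ i ∈ s, (γ i : Module.End F J) (o.2.2.2 (b i) c) = 0 from ho, smul_zero] }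
  have h : D.OS ≤ P := by
    refine h4.ind _ ?_ ?_ ?_
    · change ∑ i ∈ s, (γ i : Module.End F J) (0 : J) = 0
      simp
    · intro v
      change ∑ i ∈ s, (γ i : Module.End F J) ((D.bX v).2.2.2 (b i) c) = 0
      have e : ∀ i, (D.bX v).2.2.2 (b i) c = (D.bX (b i)).2.2.2 c v := by
        intro i
        have := hk (b i) c v
        exact congrArg Prod.snd this
      simp only [e]
      have h5 := congrArg (fun o : JData.OX B J => o.2.2.2 c v) h0
      beta_reduce at h5
      refine Eq.trans ?_ h5
      let ev : JData.OX B J →+ J :=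
        { toFun := fun o => o.2.2.2 c v
          map_zero' := rfl
          map_add' := fun _ _ => rfl }
      change _ = ev _
      rw [map_sum]
      rfl
    · intro p q o ho
      change ∑ i ∈ s, (γ i : Module.End F J) (D.q p q (o.2.2.2 (b i) c)) = 0
      have e : ∀ i, (γ i : Module.End F J) (D.q p q (o.2.2.2 (b i) c)) =
          D.q p q ((γ i : Module.End F J) (o.2.2.2 (b i) c)) := by
        intro i
        have h6 := gam_comm hc (γ i) ⟨D.q p q, Algebra.subset_adjoin ⟨(p, q), rfl⟩⟩
        have h7 := congrArg (fun g : Gam D => (g : Module.End F J) (o.2.2.2 (b i) c)) h6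
        exact h7
      simp only [e]
      rw [← map_sum, show ∑ i ∈ s, (γ i : Module.End F J) (o.2.2.2 (b i) c) = 0 from ho, map_zero]
  exact h ho

end

end XSysB

open XSysB in
theorem XSys_proof (hJ4 : Stmt_J4) (hDD : Stmt_D) : Stmt_XSys := by
  intro F B _ _ _ _ _ _ J D hι hJ h1 h2 h3 h4 h5 hS
  obtain ⟨j, hj, hrel⟩ := hJ4 F B J D hJ h1 h2 h3 hS (LL h3) (fun _ _ => rfl)
  have hact : ∀ (x : J) (b : B), (x : B) * b = ((D.act x b : J) : B) := by
    intro x b
    have := hJ.ι_act x b
    rw [hι] at this
    exact this.symm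
  have hjc : ∀ a b c : B, (a * b) * c + (b * c) * a + (c * a) * b = ((D.jc a b c : J) : B) := by
    intro a b c
    have := hJ.ι_jc a b c
    rw [hι] at this
    exact this.symm
  have hsq : ∀ x : B, x * x = 0 := by
    intro x
    have h := h1.anti x x
    have h' : (2 : F) • (x * x) = 0 := by
      rw [two_smul]
      exact eq_neg_iff_add_eq_zero.mp h
    exact (smul_eq_zero.mp h').resolve_left two_ne_zero
  have hidl : ∀ j ∈ J, ∀ b : B, j * b ∈ J := fun x hx b => by
    rw [show x * b = ((⟨x, hx⟩ : J) : B) * b from rfl, hact]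
    exact (D.act ⟨x, hx⟩ b).2
  have hjac : ∀ a b c : B, (a * b) * c + (b * c) * a + (c * a) * b ∈ J := fun a b c => by
    rw [hjc]
    exact (D.jc a b c).2
  let i1 : CommRing (Gam D) := gamRing h2.q_comm
  let i2 : Module (Gam D) D.NS := stMod h2.q_comm D.NS (ns_stable h3)
  let i3 : Module (Gam D) D.OS := stMod h2.q_comm D.OS (os_stable h4)
  have i4 : IsScalarTower F (Gam D) D.NS := ⟨fun _ _ _ => rfl⟩
  have i5 : IsScalarTower F (Gam D) D.OS := ⟨fun _ _ _ => rfl⟩
  have hLq : ∀ γ ∈ Gam D, ∀ (a : B) (x : (B → J) × J), D.La a (γ • x) = γ • D.La a x := by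
    intro γ hγ a
    refine lin_smul (D.La a) (fun _ _ => rfl) (fun _ _ => rfl) (fun b c x => ?_) γ hγ
    exact (h5.La_q b c a x).symm
  have hAq : ∀ γ ∈ Gam D, ∀ (a : B) (x : JData.OX B J), D.AX a (γ • x) = γ • D.AX a x := by
    intro γ hγ a
    refine lin_smul (D.AX a) (fun _ _ => rfl) (fun _ _ => rfl) (fun b c x => ?_) γ hγ
    exact h4.AX_qX a b c x
  have hEq : ∀ γ ∈ Gam D, ∀ (x : (B → J) × J), D.eX (γ • x) = γ • D.eX x := by
    intro γ hγ
    refine lin_smul D.eX (fun _ _ => rfl) (fun _ _ => rfl) (fun b c x => ?_) γ hγ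
    have e := h4.bX_qι b c x.2
    have e' := congrArg Prod.snd e
    exact Prod.ext rfl e'
  refine ⟨Gam D, D.NS, D.OS, i1, Subalgebra.algebra (Gam D), Submodule.addCommGroup D.NS,
    Submodule.module D.NS, i2, i4, Submodule.addCommGroup D.OS, Submodule.module D.OS, i3, i5,
    ⟨?_⟩⟩
  exact
    { sq := hsq
      idl := hidl
      jac := hjac
      q := fun a b => ⟨D.q a b, Algebra.subset_adjoin ⟨(a, b), rfl⟩⟩
      L := LL h3
      A := AA h4
      eU := EE h4
      one := one' h4
      K := KK h1 h4
      M := MM h4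
      j4 := j
      L_smul := fun γ a u => Subtype.ext (hLq γ γ.2 a u)
      A_smul := fun γ a o => Subtype.ext (hAq γ γ.2 a o)
      eU_smul := fun γ u => Subtype.ext (hEq γ γ.2 u)
      K_smul := fun γ a b o => Subtype.ext (Prod.ext (smul_zero (γ : Module.End F J)).symm rfl)
      L_ac := fun a b u => Subtype.ext (h5.La_clif a b u u.2)
      A_ac := fun a b o => Subtype.ext (h4.AX_clif a b o o.2)
      eU_L := fun a u => Subtype.ext (h4.eX_La a u u.2)
      K_alt := fun a o => Subtype.ext (Prod.ext rfl (h4.κ_self a o o.2))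
      R1 := fun a b u => Subtype.ext (h5.r1 a b u u.2)
      R2 := fun a b o => Subtype.ext (by
        have e := h4.AX_mul a b o o.2
        rw [← h5.eX_kX a b o o.2] at e
        exact e)
      R3 := fun a b c o => by
        rw [show (⟨_, hjac a b c⟩ : J) = D.jc a b c from Subtype.ext (hjc a b c)]
        exact Subtype.ext (h5.r3 a b c o o.2)
      R4 := fun j o => Subtype.ext (by
        have e := h5.r4 j o o.2
        rw [hι] at e
        exact e)
      R4' := fun j u => Subtype.ext (by
        have e := h5.r4' j u u.2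
        rw [hι] at e
        exact e)
      R5 := fun j b o => by
        rw [show (⟨(j : B) * b, hidl _ j.2 b⟩ : J) = D.act j b from Subtype.ext (hact j b)]
        refine Subtype.ext ?_
        have e := h5.r5 j b o o.2
        rw [hι] at e
        exact e.symm
      R9 := fun a c o => by
        have hs := κ_anti h1 h4 a c o o.2
        have e1 := h4.fm_κ c a o o.2
        have e2 := h4.κ_A c a o o.2
        have e3 := κ_anti h1 h4 a c (D.AX a o) (h4.AX_mem a o o.2)
        refine Subtype.ext (Prod.ext ?_ ?_)
        · change (fun v => -(D.fm ((o : JData.OX B J).2.2.2 a c) a v)) + 0 = 0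
          rw [add_zero, hs]
          funext v
          rw [map_neg, LinearMap.neg_apply, e1]
          simp
        · change (0 : B → J) a - D.act ((o : JData.OX B J).2.2.2 a c) a
            + (D.AX a o).2.2.2 a c = 0
          rw [e3, e2, hs]
          simp
      Minj := fun j hj => by
        have e := congrArg (fun p : D.NS => (p : (B → J) × J).2) hj
        have e' : j + 0 = (0 : J) := e
        rwa [add_zero] at e'
      K0 := fun s γ b h0 c o => by
        have e0 : ∑ i ∈ s, (γ i : Module.End F J) • D.bX (b i) = 0 := by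
          have e := congrArg (fun p : D.OS => (p : JData.OX B J)) h0
          beta_reduce at e
          refine Eq.trans ?_ e
          rw [Submodule.coe_sum]
          refine Finset.sum_congr rfl fun i _ => ?_
          rw [← h4.AX_uX]
          rfl
        have e1 := κ_q h4 h2.q_comm s γ b e0 h5.kX_bX c o o.2
        refine Subtype.ext ?_
        rw [Submodule.coe_sum]
        refine Prod.ext ?_ ?_
        · rw [Prod.fst_sum]
          refine Finset.sum_eq_zero fun i _ => ?_
          change (γ i : Module.End F J) • (0 : B → J) = 0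
          exact smul_zero _
        · rw [Prod.snd_sum]
          exact e1
      rel := hrel
      D := D_all' hDD hJ h1 h2 h3 h4 hS j hj }

end Pool.Agent.MX
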