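import Pool.Agent.MX.Stmts

set_option autoImplicit false

/-! Theorem X: the system `XSys` attached to a `J`-cp algebra. -/

namespace Pool.Agent.MX

open Equiv
open Pool.Agent.MAL (alt IsMalcev)
open Pool.Agent.Mal.Syz (Cliff Rel XSys psum fold tow)

namespace XSysB

section

variable {F B J : Type} [Field F] [NonUnitalNonAssocRing B] [Module F B]
    [AddCommGroup J] [Module F J] (D : JData F B J)

/-- the algebra of scalars -/
def Gam : Subalgebra F (Module.End F J) :=
  Algebra.adjoin F (Set.range fun p : B × B => D.q p.1 p.2)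

variable {D}

theorem gam_ind {P : Module.End F J → Prop} (hq : ∀ a b, P (D.q a b))
    (hs : ∀ c : F, P (algebraMap F _ c)) (ha : ∀ x y, P x → P y → P (x + y))
    (hm : ∀ x y, P x → P y → P (x * y)) {γ : Module.End F J} (hγ : γ ∈ Gam D) : P γ := by
  refine Algebra.adjoin_induction (p := fun x _ => P x) ?_ hs (fun x y _ _ => ha x y)
    (fun x y _ _ => hm x y) hγ
  rintro x ⟨p, rfl⟩
  exact hq _ _

theorem gam_comm (h : ∀ a b c d j, D.q a b (D.q c d j) = D.q c d (D.q a b j))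
    (x y : Gam D) : x * y = y * x := by
  have key : ∀ γ ∈ Gam D, ∀ δ ∈ Gam D, γ * δ = δ * γ := by
    intro γ hγ
    refine gam_ind (P := fun γ => ∀ δ ∈ Gam D, γ * δ = δ * γ) ?_ ?_ ?_ ?_ hγ
    · intro a b δ hδ
      refine gam_ind (P := fun δ => D.q a b * δ = δ * D.q a b) ?_ ?_ ?_ ?_ hδ
      · intro c d
        refine LinearMap.ext fun j => ?_
        exact h a b c d j
      · intro c
        exact (Algebra.commutes c _).symm
      · intro x y hx hy
        rw [mul_add, add_mul, hx, hy]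
      · intro x y hx hy
        rw [← mul_assoc, hx, mul_assoc, hy, mul_assoc]
    · intro c δ _
      exact Algebra.commutes c _
    · intro x y hx hy δ hδ
      rw [mul_add, add_mul, hx δ hδ, hy δ hδ]
    · intro x y hx hy δ hδ
      rw [mul_assoc, hy δ hδ, ← mul_assoc, hx δ hδ, mul_assoc]
  exact Subtype.ext (key x x.2 y y.2)

/-- the algebra of scalars is commutative -/
abbrev gamRing (h : ∀ a b c d j, D.q a b (D.q c d j) = D.q c d (D.q a b j)) :
    CommRing (Gam D) :=
  { (inferInstance : Ring (Gam D)) with mul_comm := gam_comm h }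

/-- the module structure on a stable submodule -/
abbrev stMod (h : ∀ a b c d j, D.q a b (D.q c d j) = D.q c d (D.q a b j)) {V : Type}
    [AddCommGroup V] [Module F V] [Module (Module.End F J) V] (S : Submodule F V)
    (hS : ∀ γ ∈ Gam D, ∀ x ∈ S, γ • x ∈ S) :
    @Module (Gam D) S (gamRing h).toCommSemiring.toSemiring _ :=
  letI := gamRing h
  { smul := fun γ x => ⟨(γ : Module.End F J) • (x : V), hS γ γ.2 x x.2⟩
    one_smul := fun x => Subtype.ext (one_smul (Module.End F J) (x : V))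
    mul_smul := fun γ δ x => Subtype.ext (mul_smul (γ : Module.End F J) δ (x : V))
    smul_zero := fun γ => Subtype.ext (smul_zero (γ : Module.End F J))
    smul_add := fun γ x y => Subtype.ext (smul_add (γ : Module.End F J) (x : V) y)
    add_smul := fun γ δ x => Subtype.ext (add_smul (γ : Module.End F J) δ (x : V))
    zero_smul := fun x => Subtype.ext (zero_smul (Module.End F J) (x : V)) }

end

section

variable {F B J : Type} [Field F] [CharZero F] [NonUnitalNonAssocRing B] [Module F B]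
    [IsScalarTower F B B] [SMulCommClass F B B] [AddCommGroup J] [Module F J] {D : JData F B J}

theorem ns_stable (h3 : D.Facts3) : ∀ γ ∈ Gam D, ∀ x ∈ D.NS, γ • x ∈ D.NS := by
  intro γ hγ
  refine gam_ind (P := fun γ => ∀ x ∈ D.NS, γ • x ∈ D.NS) ?_ ?_ ?_ ?_ hγ
  · intro a b x hx
    exact ⟨h3.z_q _ hx.1 a b, trivial⟩
  · intro c x hx
    exact D.NS.smul_mem c hx
  · intro x y hx hy p hp
    rw [add_smul]
    exact D.NS.add_mem (hx p hp) (hy p hp)
  · intro x y hx hy p hp
    rw [mul_smul]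
    exact hx _ (hy p hp)

theorem os_stable (h4 : D.Facts4) : ∀ γ ∈ Gam D, ∀ x ∈ D.OS, γ • x ∈ D.OS := by
  intro γ hγ
  refine gam_ind (P := fun γ => ∀ x ∈ D.OS, γ • x ∈ D.OS) ?_ ?_ ?_ ?_ hγ
  · intro a b x hx
    exact h4.qX_mem a b x hx
  · intro c x hx
    exact D.OS.smul_mem c hx
  · intro x y hx hy p hp
    rw [add_smul]
    exact D.OS.add_mem (hx p hp) (hy p hp)
  · intro x y hx hy p hp
    rw [mul_smul]
    exact hx _ (hy p hp)

/-- a linear map which commutes with the generators commutes with the scalars -/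
theorem lin_smul {V W : Type} [AddCommGroup V] [Module F V] [Module (Module.End F J) V]
    [AddCommGroup W] [Module F W] [Module (Module.End F J) W] (T : V →ₗ[F] W)
    (hV : ∀ (c : F) (x : V), (algebraMap F (Module.End F J) c) • x = c • x)
    (hW : ∀ (c : F) (x : W), (algebraMap F (Module.End F J) c) • x = c • x)
    (hq : ∀ a b x, T (D.q a b • x) = D.q a b • T x) :
    ∀ γ ∈ Gam D, ∀ x, T (γ • x) = γ • T x := by
  intro γ hγ
  refine gam_ind (P := fun γ => ∀ x, T (γ • x) = γ • T x) hq ?_ ?_ ?_ hγ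
  · intro c x
    rw [hV, hW, map_smul]
  · intro x y hx hy p
    rw [add_smul, map_add, hx, hy, add_smul]
  · intro x y hx hy p
    rw [mul_smul, hx, hy, mul_smul]

/-- `L` -/
def LL (h3 : D.Facts3) : B →ₗ[F] (D.NS →ₗ[F] D.NS) where
  toFun b := D.L b
  map_add' a b := by
    refine LinearMap.ext fun p => Subtype.ext (Prod.ext ?_ ?_)
    · funext v
      change -(D.fm _ (a + b) v) = -(D.fm _ a v) + -(D.fm _ b v)
      simp only [map_add, LinearMap.add_apply]
      abel
    · change (p : (B → J) × J).1 (a + b) - D.act (p : (B → J) × J).2 (a + b) =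
        ((p : (B → J) × J).1 a - D.act (p : (B → J) × J).2 a) +
          ((p : (B → J) × J).1 b - D.act (p : (B → J) × J).2 b)
      rw [h3.z_add _ p.2.1, map_add]
      abel
  map_smul' c a := by
    refine LinearMap.ext fun p => Subtype.ext (Prod.ext ?_ ?_)
    · funext v
      change -(D.fm _ (c • a) v) = c • -(D.fm _ a v)
      simp only [map_smul, LinearMap.smul_apply, smul_neg]
    · change (p : (B → J) × J).1 (c • a) - D.act (p : (B → J) × J).2 (c • a) =
        c • ((p : (B → J) × J).1 a - D.act (p : (B → J) × J).2 a)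
      rw [h3.z_smul _ p.2.1, map_smul, smul_sub]

/-- `A` -/
def AA (h4 : D.Facts4) : B →ₗ[F] (D.OS →ₗ[F] D.OS) where
  toFun b := ((D.AX b).comp D.OS.subtype).codRestrict D.OS fun o => h4.AX_mem b o o.2
  map_add' a b := by
    refine LinearMap.ext fun o => Subtype.ext ?_
    exact h4.AX_add a b o o.2
  map_smul' c a := by
    refine LinearMap.ext fun o => Subtype.ext ?_
    exact h4.AX_smul c a o o.2

/-- `eU` -/
def EE (h4 : D.Facts4) : D.NS →ₗ[F] D.OS :=
  (D.eX.comp D.NS.subtype).codRestrict D.OS fun p => h4.eX_mem p p.2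

/-- the octonions with antisymmetric `κ` -/
def KA (F B J : Type) [Field F] [AddCommGroup J] [Module F J] : Submodule F (JData.OX B J) where
  carrier := {o | ∀ a b, o.2.2.2 a b = -o.2.2.2 b a}
  zero_mem' := fun a b => by
    change (0 : J) = -0
    rw [neg_zero]
  add_mem' := fun {o o'} ho ho' a b => by
    change o.2.2.2 a b + o'.2.2.2 a b = -(o.2.2.2 b a + o'.2.2.2 b a)
    rw [ho a b, ho' a b, neg_add]
  smul_mem' := fun c o ho a b => by
    change c • o.2.2.2 a b = -(c • o.2.2.2 b a)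
    rw [ho a b, smul_neg]

theorem κ_anti (h1 : D.Facts1) (h4 : D.Facts4) (a b : B) (o : JData.OX B J) (ho : o ∈ D.OS) :
    o.2.2.2 a b = - o.2.2.2 b a := by
  have h : D.OS ≤ KA F B J := by
    refine h4.ind _ ?_ ?_ ?_
    · intro a b
      change (0 : J) = -0
      rw [neg_zero]
    · intro v a b
      exact h1.jc_swap a b v
    · intro c d o ho a b
      change D.q c d (o.2.2.2 a b) = -D.q c d (o.2.2.2 b a)
      rw [ho a b, map_neg]
  exact h ho a b

theorem κ_add' (h1 : D.Facts1) (h4 : D.Facts4) (a b c : B) (o : JData.OX B J) (ho : o ∈ D.OS) :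
    o.2.2.2 a (b + c) = o.2.2.2 a b + o.2.2.2 a c := by
  rw [κ_anti h1 h4 a (b + c) o ho, h4.κ_add b c a o ho, κ_anti h1 h4 a b o ho,
    κ_anti h1 h4 a c o ho, neg_add]

theorem κ_smul' (h1 : D.Facts1) (h4 : D.Facts4) (t : F) (a b : B) (o : JData.OX B J)
    (ho : o ∈ D.OS) : o.2.2.2 a (t • b) = t • o.2.2.2 a b := by
  rw [κ_anti h1 h4 a (t • b) o ho, h4.κ_smul t b a o ho, κ_anti h1 h4 a b o ho, smul_neg]

/-- the lift of `J(a,b,o)`, as a linear map -/
def KK0 (a b : B) : D.OS →ₗ[F] D.NS :=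
  ((JData.kX F a b).comp D.OS.subtype).codRestrict D.NS fun _ => ⟨D.ZS.zero_mem, trivial⟩

/-- `K` -/
def KK (h1 : D.Facts1) (h4 : D.Facts4) : B →ₗ[F] B →ₗ[F] (D.OS →ₗ[F] D.NS) :=
  LinearMap.mk₂ F (fun a b => KK0 (D := D) a b)
    (fun a b c => LinearMap.ext fun o => Subtype.ext (Prod.ext (add_zero _).symm
      (h4.κ_add a b c o o.2)))
    (fun t a b => LinearMap.ext fun o => Subtype.ext (Prod.ext (smul_zero _).symm
      (h4.κ_smul t a b o o.2)))
    (fun a b c => LinearMap.ext fun o => Subtype.ext (Prod.ext (add_zero _).symm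
      (κ_add' h1 h4 a b c o o.2)))
    (fun t a b => LinearMap.ext fun o => Subtype.ext (Prod.ext (smul_zero _).symm
      (κ_smul' h1 h4 t a b o o.2)))

/-- `M` -/
def MM (h4 : D.Facts4) : J →ₗ[F] (D.OS →ₗ[F] D.NS) where
  toFun j := ((JData.mX F j).comp D.OS.subtype).codRestrict D.NS fun o =>
    ⟨D.ZS.neg_mem (h4.f_mem j o o.2), trivial⟩
  map_add' j k := by
    refine LinearMap.ext fun o => Subtype.ext (Prod.ext ?_ ?_)
    · change -((o : JData.OX B J).2.2.1 (j + k)) =
        -((o : JData.OX B J).2.2.1 j) + -((o : JData.OX B J).2.2.1 k)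
      rw [(h4.rm_add j k o o.2).2.2, neg_add]
    · change (o : JData.OX B J).1 (j + k) + (o : JData.OX B J).2.1 (j + k) =
        ((o : JData.OX B J).1 j + (o : JData.OX B J).2.1 j) +
          ((o : JData.OX B J).1 k + (o : JData.OX B J).2.1 k)
      rw [(h4.rm_add j k o o.2).1, (h4.rm_add j k o o.2).2.1]
      abel
  map_smul' t j := by
    refine LinearMap.ext fun o => Subtype.ext (Prod.ext ?_ ?_)
    · change -((o : JData.OX B J).2.2.1 (t • j)) = t • -((o : JData.OX B J).2.2.1 j)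
      rw [(h4.rm_smul t j o o.2).2.2, smul_neg]
    · change (o : JData.OX B J).1 (t • j) + (o : JData.OX B J).2.1 (t • j) =
        t • ((o : JData.OX B J).1 j + (o : JData.OX B J).2.1 j)
      rw [(h4.rm_smul t j o o.2).1, (h4.rm_smul t j o o.2).2.1, smul_add]

/-! ### The alternating identities -/

theorem coe_psum (n : ℕ) (g : (Fin n → B) → D.NS) (y : Fin n → B) :
    ((psum n g y : D.NS) : (B → J) × J) = alt n (fun z => (g z : (B → J) × J)) y := by
  unfold psum alt
  have h := map_sum D.NS.subtype (fun s : Perm (Fin n) => (Perm.sign s : ℤ) • g (y ∘ s))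
    Finset.univ
  refine h.trans (Finset.sum_congr rfl fun s _ => ?_)
  rw [map_zsmul]
  rfl

theorem psum_tow (L : B →ₗ[F] (D.NS →ₗ[F] D.NS)) (m : ℕ)
    (g : (Fin m → B) → D.NS) (k : B [⋀^Fin m]→ₗ[F] D.NS)
    (h : ∀ z, psum m g z = (m.factorial : F) • k z) (y : Fin (m + 1) → B) :
    psum (m + 1) (fun z => L (z 0) (g (Fin.tail z))) y =
      ((m + 1).factorial : F) • Mal.Syz.up L k y := by
  rw [Mal.Syz.psum_step L g (m.factorial : F) k h, ← Mal.Syz.up_smul,
    AlternatingMap.smul_apply, smul_smul, Nat.factorial_succ]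
  congr 1
  push_cast; ring

theorem psum_of_alt (n : ℕ) (g k : (Fin n → B) → D.NS) (y : Fin n → B) (c : F)
    (h : alt n (fun z => (g z : (B → J) × J)) y = c • alt n (fun z => (k z : (B → J) × J)) y) :
    psum n g y = c • psum n k y := by
  refine Subtype.ext ?_
  rw [coe_psum, h, ← coe_psum]
  rfl

theorem fold_zero (A : B →ₗ[F] (D.OS →ₗ[F] D.OS)) (o : D.OS) (v : Fin 0 → B) :
    fold A o v = o := by
  simp [fold]

theorem psum_j4 (j : B [⋀^Fin 4]→ₗ[F] D.NS) (hj : ∀ x, j x = D.j4 x) (y : Fin 4 → B) :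
    psum 4 D.j4 y = (Nat.factorial 4 : F) • j y := by
  rw [← Mal.Syz.psum_alt]
  unfold psum
  exact Finset.sum_congr rfl fun s _ => by rw [hj]

theorem tail4 (z : Fin 5 → B) : (![z 1, z 2, z 3, z 4] : Fin 4 → B) = Fin.tail z := by
  funext i; fin_cases i <;> rfl

/-- the words on the right hand side -/
def W1 (h3 : D.Facts3) (z : Fin 5 → B) : D.NS := LL h3 (z 0) (D.j4 ![z 1, z 2, z 3, z 4])

/-- the words on the right hand side -/
def W2 (h3 : D.Facts3) (z : Fin 6 → B) : D.NS := LL h3 (z 0) (W1 h3 (Fin.tail z))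

/-- the words on the right hand side -/
def W3 (h3 : D.Facts3) (z : Fin 7 → B) : D.NS := LL h3 (z 0) (W2 h3 (Fin.tail z))

theorem LL_coe (h3 : D.Facts3) (a : B) (p : D.NS) :
    ((LL h3 a p : D.NS) : (B → J) × J) = D.La a p := (rfl)

theorem W1_coe (h3 : D.Facts3) (z : Fin 5 → B) :
    ((W1 h3 z : D.NS) : (B → J) × J) = D.La (z 0) (D.j4 ![z 1, z 2, z 3, z 4]) := by
  unfold W1
  rw [LL_coe]

theorem W2_coe (h3 : D.Facts3) (z : Fin 6 → B) :
    ((W2 h3 z : D.NS) : (B → J) × J) = D.La (z 0) (D.La (z 1) (D.j4 ![z 2, z 3, z 4, z 5])) := by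
  unfold W2
  rw [LL_coe, W1_coe]
  rfl

theorem W3_coe (h3 : D.Facts3) (z : Fin 7 → B) :
    ((W3 h3 z : D.NS) : (B → J) × J) =
      D.La (z 0) (D.La (z 1) (D.La (z 2) (D.j4 ![z 3, z 4, z 5, z 6]))) := by
  unfold W3
  rw [LL_coe, W2_coe]
  rfl

theorem psum_t1 (h3 : D.Facts3) (j : B [⋀^Fin 4]→ₗ[F] D.NS)
    (hj : ∀ x, j x = D.j4 x) (y : Fin 5 → B) :
    psum 5 (W1 h3) y = (Nat.factorial 5 : F) • Mal.Syz.up (LL h3) j y := by
  have h := psum_tow (LL h3) 4 D.j4 j (psum_j4 j hj) y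
  rw [← h]
  unfold psum
  exact Finset.sum_congr rfl fun s _ => by unfold W1; rw [tail4]

theorem psum_t2 (h3 : D.Facts3) (j : B [⋀^Fin 4]→ₗ[F] D.NS)
    (hj : ∀ x, j x = D.j4 x) (y : Fin 6 → B) :
    psum 6 (W2 h3) y = (Nat.factorial 6 : F) • Mal.Syz.up (LL h3) (Mal.Syz.up (LL h3) j) y :=
  psum_tow (LL h3) 5 (W1 h3) (Mal.Syz.up (LL h3) j) (psum_t1 h3 j hj) y

theorem psum_t3 (h3 : D.Facts3) (j : B [⋀^Fin 4]→ₗ[F] D.NS)
    (hj : ∀ x, j x = D.j4 x) (y : Fin 7 → B) :
    psum 7 (W3 h3) y =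
      (Nat.factorial 7 : F) • Mal.Syz.up (LL h3) (Mal.Syz.up (LL h3) (Mal.Syz.up (LL h3) j)) y :=
  psum_tow (LL h3) 6 (W2 h3) (Mal.Syz.up (LL h3) (Mal.Syz.up (LL h3) j)) (psum_t2 h3 j hj) y

/-- the combination of the alternating identities -/
def PH (h1 : D.Facts1) (h3 : D.Facts3) (h4 : D.Facts4) (a b c d : B) (o : D.OS) : D.NS :=
  LL h3 a (LL h3 d (KK h1 h4 b c o) + KK h1 h4 b c (AA h4 d o))
    - (LL h3 d (KK h1 h4 b c (AA h4 a o)) + KK h1 h4 b c (AA h4 d (AA h4 a o)))

/-- the unit -/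
def one' (h4 : D.Facts4) : D.OS := ⟨JData.uX, h4.uX_mem⟩

theorem PH_coe (h1 : D.Facts1) (h3 : D.Facts3) (h4 : D.Facts4) (a b c d : B) (o : D.OS) :
    ((PH h1 h3 h4 a b c d o : D.NS) : (B → J) × J) =
      D.La a (D.La d (JData.kX F b c (o : JData.OX B J)) + JData.kX F b c (D.AX d o))
        - (D.La d (JData.kX F b c (D.AX a o)) + JData.kX F b c (D.AX d (D.AX a o))) := (rfl)

theorem AA_coe (h4 : D.Facts4) (a : B) (o : D.OS) :
    ((AA h4 a o : D.OS) : JData.OX B J) = D.AX a o := (rfl)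

theorem one_coe (h4 : D.Facts4) : ((one' h4 : D.OS) : JData.OX B J) = JData.uX := (rfl)

end

end XSysB

end Pool.Agent.MX
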