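import Pool.Agent.MX.XSysB0

set_option autoImplicit false

/-! Theorem X: the system `XSys` attached to a `J`-cp algebra. -/

namespace Pool.Agent.MX

open Equiv
open Pool.Agent.MAL (alt IsMalcev)
open Pool.Agent.Mal.Syz (Cliff Rel XSys psum fold tow)

namespace XSysB

section

variable {F B J : Type} [Field F] [CharZero F] [NonUnitalNonAssocRing B] [Module F B]
    [IsScalarTower F B B] [SMulCommClass F B B] [AddCommGroup J] [Module F J] {D : JData F B J}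

theorem D_gen (n : ℕ) (y : Fin n → B) (g W : (Fin n → B) → D.NS) (c : F) (jj : D.NS)
    (hW : psum n W y = c • jj) (g' W' : (Fin n → B) → (B → J) × J)
    (hg : ∀ z, (g z : (B → J) × J) = g' z) (hW' : ∀ z, (W z : (B → J) × J) = W' z)
    (hD : alt n g' y = (-6 : F) • alt n W' y) : psum n g y = (-6 * c) • jj := by
  rw [mul_smul, ← hW]
  refine psum_of_alt n g W y (-6 : F) ?_
  rw [show (fun z => (g z : (B → J) × J)) = g' from funext hg,
    show (fun z => (W z : (B → J) × J)) = W' from funext hW', hD]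

theorem PH_gen (h1 : D.Facts1) (h3 : D.Facts3) (h4 : D.Facts4) (a b c d : B) (o : D.OS)
    (o' : JData.OX B J) (ho : (o : JData.OX B J) = o') :
    ((PH h1 h3 h4 a b c d o : D.NS) : (B → J) × J) =
      D.La a (D.La d (JData.kX F b c o') + JData.kX F b c (D.AX d o'))
        - (D.La d (JData.kX F b c (D.AX a o')) + JData.kX F b c (D.AX d (D.AX a o'))) := by
  rw [← ho]
  exact PH_coe h1 h3 h4 a b c d o

theorem D_field0 (hDD : Stmt_D) (hJ : D.IsJCP) (h1 : D.Facts1) (h2 : D.Facts2)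
    (h3 : D.Facts3) (h4 : D.Facts4) (hS : D.SupId) (j : B [⋀^Fin 4]→ₗ[F] D.NS)
    (hj : ∀ x, j x = D.j4 x) (y : Fin 4 → B) :
    psum 4 (fun y => PH h1 h3 h4 (y 0) (y 1) (y 2) (y 3) (one' h4)) y
      = (-6 * ((Nat.factorial 4 : ℕ) : F)) • j y := by
  have hD := (hDD F B J D hJ h1 h2 h3 h4 hS).1 y
  refine D_gen 4 y _ D.j4 _ _ (psum_j4 j hj y) _ _ (fun z => ?_) (fun z => ?_) hD
  · exact PH_gen h1 h3 h4 _ _ _ _ _ _ (one_coe h4)
  · rfl

theorem D_field1 (hDD : Stmt_D) (hJ : D.IsJCP) (h1 : D.Facts1) (h2 : D.Facts2)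
    (h3 : D.Facts3) (h4 : D.Facts4) (hS : D.SupId) (j : B [⋀^Fin 4]→ₗ[F] D.NS)
    (hj : ∀ x, j x = D.j4 x) (y : Fin 5 → B) :
    psum 5 (fun y => PH h1 h3 h4 (y 0) (y 1) (y 2) (y 3) (AA h4 (y 4) (one' h4))) y
      = (-6 * ((Nat.factorial 5 : ℕ) : F)) • Mal.Syz.up (LL h3) j y := by
  have hD := (hDD F B J D hJ h1 h2 h3 h4 hS).2.1 y
  refine D_gen 5 y _ (W1 h3) _ _ (psum_t1 h3 j hj y) _ _ (fun z => ?_) (fun z => ?_) hD
  · exact PH_gen h1 h3 h4 _ _ _ _ _ _ (by rw [AA_coe, one_coe])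
  · exact W1_coe h3 z

theorem D_field2 (hDD : Stmt_D) (hJ : D.IsJCP) (h1 : D.Facts1) (h2 : D.Facts2)
    (h3 : D.Facts3) (h4 : D.Facts4) (hS : D.SupId) (j : B [⋀^Fin 4]→ₗ[F] D.NS)
    (hj : ∀ x, j x = D.j4 x) (y : Fin 6 → B) :
    psum 6 (fun y => PH h1 h3 h4 (y 0) (y 1) (y 2) (y 3)
        (AA h4 (y 4) (AA h4 (y 5) (one' h4)))) y
      = (-6 * ((Nat.factorial 6 : ℕ) : F)) • Mal.Syz.up (LL h3) (Mal.Syz.up (LL h3) j) y := by
  have hD := (hDD F B J D hJ h1 h2 h3 h4 hS).2.2.1 y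
  refine D_gen 6 y _ (W2 h3) _ _ (psum_t2 h3 j hj y) _ _ (fun z => ?_) (fun z => ?_) hD
  · exact PH_gen h1 h3 h4 _ _ _ _ _ _ (by rw [AA_coe, AA_coe, one_coe])
  · exact W2_coe h3 z

theorem D_field3 (hDD : Stmt_D) (hJ : D.IsJCP) (h1 : D.Facts1) (h2 : D.Facts2)
    (h3 : D.Facts3) (h4 : D.Facts4) (hS : D.SupId) (j : B [⋀^Fin 4]→ₗ[F] D.NS)
    (hj : ∀ x, j x = D.j4 x) (y : Fin 7 → B) :
    psum 7 (fun y => PH h1 h3 h4 (y 0) (y 1) (y 2) (y 3)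
        (AA h4 (y 4) (AA h4 (y 5) (AA h4 (y 6) (one' h4))))) y
      = (-6 * ((Nat.factorial 7 : ℕ) : F)) •
        Mal.Syz.up (LL h3) (Mal.Syz.up (LL h3) (Mal.Syz.up (LL h3) j)) y := by
  have hD := (hDD F B J D hJ h1 h2 h3 h4 hS).2.2.2 y
  refine D_gen 7 y _ (W3 h3) _ _ (psum_t3 h3 j hj y) _ _ (fun z => ?_) (fun z => ?_) hD
  · exact PH_gen h1 h3 h4 _ _ _ _ _ _ (by rw [AA_coe, AA_coe, AA_coe, one_coe])
  · exact W3_coe h3 z

theorem fold1 (h4 : D.Facts4) (z : Fin (4 + 1) → B) :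
    fold (AA h4) (one' h4) (fun i : Fin 1 => z (Fin.natAdd 4 i)) = AA h4 (z 4) (one' h4) := by
  rw [Mal.Syz.fold_succ, fold_zero]
  rfl

theorem fold2 (h4 : D.Facts4) (z : Fin (4 + 2) → B) :
    fold (AA h4) (one' h4) (fun i : Fin 2 => z (Fin.natAdd 4 i)) =
      AA h4 (z 4) (AA h4 (z 5) (one' h4)) := by
  rw [Mal.Syz.fold_succ, Mal.Syz.fold_succ, fold_zero]
  rfl

theorem fold3 (h4 : D.Facts4) (z : Fin (4 + 3) → B) :
    fold (AA h4) (one' h4) (fun i : Fin 3 => z (Fin.natAdd 4 i)) =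
      AA h4 (z 4) (AA h4 (z 5) (AA h4 (z 6) (one' h4))) := by
  rw [Mal.Syz.fold_succ, Mal.Syz.fold_succ, Mal.Syz.fold_succ, fold_zero]
  rfl

theorem psum_congr (n : ℕ) (g g' : (Fin n → B) → D.NS) (h : ∀ z, g z = g' z) (y : Fin n → B) :
    psum n g y = psum n g' y := by
  rw [funext h]

theorem D_all (hDD : Stmt_D) (hJ : D.IsJCP) (h1 : D.Facts1) (h2 : D.Facts2)
    (h3 : D.Facts3) (h4 : D.Facts4) (hS : D.SupId) (j : B [⋀^Fin 4]→ₗ[F] D.NS)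
    (hj : ∀ x, j x = D.j4 x)
    (k : ℕ) (hk : k ≤ 3) (y : Fin (4 + k) → B) :
    psum (4 + k) (fun y => PH h1 h3 h4 (y (Fin.castAdd k 0)) (y (Fin.castAdd k 1))
        (y (Fin.castAdd k 2)) (y (Fin.castAdd k 3))
        (fold (AA h4) (one' h4) (fun i => y (Fin.natAdd 4 i)))) y
      = (-6 * ((4 + k).factorial : F)) • tow (LL h3) j k y := by
  match k, hk, y with
  | 0, _, y =>
    refine Eq.trans (psum_congr _ _ _ (fun z => ?_) y)
      (D_field0 hDD hJ h1 h2 h3 h4 hS j hj y)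
    exact congrArg (PH h1 h3 h4 (z 0) (z 1) (z 2) (z 3)) (fold_zero _ _ _)
  | 1, _, y =>
    refine Eq.trans (psum_congr _ _ _ (fun z => ?_) y)
      (D_field1 hDD hJ h1 h2 h3 h4 hS j hj y)
    exact congrArg (PH h1 h3 h4 (z 0) (z 1) (z 2) (z 3)) (fold1 h4 z)
  | 2, _, y =>
    refine Eq.trans (psum_congr _ _ _ (fun z => ?_) y)
      (D_field2 hDD hJ h1 h2 h3 h4 hS j hj y)
    exact congrArg (PH h1 h3 h4 (z 0) (z 1) (z 2) (z 3)) (fold2 h4 z)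
  | 3, _, y =>
    refine Eq.trans (psum_congr _ _ _ (fun z => ?_) y)
      (D_field3 hDD hJ h1 h2 h3 h4 hS j hj y)
    exact congrArg (PH h1 h3 h4 (z 0) (z 1) (z 2) (z 3)) (fold3 h4 z)
  | (k + 4), hk, _ => omega

theorem D_all' (hDD : Stmt_D) (hJ : D.IsJCP) (h1 : D.Facts1) (h2 : D.Facts2)
    (h3 : D.Facts3) (h4 : D.Facts4) (hS : D.SupId) (j : B [⋀^Fin 4]→ₗ[F] D.NS)
    (hj : ∀ x, j x = D.j4 x)
    (k : ℕ) (hk : k ≤ 3) (y : Fin (4 + k) → B) :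
    psum (4 + k) (fun y =>
      LL h3 (y (Fin.castAdd k 0)) (LL h3 (y (Fin.castAdd k 3))
            (KK h1 h4 (y (Fin.castAdd k 1)) (y (Fin.castAdd k 2))
            (fold (AA h4) (one' h4) (fun i => y (Fin.natAdd 4 i))))
          + KK h1 h4 (y (Fin.castAdd k 1)) (y (Fin.castAdd k 2)) (AA h4 (y (Fin.castAdd k 3))
            (fold (AA h4) (one' h4) (fun i => y (Fin.natAdd 4 i)))))
        - (LL h3 (y (Fin.castAdd k 3)) (KK h1 h4 (y (Fin.castAdd k 1)) (y (Fin.castAdd k 2))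
            (AA h4 (y (Fin.castAdd k 0)) (fold (AA h4) (one' h4) (fun i => y (Fin.natAdd 4 i)))))
          + KK h1 h4 (y (Fin.castAdd k 1)) (y (Fin.castAdd k 2)) (AA h4 (y (Fin.castAdd k 3))
            (AA h4 (y (Fin.castAdd k 0))
              (fold (AA h4) (one' h4) (fun i => y (Fin.natAdd 4 i))))))) y
      = (-6 * ((4 + k).factorial : F)) • tow (LL h3) j k y := by
  have e := D_all hDD hJ h1 h2 h3 h4 hS j hj k hk y
  unfold PH at e
  exact e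

end

end XSysB

end Pool.Agent.MX
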